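import Pool.Agent.Lib.MP_e97e2b_nt.RT.An

/- Rankin bounds when few primes of degree one have a given quadratic symbol. -/

namespace Pool.Agent.RT

open NumberField IsDedekindDomain Pool.Agent.Lib.MP_e97e2b_nt Finset ArithmeticFunction

variable (K : Type) [Field K] [NumberField K]

/-- The primes of degree one with symbol `ε`. -/
def Sel (l p0 : ℕ) (ε : ℝ) (n : ℕ) : Prop :=
  n.Prime ∧ p0 < n ∧ ¬ n ∣ 2 * l ∧ Deg1 K n ∧ chi l n = ε

open Classical in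
/-- There are few such primes below `l ^ T`. -/
def Few (l p0 : ℕ) (T ε σ C : ℝ) : Prop :=
  ∀ N : ℕ, (N : ℝ) ≤ (l : ℝ) ^ T →
    ∑ n ∈ Ioc 0 N, (if Sel K l p0 ε n then (n : ℝ) ^ (-σ) else 0) ≤ C

lemma f_mono {σ : ℝ} (h : 99 / 100 ≤ σ) {n : ℕ} (hn : 0 < n) :
    (n : ℝ) ^ (-σ) ≤ (n : ℝ) ^ (-(99 / 100) : ℝ) :=
  Real.rpow_le_rpow_of_exponent_le (by exact_mod_cast hn) (by linarith)

open Classical in
lemma f_local {l p0 : ℕ} (hl : l.Prime) {ε σ : ℝ} (h : 99 / 100 ≤ σ) (hε : ε = 1 ∨ ε = -1)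
    (v : HeightOneSpectrum (𝓞 K)) {q : ℕ} (hv : Ideal.absNorm v.asIdeal = q) :
    (if chi l q = -ε then ((q : ℝ) ^ (-σ)) ^ 2 else (q : ℝ) ^ (-σ)) ≤
      ((q : ℝ) ^ (-(99 / 100) : ℝ)) ^ 2 +
      (if ∃ x y : ℕ, q = x ^ 2 * y ^ 3 then (q : ℝ) ^ (-(99 / 100) : ℝ) else 0) +
      (if q ≤ p0 ∨ q = 2 ∨ q = l then (1 : ℝ) else 0) +
      (if Sel K l p0 ε q then (q : ℝ) ^ (-σ) else 0) := by
  have hq1 : 1 < q := hv ▸ eu_one_lt K v
  have hr := e2_r_le hq1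
  have hm := f_mono h (zero_lt_one.trans hq1)
  have := v.isMaximal
  obtain ⟨p, j, hj, -, hp, hq⟩ := Ideal.exists_prime_and_absNorm_eq_pow v.asIdeal
  have hD : Deg1 K q := ⟨v.asIdeal, v.isPrime, hv⟩
  rw [hv] at hq
  have hr0 : 0 ≤ (q : ℝ) ^ (-σ) := Real.rpow_nonneg (Nat.cast_nonneg q) _
  generalize (q : ℝ) ^ (-(99 / 100) : ℝ) = r at *
  generalize (q : ℝ) ^ (-σ) = s at *
  have a2 : s ^ 2 ≤ r ^ 2 := pow_le_pow_left₀ hr0 hm 2
  have a3 : 0 ≤ s ^ 2 := sq_nonneg s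
  split_ifs with c0 c1 c2 c3 c3 c2 c3 c3 c1 c2 c3 c3 c2 c3 c3 <;> try linarith
  exfalso
  have hj1 : j = 1 := by
    by_contra hj1
    apply c1
    obtain ⟨i, rfl | rfl⟩ := Nat.even_or_odd' j
    · exact ⟨p ^ i, 1, by rw [hq]; ring⟩
    · obtain ⟨i, rfl⟩ : ∃ i', i = i' + 1 := ⟨i - 1, by omega⟩
      exact ⟨p ^ i, p, by rw [hq]; ring⟩
  rw [hj1, pow_one] at hq
  subst hq
  have n2 : ¬ q ∣ l := fun h => c2 (Or.inr (Or.inr ((Nat.prime_dvd_prime_iff_eq hp hl).1 h)))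
  refine c3 ⟨hp, by omega, fun hd => ?_, hD, ?_⟩
  · rcases (Nat.Prime.dvd_mul hp).1 hd with h | h
    · exact c2 (Or.inr (Or.inl ((Nat.prime_dvd_prime_iff_eq hp Nat.prime_two).1 h)))
    · exact n2 h
  · have h0 : chi l q ≠ 0 := by
      have : NeZero l := ⟨hl.ne_zero⟩
      rw [chi, Int.cast_ne_zero, Ne, jacobiSym.eq_zero_iff_not_coprime, not_not]
      exact_mod_cast (Nat.coprime_primes hp hl).2 fun e => n2 (e ▸ dvd_rfl)
    rcases chi_cases l q with e | e | e <;> rcases hε with rfl | rfl <;> simp_all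

open Classical in
lemma f_sum (p0 : ℕ) (T C : ℝ) : ∃ B : ℝ, ∀ l : ℕ, l.Prime → ∀ ε σ : ℝ, 99 / 100 ≤ σ →
    (ε = 1 ∨ ε = -1) → Few K l p0 T ε σ C → ∀ N : ℕ, (N : ℝ) ≤ (l : ℝ) ^ T →
    ∀ S : Finset (HeightOneSpectrum (𝓞 K)), (∀ v ∈ S, Ideal.absNorm v.asIdeal ≤ N) →
    ∑ v ∈ S, (if chi l (Ideal.absNorm v.asIdeal : ℕ) = -ε then
      (((Ideal.absNorm v.asIdeal : ℕ) : ℝ) ^ (-σ)) ^ 2
      else ((Ideal.absNorm v.asIdeal : ℕ) : ℝ) ^ (-σ)) ≤ B := by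
  obtain ⟨Z, hZ⟩ := e2_zeta
  refine ⟨Module.finrank ℚ K * (Z + Z * Z + (p0 + 2) + C), fun l hl ε σ h hε hF N hN S hS => ?_⟩
  refine (sum_le_sum fun v _ => f_local K (p0 := p0) hl h hε v rfl).trans ?_
  refine (eu_sum_norm K S N hS (fun q => ((q : ℝ) ^ (-(99 / 100) : ℝ)) ^ 2 +
      (if ∃ x y : ℕ, q = x ^ 2 * y ^ 3 then (q : ℝ) ^ (-(99 / 100) : ℝ) else 0) +
      (if q ≤ p0 ∨ q = 2 ∨ q = l then (1 : ℝ) else 0) +
      (if Sel K l p0 ε q then (q : ℝ) ^ (-σ) else 0)) fun n => by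
    split_ifs <;> positivity).trans (mul_le_mul_of_nonneg_left ?_ (Nat.cast_nonneg _))
  rw [sum_add_distrib, sum_add_distrib, sum_add_distrib]
  have z0 : 0 ≤ ∑ n ∈ Ioc 0 N, ((n : ℝ) ^ (-(99 / 100) : ℝ)) ^ 2 :=
    sum_nonneg fun n _ => sq_nonneg _
  exact add_le_add (add_le_add (add_le_add (hZ N) ((e2_sum_full N).trans
    (mul_le_mul (hZ N) (hZ N) z0 (z0.trans (hZ N))))) (e2_sum_small N p0 l)) (hF N hN)

lemma f_r_le {σ : ℝ} (h : 99 / 100 ≤ σ) {q : ℕ} (hq : 1 < q) : (q : ℝ) ^ (-σ) ≤ 2 / 3 :=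
  (f_mono h (zero_lt_one.trans hq)).trans (e2_r_le hq)

theorem f_rankin (p0 : ℕ) (T C : ℝ) : ∃ B : ℝ, ∀ l : ℕ, l.Prime → ∀ σ : ℝ, 99 / 100 ≤ σ →
    Few K l p0 T 1 σ C → Sm (⇑(cnt K * tw (cnt K) fun n => chi l n)) ((l : ℝ) ^ T) ≤
      B * ((l : ℝ) ^ T) ^ σ := by
  classical
  obtain ⟨B, hB⟩ := f_sum K p0 T C
  refine ⟨Real.exp (6 * B), fun l hl σ hσ hF => ?_⟩
  have hl0 : (0 : ℝ) < l := by exact_mod_cast hl.pos
  replace hB := hB l hl 1 σ hσ (Or.inl rfl) hF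
  set x := (l : ℝ) ^ T with hx
  have hx0 : 0 < x := Real.rpow_pos_of_pos hl0 _
  set N := ⌊x⌋₊ with hN
  have hNx : (N : ℝ) ≤ x := Nat.floor_le hx0.le
  obtain ⟨S, hS1, hS⟩ := eu_exists K N
  have hcm := eu_CM_rpow (-σ)
  have h1 := (hS.mul (eu_tw_cnt K (eu_CM_chi l) hS)).tw fun n => (n : ℝ) ^ (-σ)
  rw [← prod_mul_distrib, eu_tw_prod hcm, prod_congr rfl fun v _ => by
    rw [eu_tw_mul hcm, eu_tw_G hcm (eu_one_lt K v), eu_tw_G hcm (eu_one_lt K v), one_mul]] at h1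
  have h2 := eu_W_prod N S _ _ (fun v _ => by
      rw [eu_G, eu_G, ← map_mul]
      exact eu_Pos_of (eu_one_lt K v)
        (eu_NN_two (Real.rpow_nonneg (Nat.cast_nonneg _) _) (chi_cases l _)))
    fun v _ => eu_W_local N (eu_one_lt K v) (c := chi l (Ideal.absNorm v.asIdeal : ℕ))
      (Real.rpow_nonneg (Nat.cast_nonneg _) (-σ)) (f_r_le hσ (eu_one_lt K v))
      (chi_cases l _)
  rw [← mul_sum] at h2
  have h9 := h2.trans (Real.exp_le_exp.2 (mul_le_mul_of_nonneg_left (hB N hNx S hS1)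
    (by norm_num : (0 : ℝ) ≤ 6)))
  refine le_trans ?_ (mul_le_mul_of_nonneg_right h9 (Real.rpow_nonneg hx0.le _))
  unfold Sm eu_W
  rw [sum_mul]
  refine sum_le_sum fun n hn => ?_
  obtain ⟨hn0, hnN⟩ := mem_Ioc.1 hn
  have hn1 : (0 : ℝ) < n := by exact_mod_cast hn0
  have hn2 : (n : ℝ) ≤ x := le_trans (by exact_mod_cast hnN) hNx
  rw [← h1 n hnN, tw_apply, mul_assoc]
  refine le_mul_of_one_le_right (pos2 K l n) ?_
  rw [Real.rpow_neg hn1.le, ← div_eq_inv_mul, one_le_div (Real.rpow_pos_of_pos hn1 _)]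
  exact Real.rpow_le_rpow hn1.le hn2 (by linarith)

/-- The quotient of two local factors. -/
noncomputable def hh (c r : ℝ) : PowerSeries ℝ :=
  PowerSeries.mk fun k => if k = 0 then 1 else (1 - c) * r ^ k

lemma hh_NN {c r : ℝ} (hc : c ≤ 1) (hr : 0 ≤ r) : eu_NN (hh c r) := fun k => by
  have : 0 ≤ 1 - c := by linarith
  simp only [hh, PowerSeries.coeff_mk]
  split_ifs <;> positivity

lemma hh_mul (c : ℝ) : eu_geo c * hh c 1 = eu_geo 1 := by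
  have h1 : hh c 1 * (1 - PowerSeries.X) = 1 - PowerSeries.C c * PowerSeries.X := by
    ext k
    rcases k with _ | _ | k <;>
      simp [hh, mul_sub, PowerSeries.coeff_succ_mul_X, PowerSeries.coeff_one]
  have h2 : eu_geo c * (1 - PowerSeries.C c * PowerSeries.X) = 1 := by
    ext k
    rcases k with _ | k <;>
      simp [eu_geo, mul_sub, ← mul_assoc, PowerSeries.coeff_succ_mul_X, PowerSeries.coeff_one,
        pow_succ]
  have h3 : (1 - PowerSeries.X : PowerSeries ℝ) ≠ 0 := right_ne_zero_of_mul_eq_one eu_geo_one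
  exact mul_right_cancel₀ h3 (by rw [mul_assoc, h1, h2, eu_geo_one])

lemma hh_tw {χ : ℕ → ℝ} (h : eu_CM χ) {q : ℕ} (hq : 1 < q) (c : ℝ) :
    tw (ofPowerSeries q (hh c 1)) χ = ofPowerSeries q (hh c (χ q)) := by
  ext n
  rw [tw_apply]
  by_cases hn : ∃ k, q ^ k = n
  · obtain ⟨k, rfl⟩ := hn
    rw [ofPowerSeries_apply_pow hq, ofPowerSeries_apply_pow hq, h.pow]
    simp only [hh, PowerSeries.coeff_mk]
    split_ifs with hk
    · simp [hk]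
    · simp
  · rw [eu_of_not_pow hq _ hn, eu_of_not_pow hq _ hn, zero_mul]

lemma hh_W (N : ℕ) {q : ℕ} (hq : 1 < q) {r c : ℝ} (h0 : 0 ≤ r) (h1 : r ≤ 2 / 3)
    (hc : c = 0 ∨ c = 1 ∨ c = -1) :
    eu_W N (ofPowerSeries q (hh c r)) ≤ Real.exp (6 * if c = 1 then r ^ 2 else r) := by
  have hs : HasSum (fun k => PowerSeries.coeff k (hh c r)) ((1 - c) * (1 - r)⁻¹ + c) := by
    have h2 := ((hasSum_geometric_of_lt_one h0 (by linarith)).mul_left (1 - c)).add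
      (hasSum_ite_eq 0 c)
    rw [show (fun k => PowerSeries.coeff k (hh c r)) =
      fun k => (1 - c) * r ^ k + if k = 0 then c else 0 from funext fun k => by
        simp only [hh, PowerSeries.coeff_mk]
        split_ifs with hk <;> simp [hk]]
    exact h2
  have hc1 : c ≤ 1 := by rcases hc with rfl | rfl | rfl <;> norm_num
  refine (eu_W_of N hq (hh_NN hc1 h0) hs).trans (le_trans ?_ (Real.add_one_le_exp _))
  have h2 : 0 < 1 - r := by linarith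
  have h3 : (1 - r)⁻¹ ≤ 3 * r + 1 := by
    rw [inv_le_iff_one_le_mul₀ h2]
    nlinarith
  rcases hc with rfl | rfl | rfl
  · norm_num
    linarith
  · norm_num
    positivity
  · norm_num
    linarith

theorem f_conv (p0 : ℕ) (T C : ℝ) : ∃ B : ℝ, ∀ l : ℕ, l.Prime → ∀ σ : ℝ, 99 / 100 ≤ σ →
    Few K l p0 T (-1) σ C → ∃ h : ArithmeticFunction ℝ, (∀ n, 0 ≤ h n) ∧
      ∑ n ∈ Ioc 0 ⌊(l : ℝ) ^ T⌋₊, h n * (n : ℝ) ^ (-σ) ≤ B ∧
      Sm (cnt K) ((l : ℝ) ^ T) =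
        Sm (⇑(h * tw (cnt K) fun n => chi l n)) ((l : ℝ) ^ T) := by
  classical
  obtain ⟨B, hB⟩ := f_sum K p0 T C
  refine ⟨Real.exp (6 * B), fun l hl σ hσ hF => ?_⟩
  have hl0 : (0 : ℝ) < l := by exact_mod_cast hl.pos
  replace hB := hB l hl (-1) σ hσ (Or.inr rfl) hF
  set x := (l : ℝ) ^ T with hx
  have hx0 : 0 < x := Real.rpow_pos_of_pos hl0 _
  set N := ⌊x⌋₊ with hN
  have hNx : (N : ℝ) ≤ x := Nat.floor_le hx0.le
  obtain ⟨S, hS1, hS⟩ := eu_exists K N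
  have hcm := eu_CM_rpow (-σ)
  have hc1 : ∀ q : ℕ, chi l q ≤ 1 := fun q => (le_abs_self _).trans (abs_chi_le _ _)
  refine ⟨∏ v ∈ S, ofPowerSeries (Ideal.absNorm v.asIdeal)
    (hh (chi l (Ideal.absNorm v.asIdeal : ℕ)) 1), eu_Pos_prod S _ fun v _ =>
      eu_Pos_of (eu_one_lt K v) (hh_NN (hc1 _) zero_le_one), ?_, ?_⟩
  · have h2 := eu_W_prod N S _ _ (fun v _ => eu_Pos_of (eu_one_lt K v)
        (hh_NN (hc1 _) (Real.rpow_nonneg (Nat.cast_nonneg _) (-σ))))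
      fun v _ => hh_W N (eu_one_lt K v) (c := chi l (Ideal.absNorm v.asIdeal : ℕ))
        (Real.rpow_nonneg (Nat.cast_nonneg _) (-σ)) (f_r_le hσ (eu_one_lt K v)) (chi_cases l _)
    rw [← mul_sum, ← prod_congr rfl fun v _ => hh_tw hcm (eu_one_lt K v) _,
      ← eu_tw_prod hcm] at h2
    have h3 := hB N hNx S hS1
    rw [neg_neg] at h3
    exact h2.trans (Real.exp_le_exp.2 (mul_le_mul_of_nonneg_left h3 (by norm_num)))
  · refine sum_congr rfl fun n hn => ?_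
    have hn' := (mem_Ioc.1 hn).2
    rw [eu_Eq.mul (fun _ _ => rfl) (eu_tw_cnt K (eu_CM_chi l) hS) n hn', hS n hn',
      ← prod_mul_distrib]
    congr 1
    refine prod_congr rfl fun v _ => ?_
    rw [eu_G, eu_G, ← map_mul, mul_comm, hh_mul]

end Pool.Agent.RT
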