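import Pool.Agent.Lib.MP_e97e2b_nt.RM.An1

/- Primes of degree one with a given quadratic symbol are not sparse. -/

namespace Pool.Agent.RT

open NumberField Pool.Agent.Lib.MP_e97e2b_nt Filter Topology

theorem lv_upper2 (κ θ C δ σ τ η : ℝ) (hκ : 0 < κ) (hθ : 0 < θ) (hδ : 0 < δ) (hσ : σ < 1)
    (hτ : 0 < τ) (hη : 0 < η) (hη' : η ≤ 1 / 2) :
    ∃ C' δ' : ℝ, 0 < δ' ∧ ∀ (a : ArithmeticFunction ℝ) (χ : ℕ → ℝ) (l : ℝ), 1 ≤ l →
    (∀ n, 0 ≤ a n) → (∀ n, |χ n| ≤ 1) →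
    (∀ x : ℝ, 1 ≤ x → |Sm a x - κ * x| ≤ C * x ^ (1 - θ)) →
    (∀ x : ℝ, 1 ≤ x → |Sm (tw a χ) x| ≤ C * l * x ^ (1 - θ)) →
    (∀ x : ℝ, l ^ τ ≤ x → |Sm (tw a χ) x| ≤ C * x * l ^ (-δ)) →
    Sm (⇑(a * tw a χ)) (l ^ (η + τ)) ≤ C * (l ^ (η + τ)) ^ σ →
    Lv (tw a χ) 1 ≤ C' * l ^ (-δ') := by
  set K1 : ℝ := (3 + (1 + δ) / δ) * (κ + C) with hK1
  obtain ⟨ϑ, hϑ, hϑ'⟩ : ∃ ϑ : ℝ, 0 < ϑ ∧ τ * ϑ = η * θ / 2 :=
    ⟨η * θ / 2 / τ, by positivity, by field_simp⟩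
  set K2 : ℝ := (3 + (1 + ϑ) / ϑ) * (κ + C) with hK2
  set K3 : ℝ := (2 + 2 / (δ / (2 * (1 + δ)) * θ)) * C with hK3
  set δ' : ℝ := min ((η + τ) * (1 - σ)) (min (δ / 2) (η * θ / 2)) with hδ'
  have hσ' : 0 < 1 - σ := by linarith
  refine ⟨(C + C * K1 + C * K2 + (κ + C) * C) / κ + K3, δ', by positivity, ?_⟩
  intro a χ l hl ha hχ h0 h1 h2 h3
  have hl0 : 0 < l := by linarith
  have hC : 0 ≤ C := by
    have := h0 1 le_rfl
    rw [Real.one_rpow, mul_one, mul_one] at this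
    exact (abs_nonneg _).trans this
  have hD : 0 ≤ κ + C := by linarith
  have hS : ∀ t : ℝ, 1 ≤ t → |Sm a t| ≤ (κ + C) * t := by
    intro t ht
    have h := h0 t ht
    have h4 : t ^ (1 - θ) ≤ t := by
      have := Real.rpow_le_rpow_of_exponent_le ht (show 1 - θ ≤ 1 by linarith)
      rwa [Real.rpow_one] at this
    have h5 : C * t ^ (1 - θ) ≤ C * t := mul_le_mul_of_nonneg_left h4 hC
    have h6 : 0 ≤ κ * t := by positivity
    rw [abs_le] at h ⊢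
    constructor <;> nlinarith [h.1, h.2]
  have hb : ∀ n, |tw a χ n| ≤ a n := by
    intro n
    rw [tw_apply, abs_mul, abs_of_nonneg (ha n)]
    exact mul_le_of_le_one_right (ha n) (hχ n)
  set y : ℝ := l ^ η with hy
  set z : ℝ := l ^ τ with hz
  have hy1 : 1 ≤ y := Real.one_le_rpow hl (by positivity)
  have hz1 : 1 ≤ z := Real.one_le_rpow hl (by positivity)
  have hyz : y * z = l ^ (η + τ) := by
    rw [hy, hz, ← Real.rpow_add hl0]
  have hx0 : 0 < y * z := by positivity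
  have hH := hyperbola a (tw a χ) y z hy1 hz1
  have hF := up_first a (tw a χ) (κ + C) C δ l y z hδ hC hD hl0 hy1 hz1 ha hS h2
  have hG := up_second a (tw a χ) κ θ (κ + C) C ϑ y z hθ hϑ hC hD hy1 hz1
    ha hb hS h0
  have hT := up_tail (tw a χ) θ C δ l z hθ hδ hC hl hz1 h1 h2
  rw [← hK1] at hF
  rw [← hK2] at hG
  rw [← hK3] at hT
  have hK1' : 0 ≤ K1 := by positivity
  have hK2' : 0 ≤ K2 := by positivity
  have hK3' : 0 ≤ K3 := by positivity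
  have hd1 : δ' ≤ (η + τ) * (1 - σ) := min_le_left _ _
  have hd2 : δ' ≤ δ / 2 := (min_le_right _ _).trans (min_le_left _ _)
  have hd3 : δ' ≤ η * θ / 2 := (min_le_right _ _).trans (min_le_right _ _)
  set E : ℝ := l ^ (-δ') with hE
  have hE0 : 0 < E := Real.rpow_pos_of_pos hl0 _
  have hpow : ∀ e : ℝ, e ≤ -δ' → l ^ e ≤ E := fun e he =>
    Real.rpow_le_rpow_of_exponent_le hl he
  have b0 : Sm (⇑(a * tw a χ)) (y * z) ≤ C * (y * z) * E := by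
    rw [hyz]
    refine h3.trans ?_
    rw [mul_assoc]
    refine mul_le_mul_of_nonneg_left ?_ hC
    have e : (l ^ (η + τ)) ^ σ = l ^ (η + τ) * l ^ (-((η + τ) * (1 - σ)) : ℝ) := by
      rw [← Real.rpow_mul hl0.le, ← Real.rpow_add hl0]
      congr 1
      ring
    rw [e]
    exact mul_le_mul_of_nonneg_left (hpow _ (by linarith)) (Real.rpow_pos_of_pos hl0 _).le
  have b1 : C * (y * z) * l ^ (-δ) * (K1 * y ^ δ) ≤ C * K1 * (y * z) * E := by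
    have e : l ^ (-δ) * y ^ δ ≤ E := by
      rw [hy, ← Real.rpow_mul hl0.le, ← Real.rpow_add hl0]
      exact hpow _ (by nlinarith)
    calc C * (y * z) * l ^ (-δ) * (K1 * y ^ δ) = C * K1 * (y * z) * (l ^ (-δ) * y ^ δ) := by ring
      _ ≤ C * K1 * (y * z) * E := mul_le_mul_of_nonneg_left e (by positivity)
  have b2 : C * (y * z) ^ (1 - θ) * (K2 * z ^ (θ + ϑ)) ≤ C * K2 * (y * z) * E := by
    have e : (y * z) ^ (1 - θ) * z ^ (θ + ϑ) ≤ (y * z) * E := by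
      have e1 : (y * z) ^ (1 - θ) = (y * z) * (y * z) ^ (-θ) := by
        rw [sub_eq_add_neg, Real.rpow_add hx0, Real.rpow_one]
      rw [e1, mul_assoc]
      refine mul_le_mul_of_nonneg_left ?_ hx0.le
      rw [hyz, hz, ← Real.rpow_mul hl0.le, ← Real.rpow_mul hl0.le, ← Real.rpow_add hl0]
      exact hpow _ (by linarith)
    calc C * (y * z) ^ (1 - θ) * (K2 * z ^ (θ + ϑ))
        = C * K2 * ((y * z) ^ (1 - θ) * z ^ (θ + ϑ)) := by ring
      _ ≤ C * K2 * ((y * z) * E) := mul_le_mul_of_nonneg_left e (by positivity)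
      _ = C * K2 * (y * z) * E := by ring
  have b3 : |Sm a y * Sm (tw a χ) z| ≤ (κ + C) * C * (y * z) * E := by
    rw [abs_mul]
    calc |Sm a y| * |Sm (tw a χ) z| ≤ (κ + C) * y * (C * z * l ^ (-δ)) :=
          mul_le_mul (hS y hy1) (h2 z le_rfl) (abs_nonneg _) (by positivity)
      _ = (κ + C) * C * (y * z) * l ^ (-δ) := by ring
      _ ≤ (κ + C) * C * (y * z) * E :=
          mul_le_mul_of_nonneg_left (hpow _ (by linarith)) (by positivity)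
  have b4 : K3 * l ^ (-(δ / 2)) ≤ K3 * E :=
    mul_le_mul_of_nonneg_left (hpow _ (by linarith)) hK3'
  set P : ℝ := Sm (fun n => tw a χ n * (n : ℝ) ^ (-1 : ℝ)) z with hP
  have c1 : κ * (y * z) * P ≤ (C + C * K1 + C * K2 + (κ + C) * C) * (y * z) * E := by
    have f1 := abs_le.1 (hF.trans b1)
    have f2 := abs_le.1 (hG.trans b2)
    have f3 := abs_le.1 b3
    linarith [f1.1, f2.1, f3.2]
  have c2 : P ≤ (C + C * K1 + C * K2 + (κ + C) * C) / κ * E := by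
    rw [div_mul_eq_mul_div, le_div_iff₀ hκ]
    refine le_of_mul_le_mul_left ?_ hx0
    linarith
  have c3 := abs_le.1 (hT.trans b4)
  linarith [c3.1]


lemma f_le {a : ℕ → ℝ} {κ θ C : ℝ} (hκ : 0 < κ) (hθ : 0 < θ) (hC : 0 ≤ C)
    (h0 : ∀ x : ℝ, 1 ≤ x → |Sm a x - κ * x| ≤ C * x ^ (1 - θ)) (t : ℝ) (ht : 1 ≤ t) :
    |Sm a t| ≤ (κ + C) * t := by
  have h := h0 t ht
  have h4 := Real.rpow_le_rpow_of_exponent_le ht (show 1 - θ ≤ 1 by linarith)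
  rw [Real.rpow_one] at h4
  have h5 := mul_le_mul_of_nonneg_left h4 hC
  have h6 : 0 ≤ κ * t := by positivity
  rw [abs_le] at h ⊢
  constructor <;> linarith [h.1, h.2]

theorem nr_upper {a h : ArithmeticFunction ℝ} {χ : ℕ → ℝ} {κ θ C δ σ B l τ η : ℝ} (hκ : 0 < κ)
    (hτ : 0 < τ) (hη : 0 < η)
    (hθ : 0 < θ) (hC : 0 ≤ C) (hσ : σ < 1) (hl : 1 ≤ l) (ha : ∀ n, 0 ≤ a n)
    (hχ : ∀ n, |χ n| ≤ 1) (h0 : ∀ x : ℝ, 1 ≤ x → |Sm a x - κ * x| ≤ C * x ^ (1 - θ))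
    (h2 : ∀ x : ℝ, l ^ τ ≤ x → |Sm (tw a χ) x| ≤ C * x * l ^ (-δ)) (hh : ∀ n, 0 ≤ h n)
    (hB : ∑ n ∈ Finset.Ioc 0 ⌊l ^ (η + τ)⌋₊, h n * (n : ℝ) ^ (-σ) ≤ B)
    (he : Sm a (l ^ (η + τ)) = Sm (⇑(h * tw a χ)) (l ^ (η + τ))) :
    κ ≤ C * l ^ (-((η + τ) * θ)) +
      B * (C * l ^ (-δ) + (κ + C) * l ^ (-(η * (1 - σ)))) := by
  have hl0 : 0 < l := by linarith
  set x : ℝ := l ^ (η + τ) with hx
  have hx1 : 1 ≤ x := Real.one_le_rpow hl (by positivity)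
  have hx0 : 0 < x := by linarith
  set E : ℝ := C * l ^ (-δ) + (κ + C) * l ^ (-(η * (1 - σ))) with hE
  have e1 : 0 ≤ C * l ^ (-δ) := by positivity
  have e2 : 0 ≤ (κ + C) * l ^ (-(η * (1 - σ))) := by positivity
  have k1 : Sm (⇑(h * tw a χ)) x = ∑ m ∈ Finset.Ioc 0 ⌊x⌋₊, h m * Sm (tw a χ) (x / m) := by
    unfold Sm
    simp only [Nat.floor_div_natCast]
    exact ArithmeticFunction.sum_Ioc_mul_eq_sum_sum _ _ _
  have k2 : ∀ m ∈ Finset.Ioc 0 ⌊x⌋₊, h m * Sm (tw a χ) (x / m) ≤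
      h m * (m : ℝ) ^ (-σ) * (E * x) := fun m hm => by
    obtain ⟨m0, m1⟩ := Finset.mem_Ioc.1 hm
    have m2 : (1 : ℝ) ≤ m := by exact_mod_cast m0
    have m3 : (m : ℝ) ≤ x := (Nat.le_floor_iff hx0.le).1 m1
    have m4 : (0 : ℝ) < m := by linarith
    rw [mul_assoc]
    refine mul_le_mul_of_nonneg_left ((le_abs_self _).trans ?_) (hh m)
    have m5 : 0 < (m : ℝ) ^ (-σ) := by positivity
    by_cases hy : (m : ℝ) ≤ l ^ η
    · refine (h2 _ ?_).trans ?_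
      · rw [le_div_iff₀ m4, hx, add_comm, Real.rpow_add hl0]
        gcongr
      · have m6 : (m : ℝ)⁻¹ ≤ (m : ℝ) ^ (-σ) := by
          rw [← Real.rpow_neg_one]
          exact Real.rpow_le_rpow_of_exponent_le m2 (by linarith)
        calc C * (x / m) * l ^ (-δ) = (m : ℝ)⁻¹ * (C * l ^ (-δ) * x) := by ring
          _ ≤ (m : ℝ) ^ (-σ) * (E * x) := by gcongr; linarith
    · have m7 : 1 ≤ x / m := (one_le_div m4).2 m3
      have m6 : (m : ℝ)⁻¹ ≤ (m : ℝ) ^ (-σ) * l ^ (-(η * (1 - σ))) := by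
        rw [← Real.rpow_neg_one, show (-1 : ℝ) = -σ + -(1 - σ) by ring, Real.rpow_add m4,
          show -(η * (1 - σ)) = η * -(1 - σ) by ring, Real.rpow_mul hl0.le]
        exact mul_le_mul_of_nonneg_left (Real.rpow_le_rpow_of_nonpos (by positivity)
          (not_le.1 hy).le (by linarith)) m5.le
      have m8 : |Sm (tw a χ) (x / m)| ≤ Sm a (x / m) :=
        (Finset.abs_sum_le_sum_abs _ _).trans (Finset.sum_le_sum fun n _ => u_tw ha hχ n)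
      refine (m8.trans ((le_abs_self _).trans (f_le hκ hθ hC h0 _ m7))).trans ?_
      calc (κ + C) * (x / m) = (m : ℝ)⁻¹ * ((κ + C) * x) := by ring
        _ ≤ (m : ℝ) ^ (-σ) * l ^ (-(η * (1 - σ))) * ((κ + C) * x) := by gcongr
        _ = (m : ℝ) ^ (-σ) * ((κ + C) * l ^ (-(η * (1 - σ))) * x) := by ring
        _ ≤ _ := by gcongr; linarith
  have k3 := Finset.sum_le_sum k2
  rw [← Finset.sum_mul, ← k1, ← he] at k3
  have k4 := mul_le_mul_of_nonneg_right hB (by positivity : 0 ≤ E * x)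
  have k5 := (abs_le.1 (h0 x hx1)).1
  have k6 : x ^ (1 - θ) = l ^ (-((η + τ) * θ)) * x := by
    rw [hx, ← Real.rpow_mul hl0.le, ← Real.rpow_add hl0]
    congr 1
    ring
  rw [k6] at k5
  refine le_of_mul_le_mul_right ?_ hx0
  linarith

variable (K : Type) [Field K] [NumberField K]

theorem f_can {τ : ℝ} (hd : (Module.finrank ℚ K : ℝ) / 4 < τ) : ∃ (δ C : ℝ) (l0 : ℕ), 0 < δ ∧ 0 ≤ C ∧
    ∀ l : ℕ, l.Prime → l0 < l → ∀ x : ℝ, (l : ℝ) ^ τ ≤ x →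
      |Sm (tw (cnt K) fun n => chi l n) x| ≤ C * x * (l : ℝ) ^ (-δ) := by
  obtain ⟨δ, C, l2, hδ, h2⟩ := canC K 2 le_rfl (τ - Module.finrank ℚ K / 4) (by linarith)
  refine ⟨δ, |C|, l2 + 2, hδ, abs_nonneg _, fun l hl hlt x hx => ?_⟩
  have hl1 : (1 : ℝ) ≤ l := by exact_mod_cast hl.one_lt.le
  have hdv : 2 ∣ l - 1 := ((hl.odd_of_ne_two (by omega)).tsub_odd odd_one).two_dvd
  obtain ⟨χ, hχ⟩ := exists_chr (k := 0) hl (by omega) hdv
  have h := (h2 l hl (by omega) hdv _ (hχ.ne (0 + 1) (by omega) (by omega))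
    (by rw [← pow_mul, mul_comm, pow_mul, hχ.pw, one_pow]) 1 (by simp)).s2 x
    (by rwa [add_sub_cancel])
  simp only [rc, hχ.half, one_mul, Complex.ofReal_re] at h
  have : 0 ≤ x := le_trans (by positivity) hx
  refine h.trans ?_
  gcongr
  exact le_abs_self C

theorem an_res {τ η : ℝ} (hd : (Module.finrank ℚ K : ℝ) / 4 < τ) (hη : 0 < η) (hη' : η ≤ 1 / 2)
    (p0 : ℕ) (σ C : ℝ) (s1 : 99 / 100 ≤ σ) (s2 : σ < 1) :
    ∃ l0 : ℕ, ∀ l : ℕ, l.Prime → l0 < l → ¬ Few K l p0 (η + τ) 1 σ C := by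
  by_contra hcon
  push Not at hcon
  obtain ⟨κ, C0, hκ, h0⟩ := sharp0 K
  obtain ⟨C1, l1, h1⟩ := sharp1 K
  obtain ⟨δ, C2, l2, hδ, a2, h2⟩ := f_can K hd
  obtain ⟨C3, h3⟩ := f_rankin K p0 (η + τ) C
  have hd1 : (1 : ℝ) ≤ Module.finrank ℚ K := by exact_mod_cast Module.finrank_pos
  have hτ : 0 < τ := by linarith
  set θ : ℝ := 1 / (2 * (Module.finrank ℚ K : ℝ)) with hθdef
  have hθ : 0 < θ := by positivity
  have hθ' : θ ≤ 1 / 2 := one_div_le_one_div_of_le (by norm_num) (by linarith)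
  set D : ℝ := |C0| + |C1| + C2 + |C3| with hD
  have a0 := abs_nonneg C0
  have a1 := abs_nonneg C1
  have a3 := abs_nonneg C3
  have b0 : C0 ≤ D := by linarith [le_abs_self C0]
  have b1 : C1 ≤ D := by linarith [le_abs_self C1]
  have b2 : C2 ≤ D := by linarith
  have b3 : C3 ≤ D := by linarith [le_abs_self C3]
  obtain ⟨C', δ', hδ', hup⟩ := lv_upper2 κ θ D δ σ τ η hκ hθ hδ s2 hτ hη hη'
  set bad : Set ℕ := {l | l.Prime ∧ l1 + l2 < l ∧ Few K l p0 (η + τ) 1 σ C} with hbad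
  have hinf : bad.Infinite := by
    refine Set.infinite_of_forall_exists_gt fun n => ?_
    obtain ⟨l, hl, hlt, hb⟩ := hcon (n + l1 + l2)
    exact ⟨l, ⟨hl, by omega, hb⟩, by omega⟩
  have S0 : ∀ E : ℝ, D ≤ E → ∀ x : ℝ, 1 ≤ x → |Sm (cnt K) x - κ * x| ≤ E * x ^ (1 - θ) := by
    intro E hE x hx
    refine (h0 x hx).trans ?_
    gcongr
    linarith
  have S1 : ∀ E : ℝ, D ≤ E → ∀ M, Adm l1 M → ∀ x : ℝ, 1 ≤ x →
      |Sm (tw (cnt K) fun n => chi M n) x| ≤ E * M * x ^ (1 - θ) := by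
    intro E hE M hM x hx
    refine (h1 M hM x hx).trans ?_
    gcongr
    linarith
  have hCD : D ≤ D + |C'| := by linarith [abs_nonneg C']
  refine siegel (cnt K) κ θ (D + |C'|) δ' hκ hθ hθ' hδ' (fun l n => chi l n) bad hinf
    (cnt_nonneg K) (cnt_one K) (fun l n => abs_chi_le _ _) (fun l => by simpa using chi_one l)
    (S0 _ hCD) ?_ ?_ (fun l _ n => pos2 K l n) (fun l _ l' _ n => pos4 K l l' n) ?_
  · intro l hl x hx
    exact S1 _ hCD l (Or.inl ⟨hl.1, by have := hl.2.1; omega⟩) x hx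
  · intro l hl l' hl' hne x hx
    have := S1 _ hCD (l * l') (Or.inr ⟨l, l', hl.1, hl'.1, hne, by have := hl.2.1; omega,
      by have := hl'.2.1; omega, rfl⟩) x hx
    simpa only [chi_mul_right l l' hl.1.ne_zero hl'.1.ne_zero, Nat.cast_mul] using this
  · rintro l ⟨hl, hl0, hB⟩
    have hl1 : (1 : ℝ) ≤ l := by exact_mod_cast hl.one_lt.le
    refine (hup (cnt K) _ l hl1 (cnt_nonneg K) (fun n => abs_chi_le _ _) (S0 _ le_rfl)
      (S1 _ le_rfl l (Or.inl ⟨hl, by omega⟩)) (fun x hx => (h2 l hl (by omega) x hx).trans ?_)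
      ((h3 l hl σ s1 hB).trans ?_)).trans ?_
    · have : 0 ≤ x := le_trans (by positivity) hx
      gcongr
    · gcongr
    · gcongr
      linarith [le_abs_self C']

theorem an_non {τ η : ℝ} (hd : (Module.finrank ℚ K : ℝ) / 4 < τ) (hη : 0 < η)
    (p0 : ℕ) (σ C : ℝ) (s1 : 99 / 100 ≤ σ) (s2 : σ < 1) :
    ∃ l0 : ℕ, ∀ l : ℕ, l.Prime → l0 < l → ¬ Few K l p0 (η + τ) (-1) σ C := by
  obtain ⟨κ, C0, hκ, h0⟩ := sharp0 K
  obtain ⟨δ, C2, l2, hδ, a2, h2⟩ := f_can K hd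
  obtain ⟨B, h3⟩ := f_conv K p0 (η + τ) C
  have hd1 : (1 : ℝ) ≤ Module.finrank ℚ K := by exact_mod_cast Module.finrank_pos
  have hτ : 0 < τ := by linarith
  set θ : ℝ := 1 / (2 * (Module.finrank ℚ K : ℝ)) with hθdef
  have hθ : 0 < θ := by positivity
  set D : ℝ := |C0| + C2 with hD
  have a0 := abs_nonneg C0
  have t : ∀ e : ℝ, 0 < e → Tendsto (fun l : ℕ => (l : ℝ) ^ (-e)) atTop (𝓝 0) := fun e he =>
    (tendsto_rpow_neg_atTop he).comp tendsto_natCast_atTop_atTop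
  have t1 := ((t ((η + τ) * θ) (by positivity)).const_mul D).add ((((t δ hδ).const_mul D).add
    ((t (η * (1 - σ)) (mul_pos hη (by linarith))).const_mul (κ + D))).const_mul B)
  simp only [mul_zero, add_zero] at t1
  obtain ⟨l3, h4⟩ := eventually_atTop.1 (t1.eventually_lt_const hκ)
  refine ⟨l2 + l3, fun l hl hlt hF => ?_⟩
  have hl1 : (1 : ℝ) ≤ l := by exact_mod_cast hl.one_lt.le
  obtain ⟨h, k1, k2, k3⟩ := h3 l hl σ s1 hF
  refine (h4 l (by omega)).not_ge (nr_upper hκ hτ hη hθ (by positivity) s2 hl1 (cnt_nonneg K)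
    (fun n => abs_chi_le _ _) (fun x hx => (h0 x hx).trans ?_)
    (fun x hx => (h2 l hl (by omega) x hx).trans ?_) k1 k2 k3)
  · gcongr
    linarith [le_abs_self C0]
  · have : 0 ≤ x := le_trans (by positivity) hx
    gcongr
    linarith

theorem an_both {τ η : ℝ} (hd : (Module.finrank ℚ K : ℝ) / 4 < τ) (hη : 0 < η) (hη' : η ≤ 1 / 2)
    (p0 : ℕ) (σ C : ℝ) (s1 : 99 / 100 ≤ σ) (s2 : σ < 1) : ∃ l0 : ℕ, ∀ l : ℕ, l.Prime → l0 < l →
      ∀ ε : ℝ, ε = 1 ∨ ε = -1 → ¬ Few K l p0 (η + τ) ε σ C := by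
  obtain ⟨l1, h1⟩ := an_res K hd hη hη' p0 σ C s1 s2
  obtain ⟨l2, h2⟩ := an_non K hd hη p0 σ C s1 s2
  refine ⟨l1 + l2, fun l hl hlt ε hε => ?_⟩
  rcases hε with rfl | rfl
  exacts [h1 l hl (by omega), h2 l hl (by omega)]

theorem deg1_ex (p0 : ℕ) : ∃ p : ℕ, p.Prime ∧ p0 < p ∧ p ≠ 2 ∧ Deg1 K p := by
  by_contra H
  obtain ⟨l0, h⟩ := an_non K (lt_add_one _) one_pos p0 (99 / 100) 0 le_rfl (by norm_num)
  obtain ⟨l, h1, h2⟩ := Nat.exists_infinite_primes (l0 + 1)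
  refine h l h2 h1 fun N _ => (Finset.sum_eq_zero fun n _ => if_neg ?_).le
  rintro ⟨a, b, c, d, -⟩
  exact H ⟨n, a, b, fun e => c (e ▸ dvd_mul_right _ _), d⟩

end Pool.Agent.RT
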