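import Mathlib

/-! An element that is moved by a unitary reflection is a combination of unitary elements. -/

set_option autoImplicit false

namespace Pool.Agent.RT

open Matrix

theorem cay {n B : Type} [Fintype n] [DecidableEq n] [Ring B] [Algebra ℚ B]
    (f : Matrix n n ℚ →ₐ[ℚ] B) (T : B) (st : Matrix n n ℚ →ₗ[ℚ] Matrix n n ℚ) (s1 : st 1 = 1)
    (s2 : ∀ a b, st (a * b) = st b * st a) (s3 : ∀ a, st (st a) = a) {X D : Matrix n n ℚ}
    (hX : Commute (f X) T) (hX' : Commute (f (st X)) T) (hD : Commute (f D) T)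
    (d1 : st D * D = 1) (d2 : D * X = -X) (d3 : X * D = X) :
    X ∈ Submodule.span ℚ {u | st u * u = 1 ∧ Commute (f u) T} := by
  set S := Submodule.span ℚ {u | st u * u = 1 ∧ Commute (f u) T}
  have hm : ∀ u, st u * u = 1 → Commute (f u) T → ∀ x ∈ S, u * x ∈ S := fun u h1 h2 x hx => by
    induction hx using Submodule.span_induction with
    | mem v hv =>
      refine Submodule.subset_span ⟨?_, by rw [map_mul]; exact h2.mul_left hv.2⟩
      rw [s2, mul_assoc, ← mul_assoc (st u), h1, one_mul, hv.1]
    | zero => rw [mul_zero]; exact zero_mem _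
    | add a b _ _ ha hb => rw [mul_add]; exact add_mem ha hb
    | smul c a _ ha => rw [mul_smul_comm]; exact S.smul_mem _ ha
  have h1 : (1 : Matrix n n ℚ) ∈ S :=
    Submodule.subset_span ⟨by rw [s1, one_mul], by rw [map_one]; exact Commute.one_left _⟩
  set s := X - st X with hs
  have s4 : st s = -s := by rw [hs, map_sub, s3, neg_sub]
  have s5 : Commute (f s) T := by rw [hs, map_sub]; exact hX.sub_left hX'
  obtain ⟨c, hc⟩ := ((Matrix.finite_spectrum (-s)).union (Set.finite_singleton 0)).exists_notMem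
  rw [Set.mem_union, not_or, spectrum.notMem_iff, Set.mem_singleton_iff, sub_neg_eq_add,
    Algebra.algebraMap_eq_smul_one] at hc
  obtain ⟨⟨a, ha⟩, c0⟩ := hc
  have a1 : st a = c • 1 - s := by rw [ha, map_add, map_smul, s1, s4, sub_eq_add_neg]
  have a2 : Commute (st a) a.1 := by
    rw [a1, ha]
    exact ((Commute.one_left _).smul_left c).sub_left
      (((Commute.one_right _).smul_right c).add_right (Commute.refl _))
  have a3 : Commute (f a) T := by
    rw [ha, map_add, map_smul, map_one]
    exact ((Commute.one_left _).smul_left c).add_left s5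
  have a4 : Commute (f (st a)) T := by
    rw [a1, map_sub, map_smul, map_one]
    exact ((Commute.one_left _).smul_left c).sub_left s5
  have a5 : Commute (f a⁻¹.1) T := 
    Commute.units_inv_left (u := Units.map f.toRingHom.toMonoidHom a) a3
  set u := st a * a⁻¹.1 with hu
  have u1 : st u * u = 1 := by
    rw [hu, s2, s3, mul_assoc, ← mul_assoc a.1, ← a2.eq, mul_assoc, Units.mul_inv, mul_one, ← s2,
      Units.mul_inv, s1]
  have u2 : Commute (f u) T := by rw [hu, map_mul]; exact a4.mul_left a5
  have u3 : 1 + u = (2 * c) • a⁻¹.1 := by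
    rw [hu, ← a.mul_inv, ← add_mul, a1, ha, add_add_sub_cancel, ← add_smul, smul_mul_assoc,
      one_mul, two_mul]
  have u4 : ∀ x y, (1 + u) * x = (1 + u) * y → x = y := fun x y h => by
    rw [u3, smul_mul_assoc, smul_mul_assoc] at h
    exact a⁻¹.mul_right_inj.1 (smul_right_injective _ (mul_ne_zero two_ne_zero c0) h)
  have u5 : ∀ x ∈ S, LinearMap.mulLeft ℚ (1 + u) x ∈ S := fun x hx => by
    rw [LinearMap.mulLeft_apply, add_mul, one_mul]
    exact add_mem hx (hm u u1 u2 x hx)
  obtain ⟨x, hx⟩ := LinearMap.injective_iff_surjective.1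
    (show Function.Injective ((LinearMap.mulLeft ℚ (1 + u)).restrict u5) from fun x y h =>
      Subtype.ext (u4 _ _ (congrArg Subtype.val h))) ⟨_, S.smul_mem (2 * c) h1⟩
  have u6 : x.1 = a := u4 _ _ ((congrArg Subtype.val hx).trans (by
    rw [u3, smul_mul_assoc, Units.inv_mul]))
  have u7 : s ∈ S := by
    have := sub_mem x.2 (S.smul_mem c h1)
    rwa [u6, ha, add_sub_cancel_left] at this
  have d4 : D * st X = st X := by
    have d5 := congrArg st d3
    rw [s2] at d5
    conv_lhs => rw [← d5, ← mul_assoc, mul_eq_one_comm.1 d1, one_mul]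
  have := S.smul_mem (1 / 2) (sub_mem u7 (hm D d1 hD s u7))
  rwa [hs, mul_sub, d2, d4, sub_sub_sub_cancel_right, sub_neg_eq_add, ← two_smul ℚ X, smul_smul,
    one_div_mul_cancel two_ne_zero, one_smul] at this

end Pool.Agent.RT
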