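import Pool.Agent.Lib.MP_e97e2b_nt.Abel

/-! Counting vectors whose Gram matrix has rank one modulo a prime. -/

set_option autoImplicit false

namespace Pool.Agent.RT

open Finset Pool.Agent.Lib.MP_e97e2b_nt

theorem cnt_fib {α : Type} {l Y : ℕ} (S : Finset ℕ) (hS : ∀ p ∈ S, p ≤ Y) (A : Finset α)
    (f : ℕ → α) (hf : ∀ p ∈ S, f p ∈ A)
    (h : ∀ p ∈ S, ∀ q ∈ S, f p = f q → (p : ZMod l) = q) : S.card ≤ A.card * (Y / l + 1) := by
  rw [← card_range (Y / l + 1), ← card_product]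
  refine card_le_card_of_injOn (fun p => (f p, p / l)) (fun p hp => ?_) fun p hp q hq e => ?_
  · exact mem_coe.2 (mem_product.2 ⟨hf p hp,
      mem_range.2 (Nat.lt_succ_of_le (Nat.div_le_div_right (hS p hp)))⟩)
  · obtain ⟨e1, e2⟩ := Prod.ext_iff.1 e
    have h3 : p % l = q % l := (ZMod.natCast_eq_natCast_iff' p q l).1 (h p hp q hq e1)
    rw [← Nat.div_add_mod p l, ← Nat.div_add_mod q l, h3, show p / l = q / l from e2]

theorem cnt_core {g l Y : ℕ} [Fact l.Prime] (S : Finset ℕ) (hS : ∀ p ∈ S, p ≤ Y)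
    (β : ℕ → Fin g → ℝ) (t : ℕ → ℕ → ℤ) (c : ℕ → ZMod l) (T : ZMod l) {R μ : ℝ} (hR : 0 ≤ R)
    (hμ : 0 < μ) (hl : 2 * g * μ ^ 2 < l) (hβ : ∀ p ∈ S, ∀ j, |β p j| ≤ R)
    (ht : ∀ p ∈ S, ∀ q ∈ S, (t p q : ℝ) = 2 * ∑ j, β p j * β q j)
    (hc : ∀ p ∈ S, ∀ q ∈ S, (t p q : ZMod l) = c p * c q * T)
    (h1 : ∀ p ∈ S, ∀ q ∈ S, c p = c q → (p : ZMod l) = q)
    (h2 : ∀ p ∈ S, ∀ q ∈ S, β p = β q → (p : ZMod l) = q) :
    (S.card : ℝ) ≤ (4 * g * R * μ + 1 + (2 * (R / μ) + 2) ^ g) * ((Y / l + 1 : ℕ) : ℝ) := by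
  by_cases H : ∃ a ∈ S, ∃ b ∈ S, β a ≠ β b ∧ ∀ j, |β a j - β b j| ≤ μ
  · obtain ⟨a, ha, b, hb, hab, hd⟩ := H
    have e1 : ((t a a - t a b - (t a b - t b b) : ℤ) : ℝ) = 2 * ∑ j, (β a j - β b j) ^ 2 := by
      push_cast
      simp only [ht a ha a ha, ht a ha b hb, ht b hb b hb, mul_sum, ← sum_sub_distrib]
      exact sum_congr rfl fun j _ => by ring
    have e2 : 0 < ∑ j, (β a j - β b j) ^ 2 := by
      obtain ⟨j, hj⟩ := Function.ne_iff.1 hab
      exact sum_pos' (fun _ _ => sq_nonneg _) ⟨j, mem_univ _, by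
        have := sub_ne_zero.2 hj
        positivity⟩
    have e3 : ∑ j, (β a j - β b j) ^ 2 ≤ g * μ ^ 2 := by
      refine (sum_le_card_nsmul _ _ (μ ^ 2) fun j _ => sq_le_sq' ?_ ?_).trans (by simp)
      exacts [(abs_le.1 (hd j)).1, (abs_le.1 (hd j)).2]
    have e4 : (c a - c b) * T ≠ 0 := fun e => by
      have k1 : ((t a a - t a b - (t a b - t b b) : ℤ) : ZMod l) = 0 := by
        push_cast
        rw [hc a ha a ha, hc a ha b hb, hc b hb b hb]
        linear_combination (c a - c b) * e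
      have k0 : (0 : ℝ) < ((t a a - t a b - (t a b - t b b) : ℤ) : ℝ) := by linarith
      have k2 := Int.le_of_dvd (by exact_mod_cast k0)
        ((ZMod.intCast_zmod_eq_zero_iff_dvd _ _).1 k1)
      have k3 : (l : ℝ) ≤ ((t a a - t a b - (t a b - t b b) : ℤ) : ℝ) := by exact_mod_cast k2
      linarith
    set W := ⌊2 * g * R * μ⌋₊
    have k := cnt_fib (l := l) S hS (Icc (-(W : ℤ)) W) (fun p => t p a - t p b) (fun p hp => ?_)
      fun p hp q hq e => h1 p hp q hq (mul_right_cancel₀ e4 ?_)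
    · have k1 : (W : ℝ) ≤ 2 * g * R * μ := Nat.floor_le (by positivity)
      rw [Int.card_Icc, show ((W : ℤ) + 1 - -(W : ℤ)).toNat = 2 * W + 1 by omega] at k
      refine (Nat.cast_le.2 k).trans ?_
      rw [Nat.cast_mul]
      refine mul_le_mul_of_nonneg_right ?_ (Nat.cast_nonneg _)
      have : 0 ≤ (2 * (R / μ) + 2) ^ g := by positivity
      push_cast
      linarith
    · have k1 : |((t p a - t p b : ℤ) : ℝ)| ≤ 2 * g * R * μ := by
        push_cast
        rw [ht p hp a ha, ht p hp b hb, ← mul_sub, ← sum_sub_distrib, abs_mul, abs_two]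
        have k2 : |∑ j, (β p j * β a j - β p j * β b j)| ≤ g * (R * μ) := by
          refine (abs_sum_le_sum_abs _ _).trans
            ((sum_le_card_nsmul _ _ (R * μ) fun j _ => ?_).trans (by simp))
          rw [← mul_sub, abs_mul]
          exact mul_le_mul (hβ p hp j) (hd j) (abs_nonneg _) hR
        linarith
      rw [mem_Icc, ← abs_le, ← Int.natCast_natAbs, Nat.cast_le]
      refine Nat.le_floor ?_
      rwa [Nat.cast_natAbs, Int.cast_abs]
    · have k1 := congrArg (Int.cast : ℤ → ZMod l) e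
      push_cast at k1
      rw [hc p hp a ha, hc p hp b hb, hc q hq a ha, hc q hq b hb] at k1
      linear_combination k1
  · set M := ⌊R / μ⌋₊
    have k := cnt_fib (l := l) S hS (Fintype.piFinset fun _ : Fin g => Icc (-(M : ℤ) - 1) M)
      (fun p j => ⌊β p j / μ⌋) (fun p hp => Fintype.mem_piFinset.2 fun j => ?_)
      fun p hp q hq e => h2 p hp q hq (by_contra fun hn => H ⟨p, hp, q, hq, hn, fun j => ?_⟩)
    · have k1 : (M : ℝ) ≤ R / μ := Nat.floor_le (by positivity)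
      rw [Fintype.card_piFinset, prod_const, card_univ, Fintype.card_fin, Int.card_Icc,
        show ((M : ℤ) + 1 - (-(M : ℤ) - 1)).toNat = 2 * M + 2 by omega] at k
      refine (Nat.cast_le.2 k).trans ?_
      rw [Nat.cast_mul]
      refine mul_le_mul_of_nonneg_right ?_ (Nat.cast_nonneg _)
      have k2 : (2 * (M : ℝ) + 2) ^ g ≤ (2 * (R / μ) + 2) ^ g := by gcongr
      have : 0 ≤ 4 * g * R * μ := by positivity
      push_cast
      linarith
    · have k1 : R / μ < M + 1 := Nat.lt_floor_add_one _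
      obtain ⟨k2, k3⟩ := abs_le.1 (hβ p hp j)
      have k4 : β p j / μ ≤ R / μ := by gcongr
      have k5 : -R / μ ≤ β p j / μ := by gcongr
      rw [neg_div] at k5
      rw [mem_Icc, Int.le_floor, ← Int.lt_add_one_iff, Int.floor_lt]
      push_cast
      constructor <;> linarith
    · have k1 := Int.abs_sub_lt_one_of_floor_eq_floor (congrFun e j)
      rw [← sub_div, abs_div, abs_of_pos hμ, div_lt_one hμ] at k1
      exact k1.le

theorem cnt_real {g l : ℕ} (hg : 1 ≤ g) (hl : 1 < l) {T Y : ℝ} (h1 : 1 ≤ T) (h2 : T * g < g + 1)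
    (hY : 1 ≤ Y) (hYl : Y ≤ (l : ℝ) ^ T) : ∃ μ : ℝ, 0 < μ ∧ 2 * g * μ ^ 2 < l ∧
      (4 * g * (2 * √Y) * μ + 1 + (2 * (2 * √Y / μ) + 2) ^ g) * (Y / l + 1) ≤
        2 * (5 + (8 * g + 2) ^ g) * Y ^ (g / (g + 1) + (1 - 1 / T) : ℝ) := by
  have g1 : (1 : ℝ) ≤ g := by exact_mod_cast hg
  have l1 : (1 : ℝ) < l := by exact_mod_cast hl
  have Y0 : 0 < Y := by linarith
  have T0 : 0 < T := by linarith
  set e : ℝ := 1 / (g + 1) with he
  have e0 : 0 < e := by positivity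
  have e1 : e ≤ 1 / 2 := one_div_le_one_div_of_le (by norm_num) (by linarith)
  have e2 : (g : ℝ) / (g + 1) = 1 - e := by rw [he]; field_simp; ring
  have e3 : e * g = 1 - e := by rw [he]; field_simp; ring
  have e4 : T * (1 - e) < 1 := by
    rw [← e2, ← mul_div_assoc, div_lt_one (by positivity)]
    exact h2
  have k0 : √Y = Y ^ (1 / 2 - e) * Y ^ e := by
    rw [← Real.rpow_add Y0, Real.sqrt_eq_rpow, sub_add_cancel]
  have k1 : Y ^ (1 - e) = Y ^ (1 / 2 - e) * Y ^ e * Y ^ (1 / 2 - e) := by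
    rw [← Real.rpow_add Y0, ← Real.rpow_add Y0]
    congr 1
    ring
  have k2 : (Y ^ e) ^ g = Y ^ (1 - e) := by rw [← Real.rpow_natCast, ← Real.rpow_mul Y0.le, e3]
  have k3 : 1 ≤ Y ^ e := Real.one_le_rpow hY e0.le
  have k4 : 1 ≤ Y ^ (1 - e) := Real.one_le_rpow hY (by linarith)
  have k5 : 0 < Y ^ (1 / 2 - e) := by positivity
  have k6 : (Y ^ (1 / 2 - e)) ^ 2 < l := by
    rw [← Real.rpow_natCast, ← Real.rpow_mul Y0.le]
    refine (Real.rpow_le_rpow Y0.le hYl (by push_cast; linarith)).trans_lt ?_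
    rw [← Real.rpow_mul (by positivity)]
    refine (Real.rpow_lt_rpow_of_exponent_lt l1 (z := 1) ?_).trans_eq (Real.rpow_one _)
    push_cast
    nlinarith
  have k7 : Y / l + 1 ≤ 2 * Y ^ (1 - 1 / T) := by
    have a1 : Y ^ (1 / T) ≤ l := by
      refine (Real.rpow_le_rpow Y0.le hYl (by positivity)).trans_eq ?_
      rw [← Real.rpow_mul (by positivity), mul_one_div_cancel T0.ne', Real.rpow_one]
    have a2 : 1 ≤ Y ^ (1 - 1 / T) :=
      Real.one_le_rpow hY (sub_nonneg.2 ((div_le_one T0).2 h1))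
    have a3 : Y / l ≤ Y ^ (1 - 1 / T) := by
      rw [Real.rpow_sub Y0, Real.rpow_one]
      gcongr
    linarith
  refine ⟨Y ^ (1 / 2 - e) / (2 * g), by positivity, ?_, ?_⟩
  · refine lt_of_le_of_lt ?_ k6
    rw [div_pow, mul_div_assoc', div_le_iff₀ (by positivity)]
    have := sq_nonneg (Y ^ (1 / 2 - e))
    nlinarith [mul_nonneg this (show 0 ≤ (2 * (g : ℝ)) ^ 2 - 2 * g by nlinarith)]
  · rw [e2, Real.rpow_add Y0]
    refine (mul_le_mul (b := (5 + (8 * g + 2) ^ g) * Y ^ (1 - e)) ?_ k7 (by positivity)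
      (by positivity)).trans_eq (by ring)
    have a1 : 4 * g * (2 * √Y) * (Y ^ (1 / 2 - e) / (2 * g)) = 4 * Y ^ (1 - e) := by
      rw [k0, k1]
      field_simp
    have a2 : 2 * (2 * √Y / (Y ^ (1 / 2 - e) / (2 * g))) = 8 * g * Y ^ e := by
      rw [k0]
      field_simp
      ring
    have a3 : (8 * g * Y ^ e + 2) ^ g ≤ (8 * g + 2) ^ g * Y ^ (1 - e) := by
      rw [← k2, ← mul_pow]
      gcongr
      linarith
    rw [a1, a2]
    linarith

/-- The traces of pairs of Frobenius elements. -/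
def Dat (g l m : ℕ) (P : ℕ → Prop) : Prop :=
  ∃ (β : ℕ → Fin g → ℝ) (t : ℕ → ℕ → ℤ) (c : ℕ → ZMod l) (k : ℕ → Fin m) (T : Fin m → ZMod l),
    (∀ p, P p → ∀ j, β p j ^ 2 ≤ 4 * p) ∧ ∀ p q, P p → P q →
      (t p q : ℝ) = 2 * ∑ j, β p j * β q j ∧ (k p = k q →
        (t p q : ZMod l) = c p * c q * T (k p) ∧ (c p = c q → (p : ZMod l) = q) ∧
          (β p = β q → (p : ZMod l) = q))

open Classical in
theorem cnt_all {g l m : ℕ} (hg : 1 ≤ g) (hl : l.Prime) {T : ℝ} (h1 : 1 ≤ T) (h2 : T * g < g + 1)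
    {P : ℕ → Prop} (h : Dat g l m P) {Y : ℕ} (hY : 1 ≤ Y) (hYl : (Y : ℝ) ≤ (l : ℝ) ^ T) :
    (((Ioc 0 Y).filter P).card : ℝ) ≤
      m * (2 * (5 + (8 * g + 2) ^ g)) * (Y : ℝ) ^ (g / (g + 1) + (1 - 1 / T) : ℝ) := by
  have := Fact.mk hl
  obtain ⟨β, t, c, k, U, a1, a2⟩ := h
  obtain ⟨μ, m1, m2, m3⟩ := cnt_real hg hl.one_lt h1 h2 (by exact_mod_cast hY) hYl
  rw [card_eq_sum_card_fiberwise (f := k) (t := univ) fun _ _ => mem_univ _, Nat.cast_sum,
    mul_assoc]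
  refine (sum_le_card_nsmul _ _ _ fun i _ => le_trans ?_ m3).trans (by simp)
  have b : ∀ p ∈ ((Ioc 0 Y).filter P).filter fun p => k p = i, p ≤ Y ∧ P p ∧ k p = i := by
    simp only [mem_filter, mem_Ioc]
    tauto
  have b' : ∀ p ∈ ((Ioc 0 Y).filter P).filter fun p => k p = i,
      ∀ q ∈ ((Ioc 0 Y).filter P).filter fun p => k p = i, _ := fun p hp q hq =>
    (a2 p q (b p hp).2.1 (b q hq).2.1).2 ((b p hp).2.2.trans (b q hq).2.2.symm)
  refine (cnt_core _ (fun p hp => (b p hp).1) β t c (U i) (R := 2 * √Y) (by positivity) m1 m2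
    (fun p hp j => ?_) (fun p hp q hq => (a2 p q (b p hp).2.1 (b q hq).2.1).1)
    (fun p hp q hq => (b p hp).2.2 ▸ (b' p hp q hq).1) (fun p hp q hq => (b' p hp q hq).2.1)
    fun p hp q hq => (b' p hp q hq).2.2).trans ?_
  · refine abs_le_of_sq_le_sq' ?_ (by positivity) |> abs_le.2
    have : (p : ℝ) ≤ Y := by exact_mod_cast (b p hp).1
    rw [mul_pow, Real.sq_sqrt (Nat.cast_nonneg _)]
    linarith [a1 p (b p hp).2.1 j]
  · gcongr
    push_cast
    gcongr
    exact Nat.cast_div_le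

open Classical in
theorem cnt_sum {g : ℕ} (m : ℕ) (hg : 1 ≤ g) {T : ℝ} (h1 : 1 ≤ T) (h2 : T * g < g + 1) :
    ∃ σ C : ℝ, 99 / 100 ≤ σ ∧ σ < 1 ∧ ∀ l : ℕ, l.Prime → ∀ P : ℕ → Prop, Dat g l m P →
      ∀ N : ℕ, (N : ℝ) ≤ (l : ℝ) ^ T →
        ∑ n ∈ Ioc 0 N, (if P n then (n : ℝ) ^ (-σ) else 0) ≤ C := by
  set γ : ℝ := g / (g + 1) + (1 - 1 / T) with hγ
  have T0 : 0 < T := by linarith
  have γ0 : 0 ≤ γ := add_nonneg (by positivity) (sub_nonneg.2 ((div_le_one T0).2 h1))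
  have γ1 : γ < 1 := by
    have : (g : ℝ) / (g + 1) < 1 / T := by
      rw [div_lt_div_iff₀ (by positivity) T0]
      linarith
    linarith
  set M : ℝ := m * (2 * (5 + (8 * g + 2) ^ g)) with hM
  have hM0 : 0 ≤ M := by positivity
  set σ := max (99 / 100) ((1 + γ) / 2)
  have s1 : 99 / 100 ≤ σ := le_max_left _ _
  have s2 : (1 + γ) / 2 ≤ σ := le_max_right _ _
  have η0 : 0 < (1 - γ) / 2 := by linarith
  refine ⟨σ, (2 + σ / ((1 - γ) / 2)) * M + 1, s1, max_lt (by norm_num) (by linarith),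
    fun l hl P hP N hN => ?_⟩
  rcases Nat.eq_zero_or_pos N with rfl | hN0
  · simp only [Ioc_self, sum_empty]
    positivity
  set f : ℕ → ℝ := fun n => if P n ∧ n ≤ N then 1 else 0 with hf
  have hb : ∀ y : ℝ, 1 ≤ y → |Sm f y| ≤ M * y ^ γ := by
    intro y hy
    have e : Sm f y = (((Ioc 0 (min ⌊y⌋₊ N)).filter P).card : ℝ) := by
      unfold Sm
      rw [hf, sum_boole]
      congr 2
      ext n
      simp only [mem_filter, mem_Ioc, le_min_iff]
      tauto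
    rw [e, abs_of_nonneg (Nat.cast_nonneg _)]
    refine (cnt_all hg hl h1 h2 hP (le_min (Nat.le_floor (by simpa using hy)) hN0)
      (le_trans (by exact_mod_cast min_le_right _ _) hN)).trans ?_
    gcongr
    exact le_trans (by exact_mod_cast min_le_left _ _) (Nat.floor_le (by linarith))
  have h := ab_diff f M ((1 - γ) / 2) σ η0 (by linarith) hM0 γ (by linarith) 1 N one_pos
    (by exact_mod_cast hN0) hb
  rw [ab_Sm_nat, ab_Sm_one, Real.one_rpow, mul_one] at h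
  have h3 : f 1 * ((1 : ℕ) : ℝ) ^ (-σ) ≤ 1 := by
    rw [Nat.cast_one, Real.one_rpow, mul_one, hf]
    dsimp only
    split_ifs <;> norm_num
  have e : ∑ n ∈ Ioc 0 N, (if P n then (n : ℝ) ^ (-σ) else 0) =
      ∑ n ∈ Ioc 0 N, f n * (n : ℝ) ^ (-σ) := by
    refine sum_congr rfl fun n hn => ?_
    have hn2 := (mem_Ioc.1 hn).2
    rw [hf]
    by_cases hp : P n
    · simp only [hp, hn2, and_self, if_true, one_mul]
    · simp only [hp, false_and, if_false, zero_mul]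
  exact e.trans_le ((sub_le_iff_le_add.1 (abs_le.1 h).2).trans (add_le_add_right h3 _))

end Pool.Agent.RT
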