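import Mathlib

/-! Matrices that commute with a matrix whose eigenvalues are real and double. -/

set_option autoImplicit false

namespace Pool.Agent.RT

open Matrix Polynomial Module

variable {m : Type} [Fintype m] [DecidableEq m] {g : ℕ} {φ : Matrix m m ℤ} {t : Fin g → ℝ}
  {Φ : (Fin g → Matrix (Fin 2) (Fin 2) ℂ) →ₐ[ℂ] Matrix m m ℂ}

/-- The centraliser of `φ` is a product of matrix algebras of size two. -/
structure Dec (φ : Matrix m m ℤ) (t : Fin g → ℝ)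
    (Φ : (Fin g → Matrix (Fin 2) (Fin 2) ℂ) →ₐ[ℂ] Matrix m m ℂ) : Prop where
  inj : Function.Injective Φ
  tinj : Function.Injective t
  phi : Φ (fun j => (t j : ℂ) • 1) = φ.map Int.cast
  tr : ∀ M, trace (Φ M) = ∑ j, trace (M j)
  sur : ∀ A, Commute A (φ.map Int.cast) → ∃ M, Φ M = A

theorem dec_of (ht : Function.Injective t) (P : Matrix m (Fin 2 × Fin g) ℂ)
    (P' : Matrix (Fin 2 × Fin g) m ℂ) (h1 : P * P' = 1) (h2 : P' * P = 1)
    (h3 : φ.map (Int.cast : ℤ → ℂ) * P = P * diagonal fun i : Fin 2 × Fin g => (t i.2 : ℂ)) :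
    ∃ Φ, Dec φ t Φ := by
  have h4 : blockDiagonal (fun j => (t j : ℂ) • (1 : Matrix (Fin 2) (Fin 2) ℂ)) =
      diagonal fun i : Fin 2 × Fin g => (t i.2 : ℂ) := by
    simp only [smul_one_eq_diagonal, blockDiagonal_diagonal]
  have h5 : ∀ A : Matrix (Fin 2 × Fin g) (Fin 2 × Fin g) ℂ, P' * (P * A * P') * P = A := fun A => by
    simp only [← Matrix.mul_assoc, h2, Matrix.one_mul]
    rw [Matrix.mul_assoc, h2, Matrix.mul_one]
  obtain ⟨F, hF⟩ : ∃ F : (Fin g → Matrix (Fin 2) (Fin 2) ℂ) → Matrix m m ℂ,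
    ∀ M, F M = P * blockDiagonal M * P' := ⟨_, fun _ => rfl⟩
  refine ⟨AlgHom.ofLinearMap ⟨⟨F, fun M N => ?_⟩, fun c M => ?_⟩ (show F 1 = 1 from ?_)
    fun M N => show F (fun k => M k * N k) = F M * F N from ?_,
    fun M N (h : F M = F N) => blockDiagonal_injective ?_, ht, show F _ = _ from ?_,
    fun M => show trace (F M) = _ from ?_, fun A hA => ⟨blockDiag (P' * A * P), show F _ = _ from ?_⟩⟩
  · rw [hF, hF, hF, blockDiagonal_add, Matrix.mul_add, Matrix.add_mul]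
  · simp only [hF, blockDiagonal_smul, Matrix.mul_smul, Matrix.smul_mul, RingHom.id_apply]
  · rw [hF, blockDiagonal_one, Matrix.mul_one, h1]
  · rw [hF, hF, hF, blockDiagonal_mul, Matrix.mul_assoc _ P', ← Matrix.mul_assoc P',
      ← Matrix.mul_assoc P', h2, Matrix.one_mul]
    simp only [Matrix.mul_assoc]
  · rw [← h5 (blockDiagonal M), ← hF, h, hF, h5]
  · rw [hF, h4, ← h3, Matrix.mul_assoc, h1, Matrix.mul_one]
  · rw [hF, trace_mul_cycle, h2, Matrix.one_mul, trace_blockDiagonal]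
  · have k1 : P' * φ.map (Int.cast : ℤ → ℂ) =
        (diagonal fun i : Fin 2 × Fin g => (t i.2 : ℂ)) * P' := by
      rw [← h5 (diagonal _), ← h3, Matrix.mul_assoc _ P P', h1, Matrix.mul_one, Matrix.mul_assoc,
        h1, Matrix.mul_one]
    have k2 : (P' * A * P * diagonal fun i : Fin 2 × Fin g => (t i.2 : ℂ)) =
        (diagonal fun i : Fin 2 × Fin g => (t i.2 : ℂ)) * (P' * A * P) := by
      rw [Matrix.mul_assoc, ← h3, ← Matrix.mul_assoc, Matrix.mul_assoc P', hA.eq,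
        ← Matrix.mul_assoc, k1, Matrix.mul_assoc, Matrix.mul_assoc, Matrix.mul_assoc]
    have k3 : blockDiagonal (blockDiag (P' * A * P)) = P' * A * P := by
      ext ⟨a, i⟩ ⟨c, j⟩
      rw [blockDiagonal_apply']
      split_ifs with h
      · subst h
        rfl
      · have k4 := congrFun (congrFun k2 (a, i)) (c, j)
        rw [mul_diagonal, diagonal_mul, mul_comm, mul_eq_mul_right_iff] at k4
        exact (k4.resolve_left fun e => h (ht (Complex.ofReal_injective e)).symm).symm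
    rw [hF, k3, Matrix.mul_assoc P', ← Matrix.mul_assoc P, h1, Matrix.one_mul, Matrix.mul_assoc, h1,
      Matrix.mul_one]

theorem dec_ex (ht : Function.Injective t) (b : Basis (Fin 2 × Fin g) ℝ (m → ℝ))
    (hb : ∀ i, φ.map (Int.cast : ℤ → ℝ) *ᵥ b i = t i.2 • b i) : ∃ Φ, Dec φ t Φ := by
  refine dec_of ht (((Pi.basisFun ℝ m).toMatrix b).map Complex.ofRealHom)
    ((b.toMatrix (Pi.basisFun ℝ m)).map Complex.ofRealHom) ?_ ?_ (Matrix.ext fun a i => ?_)
  · rw [← Matrix.map_mul, Basis.toMatrix_mul_toMatrix_flip,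
      Matrix.map_one _ (map_zero _) (map_one _)]
  · rw [← Matrix.map_mul, Basis.toMatrix_mul_toMatrix_flip,
      Matrix.map_one _ (map_zero _) (map_one _)]
  · have := congrArg Complex.ofReal (congrFun (hb i) a)
    rw [mul_diagonal, mul_apply]
    simpa [Basis.toMatrix_apply, mulVec, dotProduct, mul_comm] using this

/-- A quadratic relation with coefficients in the algebra of `φ`. -/
def Rel2 (φ : Matrix m m ℤ) (A : Matrix m m ℂ) (a d : Fin g → ℂ) : Prop :=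
  A ^ 2 + ∑ i, a i • (A * φ.map (Int.cast : ℤ → ℂ) ^ (i : ℕ)) +
    ∑ i, d i • φ.map (Int.cast : ℤ → ℂ) ^ (i : ℕ) = 0

theorem Dec.pol (h : Dec φ t Φ) (a : Fin g → ℂ) : ∑ i, a i • φ.map (Int.cast : ℤ → ℂ) ^ (i : ℕ) =
    Φ fun j => (∑ i, a i * (t j : ℂ) ^ (i : ℕ)) • 1 := by
  simp only [← h.phi, ← map_pow, ← map_smul, ← map_sum]
  congr 1
  funext j
  simp [Finset.sum_apply, Finset.sum_smul, _root_.smul_pow, smul_smul, -Complex.coe_smul]

theorem Dec.rel (h : Dec φ t Φ) (M : Fin g → Matrix (Fin 2) (Fin 2) ℂ) (a d : Fin g → ℂ) :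
    Rel2 φ (Φ M) a d ↔ ∀ j, M j ^ 2 + (∑ i, a i * (t j : ℂ) ^ (i : ℕ)) • M j +
      (∑ i, d i * (t j : ℂ) ^ (i : ℕ)) • 1 = 0 := by
  simp only [Rel2, ← mul_smul_comm, ← Finset.mul_sum, h.pol, ← map_pow, ← map_mul, ← map_add,
    map_eq_zero_iff Φ h.inj, funext_iff (f := (_ : Fin g → Matrix (Fin 2) (Fin 2) ℂ))]
  simp

theorem lin_root {M : Matrix (Fin 2) (Fin 2) ℂ} {α δ : ℝ} {Q : ℤ[X]} (hQ : Q.Monic) {p : ℕ}
    (h1 : ∀ z : ℂ, aeval z Q = 0 → ‖z‖ ^ 2 = p ∧ z ^ 2 ≠ p) (h2 : aeval M Q = 0)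
    (h3 : M ^ 2 + (α : ℂ) • M + (δ : ℂ) • 1 = 0) :
    δ = p ∧ α ^ 2 ≤ 4 * p ∧ IsIntegral ℤ (α : ℂ) := by
  obtain ⟨z, z1, z2⟩ : ∃ z : ℂ, z ^ 2 + α * z + δ = 0 ∧ aeval z Q = 0 := by
    by_contra H
    obtain ⟨u, v, e⟩ := (isCoprime_iff_aeval_ne_zero_of_isAlgClosed ℂ ℂ
      (X ^ 2 + C (α : ℂ) * X + C (δ : ℂ)) (Q.map (algebraMap ℤ ℂ))).2 fun z => by
        rw [aeval_map_algebraMap]
        by_contra hc
        push Not at hc
        exact H ⟨z, by simpa using hc.1, hc.2⟩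
    have k := congrArg (aeval M) e
    simp only [map_add, map_mul, map_pow, aeval_X, aeval_C, aeval_map_algebraMap, h2,
      Algebra.algebraMap_eq_smul_one, smul_mul_assoc, one_mul, h3, mul_zero, add_zero,
      map_one] at k
    exact zero_ne_one k
  obtain ⟨a1, a2⟩ := h1 z z2
  have a3 : z * (starRingEnd ℂ) z = p := by
    rw [Complex.mul_conj', ← Complex.ofReal_pow, a1, Complex.ofReal_natCast]
  have a4 := congrArg (starRingEnd ℂ) z1
  simp only [map_add, map_mul, map_pow, Complex.conj_ofReal, map_zero] at a4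
  have a5 : z - (starRingEnd ℂ) z ≠ 0 := fun e => a2 (by linear_combination a3 + z * e)
  have a6 : (α : ℂ) = -(z + (starRingEnd ℂ) z) :=
    mul_left_cancel₀ a5 (by linear_combination z1 - a4)
  have a7 : IsIntegral ℤ z := ⟨Q, hQ, z2⟩
  refine ⟨?_, ?_, a6 ▸ (a7.add (map_isIntegral_int _ a7)).neg⟩
  · exact_mod_cast (show (δ : ℂ) = p by linear_combination z1 + a3 - z * a6)
  · have a8 : α = -(2 * z.re) := by
      rw [Complex.add_conj] at a6
      exact_mod_cast a6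
    rw [a8, ← a1, Complex.sq_norm, Complex.normSq_apply]
    nlinarith [mul_self_nonneg z.im]

theorem lin_main (h : Dec φ t Φ) {A A' : Matrix m m ℂ} (hA : Commute A (φ.map Int.cast))
    (hA' : A' * A = 1) (hr : ∀ a d : Fin g → ℂ, Rel2 φ A a d →
      ∃ a' d' : Fin g → ℚ, Rel2 φ A (fun i => a' i) fun i => d' i) {Q : ℤ[X]} (hQ : Q.Monic) {p : ℕ}
    (h1 : ∀ z : ℂ, aeval z Q = 0 → ‖z‖ ^ 2 = p ∧ z ^ 2 ≠ p) (h2 : aeval A Q = 0) :
    ∃ (B : Matrix m m ℚ) (β : Fin g → ℝ), A + (p : ℂ) • A' = Φ (fun j => (β j : ℂ) • 1) ∧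
      B.map Rat.cast = Φ (fun j => (β j : ℂ) • 1) ∧
      ∀ j, β j ^ 2 ≤ 4 * p ∧ IsIntegral ℤ (β j : ℂ) := by
  obtain ⟨M, rfl⟩ := h.sur A hA
  have hv : ∀ v : Fin g → ℂ, ∃ a : Fin g → ℂ, ∀ j, ∑ i, a i * (t j : ℂ) ^ (i : ℕ) = v j := fun v => by
    obtain ⟨a, ha⟩ := mulVec_surjective_iff_isUnit.2 ((isUnit_iff_isUnit_det _).2
      (det_vandermonde_ne_zero_iff.2 (Complex.ofReal_injective.comp h.tinj)).isUnit) v
    exact ⟨a, fun j => by simpa [mulVec, dotProduct, mul_comm] using congrFun ha j⟩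
  obtain ⟨a, ha⟩ := hv fun j => -trace (M j)
  obtain ⟨d, hd⟩ := hv fun j => det (M j)
  obtain ⟨a', d', k⟩ := hr a d ((h.rel M a d).2 fun j => by
    have k := (M j).aeval_self_charpoly
    rw [charpoly_fin_two] at k
    simpa [ha, hd, Algebra.algebraMap_eq_smul_one, sub_eq_add_neg] using k)
  have k1 := (h.rel M _ _).1 k
  have k2 : ∀ (a : Fin g → ℚ) j, ∑ i, (a i : ℂ) * (t j : ℂ) ^ (i : ℕ) =
      ((∑ i, a i * t j ^ (i : ℕ) : ℝ) : ℂ) := fun a j => by simp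
  have k3 : aeval M Q = 0 :=
    h.inj ((aeval_algHom_apply Φ.toRingHom.toIntAlgHom M Q).symm.trans (h2.trans (map_zero _).symm))
  simp only [k2] at k1
  have k4 := fun j => lin_root hQ h1 ((aeval_algHom_apply
    (Pi.evalRingHom (fun _ => Matrix (Fin 2) (Fin 2) ℂ) j).toIntAlgHom M Q).trans
      (congrFun k3 j)) (k1 j)
  refine ⟨-∑ i, a' i • φ.map Int.cast ^ (i : ℕ), fun j => -∑ i, a' i * t j ^ (i : ℕ), ?_, ?_,
    fun j => ⟨(neg_sq _).trans_le (k4 j).2.1, by rw [Complex.ofReal_neg]; exact (k4 j).2.2.neg⟩⟩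
  · have k5 : Φ M * Φ M + (p : ℂ) • 1 =
        Φ M * Φ fun j => ((-∑ i, a' i * t j ^ (i : ℕ) : ℝ) : ℂ) • 1 := by
      rw [← map_one Φ, ← map_smul, ← map_mul, ← map_mul, ← map_add]
      refine congrArg Φ (funext fun j => ?_)
      have k6 := k1 j
      rw [(k4 j).1, Complex.ofReal_natCast, sq, add_right_comm, add_eq_zero_iff_eq_neg] at k6
      simpa using k6
    have k6 := congrArg (A' * ·) k5
    simpa only [mul_add, ← mul_assoc, hA', one_mul, mul_smul_comm, mul_one] using k6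
  · have k5 := h.pol fun i => -(a' i : ℂ)
    simp only [neg_mul, Finset.sum_neg_distrib, k2, neg_smul, ← Complex.ofReal_neg] at k5
    rw [← k5]
    change (Rat.castHom ℂ).mapMatrix _ = _
    simp only [map_neg, map_sum, map_rat_smul, map_pow, Rat.cast_smul_eq_qsmul]
    congr 4

theorem lin_pair (h : Dec φ t Φ) {B B' : Matrix m m ℚ} {β β' : Fin g → ℝ}
    (h1 : B.map Rat.cast = Φ fun j => (β j : ℂ) • 1) (h2 : B'.map Rat.cast = Φ fun j => (β' j : ℂ) • 1)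
    (h3 : ∀ j, IsIntegral ℤ (β j : ℂ)) (h4 : ∀ j, IsIntegral ℤ (β' j : ℂ)) :
    ∃ n : ℤ, (n : ℝ) = 2 * ∑ j, β j * β' j ∧
      trace (Φ (fun j => (β j : ℂ) • 1) * Φ fun j => (β' j : ℂ) • 1) = n := by
  have k1 : trace (Φ (fun j => (β j : ℂ) • 1) * Φ fun j => (β' j : ℂ) • 1) =
      2 * ∑ j, (β j : ℂ) * β' j := by
    rw [← map_mul, h.tr, Finset.mul_sum]
    exact Finset.sum_congr rfl fun j _ => by simp; ring
  have k2 : algebraMap ℚ ℂ (trace (B * B')) = 2 * ∑ j, (β j : ℂ) * β' j := by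
    rw [← k1, ← h1, ← h2]
    simp [trace, mul_apply]
  obtain ⟨n, hn⟩ := (IsIntegrallyClosed.isIntegral_iff (R := ℤ) (K := ℚ)).1
    ((isIntegral_algebraMap_iff (algebraMap ℚ ℂ).injective).1 (k2 ▸ (isIntegral_natCast 2).mul
      (IsIntegral.sum _ fun j _ => (h3 j).mul (h4 j))))
  rw [← hn] at k2
  refine ⟨n, ?_, k1.trans (k2.symm.trans (by simp))⟩
  simp only [eq_intCast, map_intCast] at k2
  exact_mod_cast k2

end Pool.Agent.RT
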