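import Pool.Agent.Lib.MP_33b3f9_ag.MG.B2.WeilD

/-! Relations with `l`-adic coefficients come from rational relations. -/

set_option autoImplicit false

namespace Pool.Agent.RT

open Matrix

variable {I n : Type} [Fintype I] [DecidableEq I] {l : ℕ} [Fact l.Prime] {H : (I → ℤ) → ℕ}

theorem qd_gram (hp : ∀ a b, H (a + b) + H (a - b) = 2 * H a + 2 * H b)
    (mm : I → Matrix n n ℤ_[l])
    (hd : ∀ (k : ℕ) (v : I → ℤ), (∀ i j, (l : ℤ_[l]) ^ k ∣ (∑ s, v s • mm s) i j) →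
      l ^ (2 * k) ∣ H v) : ∃ G : Matrix I I ℤ, (∀ v, v ᵥ* G = 0 → H v = 0) ∧
      ∀ c : I → ℤ_[l], ∑ s, c s • mm s = 0 → ∀ t, ∑ s, c s * G s t = 0 := by
  obtain ⟨B, hB, hs⟩ := MG.B2.weilD_polar hp
  have hv : ∀ v : I → ℤ, v = ∑ s, v s • Pi.single s 1 := fun v => by
    ext t
    simp [Finset.sum_apply, Pi.single_apply]
  let G : Matrix I I ℤ := Matrix.of fun s t => B (Pi.single s 1) (Pi.single t 1)
  have hG : ∀ v t, B v (Pi.single t 1) = ∑ s, v s * G s t := fun v t => by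
    conv_lhs => rw [hv v]
    simp only [map_sum, map_smul, LinearMap.sum_apply, LinearMap.smul_apply, smul_eq_mul, G,
      Matrix.of_apply]
  refine ⟨G, fun v h1 => ?_, fun c hc t => M4.B2.eq_zero_of_pow_dvd fun k => ?_⟩
  · have h2 : B v v = 0 := by
      conv_lhs => arg 2; rw [hv v]
      rw [map_sum]
      refine Finset.sum_eq_zero fun t _ => ?_
      rw [map_smul, hG, show ∑ s, v s * G s t = 0 from congrFun h1 t, smul_zero]
    rw [hs] at h2
    omega
  choose y hy using fun s => Ideal.mem_span_singleton.1 (PadicInt.appr_spec k (c s))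
  let v : I → ℤ := fun s => (c s).appr k
  have hv' : ∀ s, (v s : ℤ_[l]) = c s - (l : ℤ_[l]) ^ k * y s := fun s => by
    rw [← hy, sub_sub_cancel]
    exact Int.cast_natCast _
  have ha : ∀ i j, (l : ℤ_[l]) ^ k ∣ (∑ s, v s • mm s) i j := fun i j => by
    have e : ∑ s, v s • mm s = (l : ℤ_[l]) ^ k • -∑ s, y s • mm s := by
      simp only [← Int.cast_smul_eq_zsmul ℤ_[l], hv', sub_smul, Finset.sum_sub_distrib, hc,
        mul_smul, ← Finset.smul_sum, zero_sub, smul_neg]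
    rw [e]
    exact ⟨_, rfl⟩
  have hb : ∀ i j, (l : ℤ_[l]) ^ k ∣
      (∑ s, ((l : ℤ) ^ k • Pi.single t (1 : ℤ) : I → ℤ) s • mm s) i j := fun i j => by
    simp only [Pi.smul_apply, smul_eq_mul, mul_smul, ← Finset.smul_sum]
    rw [Matrix.smul_apply, zsmul_eq_mul]
    push_cast
    exact ⟨_, rfl⟩
  have h1 := Int.natCast_dvd_natCast.2 (hd k _ ha)
  have h2 := Int.natCast_dvd_natCast.2 (hd k _ hb)
  have h3 := Int.natCast_dvd_natCast.2 (hd k (v + (l : ℤ) ^ k • Pi.single t 1) fun i j => by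
    simp only [Pi.add_apply, add_smul, Finset.sum_add_distrib]
    exact dvd_add (ha i j) (hb i j))
  have h4 := dvd_sub (dvd_sub h3 h1) h2
  rw [← hB, map_smul, smul_eq_mul, two_mul] at h4
  push_cast at h4
  rw [pow_add, mul_dvd_mul_iff_left
    (pow_ne_zero _ (Int.natCast_ne_zero.2 (Fact.out : l.Prime).ne_zero)), hG] at h4
  obtain ⟨q, hq⟩ := h4
  have h5 := congrArg (Int.cast : ℤ → ℤ_[l]) hq
  push_cast at h5
  simp only [hv', sub_mul, Finset.sum_sub_distrib, mul_assoc, ← Finset.mul_sum] at h5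
  refine ⟨q + ∑ s, y s * (G s t : ℤ_[l]), ?_⟩
  rw [mul_add, ← h5, sub_add_cancel]

/-- A complex relation gives a rational relation. -/
theorem qd_rat (hp : ∀ a b, H (a + b) + H (a - b) = 2 * H a + 2 * H b)
    (mm : I → Matrix n n ℤ_[l]) (h0 : ∀ v, H v = 0 → ∑ s, v s • mm s = 0)
    (hd : ∀ (k : ℕ) (v : I → ℤ), (∀ i j, (l : ℤ_[l]) ^ k ∣ (∑ s, v s • mm s) i j) →
      l ^ (2 * k) ∣ H v) (e : ℚ_[l] →+* ℂ) : ∃ μ : ℂ →ₗ[ℚ] ℚ, μ 1 = 1 ∧ ∀ c : I → ℂ,
      ∑ s, c s • (mm s).map (fun x => e x) = 0 →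
        ∑ s, (μ (c s) : ℂ) • (mm s).map (fun x => e x) = 0 := by
  obtain ⟨G, g1, g2⟩ := qd_gram hp mm hd
  let _ := e.toAlgebra
  have : IsScalarTower ℚ ℚ_[l] ℂ := .of_algebraMap_eq' (Subsingleton.elim _ _)
  obtain ⟨a, ha⟩ := (Algebra.linearMap ℚ_[l] ℂ).exists_leftInverse_of_injective
    (LinearMap.ker_eq_bot.2 e.injective)
  obtain ⟨b, hb⟩ := (Algebra.linearMap ℚ ℚ_[l]).exists_leftInverse_of_injective
    (LinearMap.ker_eq_bot.2 (algebraMap ℚ ℚ_[l]).injective)
  refine ⟨b ∘ₗ a.restrictScalars ℚ, ?_, fun c hc => ?_⟩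
  · have a1 := LinearMap.congr_fun ha 1
    have b1 := LinearMap.congr_fun hb 1
    simp only [LinearMap.comp_apply, Algebra.linearMap_apply, map_one, LinearMap.id_apply] at a1 b1
    simp [a1, b1]
  have k1 : ∀ i j, ∑ s, a (c s) * (mm s i j : ℚ_[l]) = 0 := fun i j => by
    have k := congrArg a (congrFun (congrFun hc i) j)
    rw [Matrix.sum_apply, map_sum, Matrix.zero_apply, map_zero] at k
    rw [← k]
    refine Finset.sum_congr rfl fun s _ => ?_
    have k' := LinearMap.congr_fun ha 1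
    rw [mul_comm, ← smul_eq_mul, ← map_smul, Matrix.smul_apply, map_apply, smul_eq_mul, mul_comm]
    rfl
  obtain ⟨N, hN⟩ := IsLocalization.exist_integer_multiples_of_finite (nonZeroDivisors ℤ_[l])
    fun s => a (c s)
  choose c' hc' using hN
  have N0 : ((N : ℤ_[l]) : ℚ_[l]) ≠ 0 := PadicInt.coe_ne_zero.2 (nonZeroDivisors.ne_zero N.2)
  have k2 : ∀ s, (c' s : ℚ_[l]) = (N : ℤ_[l]) * a (c s) := hc'
  have k3 : ∀ t, ∑ s, b (a (c s)) * G s t = 0 := fun t => by
    have k := congrArg ((↑) : ℤ_[l] → ℚ_[l]) (g2 c' (Matrix.ext fun i j => Subtype.ext (by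
      simp only [Matrix.sum_apply, Matrix.smul_apply, smul_eq_mul, PadicInt.coe_sum,
        PadicInt.coe_mul, k2, mul_assoc, ← Finset.mul_sum, k1, mul_zero]
      rfl)) t)
    simp only [PadicInt.coe_sum, PadicInt.coe_mul, k2, mul_assoc, ← Finset.mul_sum,
      PadicInt.coe_zero, PadicInt.coe_intCast] at k
    have k' := congrArg b ((mul_eq_zero.1 k).resolve_left N0)
    rw [map_sum, map_zero] at k'
    rw [← k']
    refine Finset.sum_congr rfl fun s _ => ?_
    rw [mul_comm (a _), ← zsmul_eq_mul, map_zsmul, zsmul_eq_mul, mul_comm]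
  obtain ⟨M, hM⟩ := IsLocalization.exist_integer_multiples_of_finite (nonZeroDivisors ℤ)
    fun s => b (a (c s))
  choose v hv using hM
  have M0 : (M : ℤ) ≠ 0 := nonZeroDivisors.ne_zero M.2
  have k4 : ∀ s, (v s : ℚ) = (M : ℤ) * b (a (c s)) := fun s => (hv s).trans (zsmul_eq_mul _ _)
  have k5 := h0 v (g1 v (funext fun t => Int.cast_injective (α := ℚ) (by
    simp only [vecMul, dotProduct, Int.cast_sum, Int.cast_mul, k4, mul_assoc, ← Finset.mul_sum,
      k3, mul_zero, Pi.zero_apply, Int.cast_zero])))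
  refine smul_right_injective _ (Int.cast_ne_zero (α := ℂ).2 M0) (Matrix.ext fun i j => ?_)
  have k6 := congrArg (fun x : ℤ_[l] => e x) (congrFun (congrFun k5 i) j)
  simp only [Matrix.sum_apply, Matrix.smul_apply, zsmul_eq_mul, PadicInt.coe_sum, PadicInt.coe_mul,
    PadicInt.coe_intCast, map_sum, map_mul, map_intCast, Matrix.zero_apply, PadicInt.coe_zero,
    map_zero] at k6
  simp only [Matrix.sum_apply, Matrix.smul_apply, smul_eq_mul, map_apply, Finset.mul_sum,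
    Matrix.zero_apply, mul_zero]
  rw [← k6]
  refine Finset.sum_congr rfl fun s _ => ?_
  rw [← mul_assoc, ← Rat.cast_intCast (v s), k4]
  simp

end Pool.Agent.RT
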