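import Pool.Agent.Lib.MP_e97e2b_nt.RT.W
import Pool.Agent.Lib.MP_e97e2b_nt.RT.ZL
import Pool.Agent.Lib.MP_e97e2b_nt.RM.Qd

/-! Endomorphisms of the reduction and their height. -/

set_option autoImplicit false

namespace Pool.Agent.RT

open Matrix RG RG.B2
open _root_.M4 (InH Hol U rz ee E Gam cst per per_add per_smul per_cst per_bijective mem_Gam)
open _root_.M4.B2 (psi kk res cj Af Af_ext cp cp_inc_ne)
open _root_.M8.CP (exists_htSys)

noncomputable section

variable [Dim] {P : Nat.Primes} {ι' : Type} [Fintype ι']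

/-- Families of integral matrices. -/
abbrev MF : Type := ∀ l : Nat.Primes, Matrix ν ν ℤ_[l]

/-- The action on the part away from `P`. -/
def actV (P : Nat.Primes) (m : MF) : Vt P →+ Vt P where
  toFun x := ⟨toA m *ᵥ x, fun i => by
    have := congrFun (cV_toA_mulVec m x P) i
    rwa [cV_Vt, mulVec_zero] at this⟩
  map_zero' := Subtype.ext (mulVec_zero _)
  map_add' _ _ := Subtype.ext (mulVec_add _ _ _)

theorem cV_actV (m : MF) (x : Vt P) (l : Nat.Primes) :
    cV l (actV P m x : VA) = mQ (m l) *ᵥ cV l x := cV_toA_mulVec m x l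

/-- The action on the points of the reduction. -/
def act (P : Nat.Primes) (m : MF) : Vt P × WW P →+ Vt P × WW P := (actV P m).prodMap (matW (m P))

theorem mQ_add {l : ℕ} [Fact l.Prime] (a b : Matrix ν ν ℤ_[l]) : mQ (a + b) = mQ a + mQ b := rfl

/-- The action is additive. -/
def actH (P : Nat.Primes) : MF →+ (Vt P × WW P → Vt P × WW P) :=
  AddMonoidHom.mk' (fun m z => act P m z) fun a b => funext fun z : Vt P × WW P => Prod.ext
    (Subtype.ext (VA_ext fun l => by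
      change cV l (actV P (a + b) z.1 : VA) = cV l ((actV P a z.1 : VA) + actV P b z.1)
      rw [cV_add, cV_actV, cV_actV, cV_actV, Pi.add_apply, mQ_add, add_mulVec]))
    (show matW (a P + b P) z.2 = matW (a P) z.2 + matW (b P) z.2 from
      QuotientAddGroup.induction_on z.2 fun s => by
        rw [matW_mk, matW_mk, matW_mk, mQ_add, add_mulVec, QuotientAddGroup.mk_add])

theorem act_mul (a b : MF) : actH P (a * b) = actH P a ∘ actH P b := funext fun z => Prod.ext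
  (Subtype.ext (VA_ext fun l => by
    change cV l (actV P (a * b) z.1 : VA) = cV l (actV P a (actV P b z.1) : VA)
    rw [cV_actV, cV_actV, cV_actV, Pi.mul_apply, mQ_mul, mulVec_mulVec]))
  (show matW (a P * b P) z.2 = matW (a P) (matW (b P) z.2) from
    QuotientAddGroup.induction_on z.2 fun s => by
      rw [matW_mk, matW_mk, matW_mk, mQ_mul, mulVec_mulVec])

/-- The families that act as endomorphisms. -/
def EE (S : Gd P ι') : AddSubgroup MF := S.toTC.AA.comap (actH P)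

theorem EE_mul {S : Gd P ι'} {q : ℕ} (T : Sym S q) {a : MF} (ha : a ∈ EE S) (k : ℕ) :
    (fun l => (T.R l).1 ^ k * a l) ∈ EE S := by
  induction k with
  | zero => simpa using ha
  | succ k ih =>
    have h : S.toTC.InA (actH P (fun l => (T.R l).1) ∘ actH P _) := T.toSy.inA_sg ih
    rw [← act_mul] at h
    simp only [pow_succ', mul_assoc]
    exact h

theorem EE_ht (S : Gd P ι') : ∃ h : MF → ℕ,
    (∀ a ∈ EE S, ∀ b ∈ EE S, h (a + b) + h (a - b) = 2 * h a + 2 * h b) ∧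
    ∀ a ∈ EE S, ∀ l : Nat.Primes, l ≠ P → (h a = 0 → a l = 0) ∧
      ∀ k : ℕ, (∀ i j, (l.1 : ℤ_[l]) ^ k ∣ a l i j) → l.1 ^ (2 * k) ∣ h a := by
  obtain ⟨H⟩ := exists_htSys P S.toTC.xx S.toTC.adjoin_xx
  have hc : ∀ a ∈ EE S, ((S.toTC.ht H (actH P a)).toNat : ℤ) = S.toTC.ht H (actH P a) :=
    fun a ha => Int.toNat_of_nonneg (CP.TC.ht_nonneg H ha)
  refine ⟨fun a => (S.toTC.ht H (actH P a)).toNat, fun a ha b hb => ?_,
    fun a ha l hl => ⟨fun h => ?_, fun k h => ?_⟩⟩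
  · zify
    rw [hc _ (add_mem ha hb), hc _ (sub_mem ha hb), hc a ha, hc b hb, map_add, map_sub,
      CP.TC.ht_par H ha hb]
  · zify at h
    rw [hc a ha, CP.TC.ht_eq_zero H ha] at h
    have h1 : ∀ x, actV P a x = 0 := fun x => gd_line fun c => by
      rw [← map_rat_smul (actV P a)]
      exact (S.toTC.consta ha (map_add (act P a)) h (c • x, 0)).1
    ext i j
    have h2 := congrFun (cV_actV a ⟨iV l (Pi.single j 1), fun _ => cp_inc_ne hl.symm _⟩ l) i
    rw [h1, cV_iV_self, mulVec_single_one] at h2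
    exact Subtype.ext (h2.symm.trans (map_zero (cp l)))
  · have hd : ¬ P.1 ∣ l.1 ^ k := fun hd => hl (Subtype.ext
      ((Nat.prime_dvd_prime_iff_eq P.2 l.2).1 (P.2.dvd_of_dvd_pow hd)).symm)
    refine (S.toTC.div_N hd (a := act P a) ha (fun x hx => mem_Lam.2 (mem_TA_iff.2 fun l' i => ?_))
      fun x => map_zero (matW (a P))).elim fun a' ⟨ha', h1⟩ => by
        zify
        rw [hc a ha, show actH P a = _ from h1.symm, CP.TC.ht_nsmul H ha', mul_comm 2, pow_mul]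
        simp
    have hx' := mem_TA_iff.1 (mem_Lam.1 hx) l'
    rw [Submodule.coe_smul_of_tower, cV_nsmul, Nat.cast_pow] at hx'
    change ‖cV l' (actV P a x : VA) i‖ ≤ 1
    rw [cV_actV]
    by_cases e : l' = l
    · subst e
      choose b hb using h
      have h1 : mQ (a l') = (l'.1 : ℚ_[l']) ^ k • mQ (Matrix.of b) := by
        ext i j
        simp [mQ, hb]
      rw [h1, smul_mulVec, ← mulVec_smul]
      exact mQ_mulVec_le _ hx' i
    · have h1 : ‖(l.1 : ℚ_[l'])‖ = 1 := (Padic.norm_natCast_eq_one_iff (p := l') (n := l.1)).2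
        ((Nat.coprime_primes l'.2 l.2).2 fun h => e (Subtype.ext h))
      refine mQ_mulVec_le _ (fun j => ?_) i
      have h2 := hx' j
      rwa [Pi.smul_apply, smul_eq_mul, norm_mul, norm_pow, h1, one_pow, one_mul] at h2

/-- An integral matrix as a family. -/
def zf (Ψ : Matrix ν ν ℤ) : MF := fun _ => Ψ.map Int.cast

theorem toA_zf (Ψ : Matrix ν ν ℤ) : toA (zf Ψ) = Ψ.map Int.cast := by
  refine Matrix.ext fun i j => Af_ext fun l => ?_
  rw [map_apply, map_intCast]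
  exact PadicInt.coe_intCast _

theorem EB_sim {Ψ : Matrix ν ν ℤ} {m : ℕ} (h : Ψᵀ * J ι ℤ * Ψ = (m : ℤ) • J ι ℤ) {R : Type}
    [CommRing R] (x y : ν → R) :
    EB (Ψ.map Int.cast *ᵥ x) (Ψ.map Int.cast *ᵥ y) = m * EB x y := by
  have h1 : ∀ x y : ν → R, EB x y = -(x ⬝ᵥ (J ι ℤ).map (Int.castRingHom R) *ᵥ y) := fun x y => by
    simp [EB, J, dotProduct, mulVec, one_apply, sub_eq_add_neg, Finset.sum_add_distrib, add_comm]
  have h2 := congrArg (·.map (Int.castRingHom R)) h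
  simp only [Matrix.map_mul, transpose_map] at h2
  rw [h1, h1, mulVec_mulVec, ← vecMul_transpose, ← dotProduct_mulVec, mulVec_mulVec,
    ← Matrix.mul_assoc, mul_neg, ← smul_eq_mul (m : R), ← dotProduct_smul, ← smul_mulVec]
  refine congrArg (fun A => -(x ⬝ᵥ A *ᵥ y)) (h2.trans ?_)
  ext i j
  simp only [map_apply, Matrix.smul_apply, smul_eq_mul, map_mul, map_natCast]

variable {τ : Mat}

theorem per_lin (hτ : InH τ) {A : Matrix ν ν ℝ} (h : A * cst τ = cst τ * A) :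
    ∃ M : Matrix ι ι ℂ, ∀ x, per τ (A *ᵥ x) = M *ᵥ per τ x := by
  have a0 : ∀ x, per τ (A *ᵥ (cst τ *ᵥ x)) = Complex.I • per τ (A *ᵥ x) := fun x => by
    rw [mulVec_mulVec, h, ← mulVec_mulVec, per_cst hτ]
  choose s hs using (per_bijective hτ).2
  have a1 : ∀ z w, s (z + w) = s z + s w := fun z w =>
    (per_bijective hτ).1 (by rw [per_add, hs, hs, hs])
  have a2 : ∀ (t : ℝ) z, s ((t : ℂ) • z) = t • s z := fun t z =>
    (per_bijective hτ).1 (by rw [per_smul, hs, hs])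
  have a3 : ∀ z, s (Complex.I • z) = cst τ *ᵥ s z := fun z =>
    (per_bijective hτ).1 (by rw [per_cst hτ, hs, hs])
  let L : (ι → ℂ) →ₗ[ℂ] (ι → ℂ) :=
    { toFun := fun z => per τ (A *ᵥ s z)
      map_add' := fun z w => by rw [a1, mulVec_add, per_add]
      map_smul' := fun t z => by
        rw [← Complex.re_add_im t, RingHom.id_apply, add_smul, add_smul, mul_smul, mul_smul, a1, a2,
          a2, a3, mulVec_add, per_add, mulVec_smul, mulVec_smul, per_smul, per_smul, a0] }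
  refine ⟨LinearMap.toMatrix' L, fun x => ?_⟩
  rw [LinearMap.toMatrix'_mulVec]
  exact congrArg (fun y => per τ (A *ᵥ y)) ((per_bijective hτ).1 (hs _)).symm

theorem sim_GA (hτ : InH τ) {Ψ : Matrix ν ν ℤ} {m : ℕ} (h1 : Ψᵀ * J ι ℤ * Ψ = (m : ℤ) • J ι ℤ)
    (h2 : Ψ.map Int.cast * cst τ = cst τ * Ψ.map Int.cast) {f : VA → ℂ} (hf : f ∈ GA τ 1) :
    (fun x => f (Ψ.map Int.cast *ᵥ x)) ∈ GA τ m := by
  obtain ⟨f, hf', rfl⟩ := mem_GA.1 hf
  obtain ⟨M, hM⟩ := per_lin hτ h2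
  have hp := Per.of_mem hf'
  have hE : ∀ x y : ν → ℝ, E (Ψ.map Int.cast *ᵥ x) (Ψ.map Int.cast *ᵥ y) = m * E x y := EB_sim h1
  have k1 : Per m fun x => f (Ψ.map Int.cast *ᵥ x) := fun n => funext fun x => by
    have e : Ψ.map Int.cast *ᵥ rz n = rz (Ψ *ᵥ n) := by
      funext i
      simp [rz, mulVec, dotProduct]
    rw [← congrFun (hp (Ψ *ᵥ n)) (Ψ.map Int.cast *ᵥ x), ← e]
    simp only [U, hE, mulVec_add]
    congr 2
    push_cast
    ring
  refine mem_GA.2 ⟨_, mem_Gam_of_per ?_ k1, funext fun z => ?_⟩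
  · have := _root_.M4.Hol.comp hτ.1 hτ.1 (Ψ.map Int.cast).mulVecLin M hM hE (mem_Gam.1 hf').1
    rwa [mul_one, ← Nat.cast_mul] at this
  · obtain ⟨q, t, ht, rfl⟩ := exists_split z
    have e1 : Ψ.map Int.cast *ᵥ qV q = qV (Ψ.map Int.cast *ᵥ q) := by
      funext i
      simp [qV, _root_.M4.B2.qA, mulVec, dotProduct]
    have e2 : Ψ.map Int.cast *ᵥ rQ q = rQ (Ψ.map Int.cast *ᵥ q) := by
      funext i
      simp [rQ, mulVec, dotProduct]
    have e3 : Ψ.map Int.cast *ᵥ t ∈ TA := mem_TA_iff.2 fun l i => by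
      rw [← toA_zf, cV_toA_mulVec]
      exact mQ_mulVec_le _ (mem_TA_iff.1 ht l) i
    rw [ext_eq k1 q ht, mulVec_add, e1, ext_eq hp _ e3, ← e1, EB_sim h1, e2]
    congr 2
    push_cast
    ring

theorem sim_EE (hτ : InH τ) {S : Gd P ι'} (hS : S.D.Γ = GA τ) {Ψ : Matrix ν ν ℤ} {m : ℕ}
    (h1 : Ψᵀ * J ι ℤ * Ψ = (m : ℤ) • J ι ℤ)
    (h2 : Ψ.map Int.cast * cst τ = cst τ * Ψ.map Int.cast) : zf Ψ ∈ EE S := by
  have h3 := S.toTC.pow_mem S.toTC.X0_mem m
  have h4 : S.toTC.X0 ^ m ≠ 0 := fun e => pow_ne_zero m S.toTC.X0_zero (congrFun e 0)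
  refine ⟨_, S.toTC.isUnit_gm_G h3 h4, fun i => ?_⟩
  rw [one_mul] at h3
  refine (S.toTC.exists_ratio ⟨fun x => S.D.X i (Ψ.map Int.cast *ᵥ x), ?_,
    fun x => S.intg_X i _, funext fun z => ?_⟩ h3 h4).imp fun _ h => h.symm
  · rw [hS]
    exact sim_GA hτ h1 h2 (hS ▸ S.D.X_mem i)
  · have e1 : matW (zf Ψ P) z.2 = ((mQ (zf Ψ P) *ᵥ z.2.out : ν → ℚ_[P]) : WW P) := by
      rw [← matW_mk, QuotientAddGroup.out_eq']
    have e2 : toA (zf Ψ) *ᵥ iV P z.2.out = iV P (mQ (zf Ψ P) *ᵥ z.2.out) := VA_ext fun l => by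
      rw [cV_toA_mulVec]
      by_cases hl : l = P
      · subst hl
        simp
      · rw [cV_iV_ne hl, cV_iV_ne hl, mulVec_zero]
    change _ = redF S.e (S.D.X i) (actV P (zf Ψ) z.1, matW (zf Ψ P) z.2)
    rw [e1, redF_mk S.D (S.D.X_mem i) (S.intg_X i), redF, lift, ← toA_zf, mulVec_add, e2]
    rfl

/-- The adjoint for the symplectic form. -/
def adj : Matrix ν ν ℚ →ₗ[ℚ] Matrix ν ν ℚ where
  toFun a := -(J ι ℚ * aᵀ * J ι ℚ)
  map_add' a b := by rw [transpose_add, mul_add, add_mul, neg_add]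
  map_smul' c a := by rw [transpose_smul, mul_smul_comm, smul_mul_assoc, smul_neg, RingHom.id_apply]

/-- A rational matrix as a real matrix. -/
def toR : Matrix ν ν ℚ →ₐ[ℚ] Matrix ν ν ℝ := (Algebra.ofId ℚ ℝ).mapMatrix

/-- The span of the symplectic automorphisms of the complex structure. -/
def Sp (τ : Mat) : Submodule ℚ (Matrix ν ν ℚ) :=
  Submodule.span ℚ {u | adj u * u = 1 ∧ Commute (toR u) (cst τ)}

theorem Sp_EE (hτ : InH τ) {S : Gd P ι'} (hS : S.D.Γ = GA τ) {x : Matrix ν ν ℚ} (hx : x ∈ Sp τ) :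
    ∃ (N : ℕ) (Y : Matrix ν ν ℤ), N ≠ 0 ∧ Y.map Int.cast = (N : ℚ) • x ∧ zf Y ∈ EE S := by
  have z1 : ∀ (c : ℤ) Y, zf (c • Y) = c • zf Y := fun c Y => by
    ext l i j : 3
    exact (Int.cast_mul c (Y i j)).trans (zsmul_eq_mul _ _).symm
  have z2 : ∀ (c : ℤ) (Y : Matrix ν ν ℤ), (c • Y).map (Int.cast : ℤ → ℚ) =
      (c : ℚ) • Y.map Int.cast := fun c Y => by
    ext i j
    simp only [map_apply, Matrix.smul_apply, smul_eq_mul, Int.cast_mul]
  induction hx using Submodule.span_induction with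
  | mem u hu =>
    obtain ⟨M, hM⟩ := IsLocalization.exist_integer_multiples_of_finite (nonZeroDivisors ℤ)
      fun s : ν × ν => u s.1 s.2
    choose v hv using hM
    have M0 : (M : ℤ) ≠ 0 := nonZeroDivisors.ne_zero M.2
    have k1 : ((M : ℤ) • Matrix.of fun i j => v (i, j)).map (Int.cast : ℤ → ℚ) =
        (((M : ℤ).natAbs ^ 2 : ℕ) : ℚ) • u := by
      ext i j
      have := hv (i, j)
      simp only [eq_intCast, zsmul_eq_mul] at this
      simp only [map_apply, Matrix.smul_apply, smul_eq_mul, Int.cast_mul, of_apply, this,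
        Nat.cast_pow, Nat.cast_natAbs, Int.cast_abs, sq_abs]
      ring
    generalize (M : ℤ) • (Matrix.of fun i j => v (i, j)) = Y at k1
    have N0 := pow_ne_zero 2 (Int.natAbs_ne_zero.2 M0)
    generalize (M : ℤ).natAbs ^ 2 = N at k1 N0
    refine ⟨N, Y, N0, k1, sim_EE hτ hS (m := N * N) (Matrix.map_injective
      (f := Int.castRingHom ℚ) Int.cast_injective ?_) ?_⟩
    · have k2 : uᵀ * J ι ℚ * u = J ι ℚ := by
        have k3 := congrArg (J ι ℚ * ·) hu.1
        simpa [adj, ← mul_assoc, J_squared] using k3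
      have k3 : (J ι ℤ).map (Int.cast : ℤ → ℚ) = J ι ℚ := map_J _ (Int.castRingHom ℚ)
      change (_ : Matrix ν ν ℤ).map (Int.castRingHom ℚ) = (_ : Matrix ν ν ℤ).map Int.cast
      rw [Matrix.map_mul, Matrix.map_mul, transpose_map, z2, Int.coe_castRingHom]
      simp only [k1, k3, transpose_smul, smul_mul_assoc, mul_smul_comm, k2, smul_smul, Nat.cast_mul,
        Int.cast_mul, Int.cast_natCast]
    · have k2 : Y.map (Int.cast : ℤ → ℝ) = toR ((N : ℚ) • u) := by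
        rw [← k1]
        ext i j
        simp [toR]
      rw [k2, map_smul]
      exact hu.2.smul_left _
  | zero => exact ⟨1, 0, one_ne_zero, by simp, by
      rw [← zero_smul ℤ (0 : Matrix ν ν ℤ), z1, zero_smul]; exact zero_mem _⟩
  | add a b _ _ ha hb =>
    obtain ⟨N, Y, h1, h2, h3⟩ := ha
    obtain ⟨N', Y', h1', h2', h3'⟩ := hb
    refine ⟨N * N', (N' : ℤ) • Y + (N : ℤ) • Y', mul_ne_zero h1 h1', ?_, ?_⟩
    · rw [Matrix.map_add _ Int.cast_add, z2, z2, h2, h2', smul_smul, smul_smul, smul_add]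
      simp [mul_comm]
    · rw [show zf ((N' : ℤ) • Y + (N : ℤ) • Y') = zf ((N' : ℤ) • Y) + zf ((N : ℤ) • Y') from
        funext fun l => Matrix.map_add _ Int.cast_add _ _, z1, z1]
      exact add_mem (zsmul_mem h3 _) (zsmul_mem h3' _)
  | smul c a _ ha =>
    obtain ⟨N, Y, h1, h2, h3⟩ := ha
    refine ⟨N * c.den, c.num • Y, mul_ne_zero h1 c.den_nz, ?_, z1 _ _ ▸ zsmul_mem h3 _⟩
    rw [z2, h2, smul_smul, smul_smul, Nat.cast_mul, mul_assoc, Rat.den_mul_eq_num, mul_comm]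

theorem inj_main (hτ : InH τ) {e : ℂ ≃+* PadicAlgCl P} (hP : P.1 ≠ 2) (hG : Good τ e) (q : ℕ)
    (t : GQ P) (ht : ∀ x, ‖x‖ ≤ 1 → res (t x) = res x ^ q) (R : ∀ l : Nat.Primes, GL ν ℤ_[l])
    (h1 : Fw τ (cj e t) R) {I : Type} [Fintype I] [DecidableEq I] (k : I → ℕ)
    (X : I → Matrix ν ν ℤ) (hX : ∀ s, (X s).map Int.cast ∈ Sp τ) {l : Nat.Primes} (hl : l ≠ P)
    (ε : ℚ_[l] →+* ℂ) : ∃ μ : ℂ →ₗ[ℚ] ℚ, μ 1 = 1 ∧ ∀ c : I → ℂ,
      ∑ s, c s • ((R l).1 ^ k s * (X s).map Int.cast).map (fun x : ℤ_[l] => ε x) = 0 →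
        ∑ s, (μ (c s) : ℂ) • ((R l).1 ^ k s * (X s).map Int.cast).map (fun x : ℤ_[l] => ε x) = 0 := by
  obtain ⟨S, rfl, h3, -, -⟩ := w_gd hP hG
  let T : Sym S q := ⟨t, R, ht, by rw [h3]; exact h1⟩
  choose N Y N0 hY hE using fun s => Sp_EE hτ h3 (hX s)
  obtain ⟨h, a1, a2⟩ := EE_ht S
  let mm : I → MF := fun s l => (R l).1 ^ k s * zf (Y s) l
  have b1 : ∀ v : I → ℤ, ∑ s, v s • mm s ∈ EE S := fun v =>
    sum_mem fun s _ => zsmul_mem (EE_mul T (hE s) (k s)) _
  obtain ⟨μ, m1, m2⟩ := qd_rat (H := fun v => h (∑ s, v s • mm s)) (fun a b => by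
      simp only [Pi.add_apply, Pi.sub_apply, add_smul, sub_smul, Finset.sum_add_distrib,
        Finset.sum_sub_distrib, a1 _ (b1 a) _ (b1 b)]) (fun s => mm s l)
    (fun v hv => by simpa only [Finset.sum_apply, Pi.smul_apply] using (a2 _ (b1 v) l hl).1 hv)
    (fun j v hv => (a2 _ (b1 v) l hl).2 j (by simpa only [Finset.sum_apply, Pi.smul_apply] using hv)) ε
  have b2 : ∀ s, (mm s l).map (fun x : ℤ_[l] => ε x) =
      (N s : ℂ) • ((R l).1 ^ k s * (X s).map Int.cast).map (fun x : ℤ_[l] => ε x) := fun s => by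
    have b3 : zf (Y s) l = (N s : ℤ_[l]) • (X s).map Int.cast := by
      ext i j : 2
      have b4 : Y s i j = N s * X s i j := by
        exact_mod_cast (show (Y s i j : ℚ) = N s * X s i j from congrFun (congrFun (hY s) i) j)
      simp [zf, b4]
    ext i j
    simp only [mm, b3, mul_smul_comm, map_apply, Matrix.smul_apply, smul_eq_mul, PadicInt.coe_mul,
      PadicInt.coe_natCast, map_mul, map_natCast]
  have b3 : ∀ s (x : ℂ), (N s : ℂ)⁻¹ * x * N s = x := fun s x => by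
    have : (N s : ℂ) ≠ 0 := Nat.cast_ne_zero.2 (N0 s)
    field_simp
  refine ⟨μ, m1, fun c hc => ?_⟩
  have b4 := m2 (fun s => (N s : ℚ)⁻¹ • c s) (by
    simpa only [b2, smul_smul, Rat.smul_def, Rat.cast_inv, Rat.cast_natCast, b3] using hc)
  simpa only [b2, smul_smul, map_smul, smul_eq_mul, Rat.cast_mul, Rat.cast_inv, Rat.cast_natCast,
    b3] using b4

end

end Pool.Agent.RT
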