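import Pool.Agent.Lib.MP_e97e2b_nt.RM.Z2
import Pool.Agent.Lib.MP_e97e2b_nt.RM.Inj
import Pool.Agent.Lib.MP_e97e2b_nt.RM.Cay

/-! Endomorphisms of the model. -/

set_option autoImplicit false

namespace Pool.Agent.RT

open Matrix Polynomial RG RG.B2 Kronecker
open _root_.M4 (InH E cst)
open _root_.M4.B2 (res cj)

noncomputable section

section lam

variable {m n R S : Type} [Fintype m] [DecidableEq m] [CommRing R] [CommRing S]

omit [Fintype m] [DecidableEq m] in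
theorem d8_eq (A : Matrix m m R) : d8 A = (1 : Matrix (Fin 8) (Fin 8) R) ⊗ₖ A := by
  ext a b
  simp [d8, one_apply]

/-- A matrix in one block, in the coordinates of the model. -/
def lam (G : Matrix n (Fin 8 × m) ℤ) (H : Matrix (Fin 8 × m) n ℤ) (B : Matrix (Fin 8) (Fin 8) ℤ)
    (A : Matrix m m R) : Matrix n n R :=
  G.map (Int.cast : ℤ → R) * (B.map Int.cast ⊗ₖ A) * H.map (Int.cast : ℤ → R)

variable {G : Matrix n (Fin 8 × m) ℤ} {H : Matrix (Fin 8 × m) n ℤ} {D : ℕ}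

omit [DecidableEq m] in
theorem lam_map (f : R →+* S) (B : Matrix (Fin 8) (Fin 8) ℤ) (A : Matrix m m R) :
    (lam G H B A).map f = lam G H B (A.map f) := by
  ext i j
  simp [lam, mul_apply]

theorem lam_mul [Fintype n] (h : H * G = (D : ℤ) • 1) (B B' : Matrix (Fin 8) (Fin 8) ℤ)
    (A A' : Matrix m m R) :
    lam G H B A * lam G H B' A' = (D : R) • lam G H (B * B') (A * A') := by
  rw [lam, lam, lam, Matrix.mul_assoc _ (H.map _), ← Matrix.mul_assoc (H.map _),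
    ← Matrix.mul_assoc (H.map _), zm_cast h, Matrix.smul_mul, Matrix.one_mul, Matrix.smul_mul,
    Matrix.mul_smul, show (B * B').map (Int.cast : ℤ → R) = B.map Int.cast * B'.map Int.cast from
      Matrix.map_mul (f := Int.castRingHom R), mul_kronecker_mul]
  simp only [Matrix.mul_assoc]

omit [DecidableEq m] in
theorem lam_left [Fintype n] {T : Matrix n n R} {C : Matrix m m R}
    (h : T * G.map (Int.cast : ℤ → R) = G.map (Int.cast : ℤ → R) * d8 C) (B : Matrix (Fin 8) (Fin 8) ℤ)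
    (A : Matrix m m R) : T * lam G H B A = lam G H B (C * A) := by
  rw [lam, lam, ← Matrix.mul_assoc, ← Matrix.mul_assoc, h, d8_eq, Matrix.mul_assoc (G.map _),
    ← mul_kronecker_mul, Matrix.one_mul]

omit [DecidableEq m] in
theorem lam_right [Fintype n] {T : Matrix n n R} {C : Matrix m m R}
    (h : H.map (Int.cast : ℤ → R) * T = d8 C * H.map (Int.cast : ℤ → R)) (B : Matrix (Fin 8) (Fin 8) ℤ)
    (A : Matrix m m R) : lam G H B A * T = lam G H B (A * C) := by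
  rw [lam, lam, Matrix.mul_assoc, h, d8_eq, ← Matrix.mul_assoc, Matrix.mul_assoc (G.map _),
    ← mul_kronecker_mul, Matrix.mul_one]

omit [DecidableEq m] in
theorem lam_sum {I : Type} [Fintype I] (B : Matrix (Fin 8) (Fin 8) ℤ) (c : I → R)
    (A : I → Matrix m m R) : ∑ s, c s • lam G H B (A s) = lam G H B (∑ s, c s • A s) := by
  have : B.map Int.cast ⊗ₖ ∑ s, c s • A s = ∑ s, c s • (B.map Int.cast ⊗ₖ A s) := by
    ext i j
    simp [Matrix.sum_apply, Finset.mul_sum, mul_left_comm]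
  simp only [lam, this, Matrix.mul_sum, Matrix.sum_mul, Matrix.mul_smul, Matrix.smul_mul]

theorem lam_inj [Fintype n] (h : H * G = (D : ℤ) • 1) (hD : D ≠ 0) {A : Matrix m m ℂ}
    (hA : lam G H (single 0 1 1) A = 0) : A = 0 := by
  have h1 := congrArg (fun x => H.map (Int.cast : ℤ → ℂ) * x * G.map (Int.cast : ℤ → ℂ)) hA
  simp only [lam, ← Matrix.mul_assoc, zm_cast h, Matrix.smul_mul, Matrix.one_mul] at h1
  rw [Matrix.mul_assoc, zm_cast h, Matrix.mul_smul, Matrix.mul_one, Matrix.mul_zero,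
    Matrix.zero_mul] at h1
  ext i j
  simpa [hD] using congrFun (congrFun h1 (0, i)) (1, j)

end lam

variable [Dim] {τ : Mat}

theorem cst_J (hτ : InH τ) : (cst τ)ᵀ * J ι ℝ = -(J ι ℝ * cst τ) := by
  have h1 : (τ.map Complex.re)ᵀ = τ.map Complex.re := by rw [← transpose_map, hτ.1.eq]
  have h2 : (τ.map Complex.im)ᵀ = τ.map Complex.im := by rw [← transpose_map, hτ.1.eq]
  simp [cst, J, fromBlocks_transpose, fromBlocks_multiply, fromBlocks_neg, transpose_nonsing_inv,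
    h1, h2, Matrix.mul_assoc]

theorem adj_comm (hτ : InH τ) {x : Matrix ν ν ℚ} (h : Commute (toR x) (cst τ)) :
    Commute (toR (adj x)) (cst τ) := by
  have h1 : toR (adj x) = -(J ι ℝ * (toR x)ᵀ * J ι ℝ) := by
    rw [← map_J ι (Algebra.ofId ℚ ℝ)]
    exact (map_neg toR _).trans (by rw [map_mul, map_mul]; rfl)
  have h2 := cst_J hτ
  have h3 : cst τ * J ι ℝ = -(J ι ℝ * (cst τ)ᵀ) := by
    have := congrArg (J ι ℝ * · * J ι ℝ) h2
    simp only [mul_neg, ← mul_assoc, J_squared, neg_mul, one_mul, neg_neg] at this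
    rw [← this, mul_assoc, mul_assoc, J_squared, mul_neg, mul_one, mul_neg]
  have h4 := congrArg transpose h.eq
  rw [transpose_mul, transpose_mul] at h4
  rw [h1]
  refine Commute.neg_left (neg_injective ?_)
  rw [mul_assoc, ← mul_neg, ← h2, ← mul_assoc, mul_assoc (J ι ℝ), ← h4, ← mul_assoc, ← mul_assoc,
    ← mul_assoc, h3, neg_mul, neg_mul, neg_neg]

theorem lam_Sp (hτ : InH τ) {m : Type} [Fintype m] [DecidableEq m] {G : Matrix ν (Fin 8 × m) ℤ}
    {H : Matrix (Fin 8 × m) ν ℤ} {Ω : Matrix m m ℤ} {N D : ℕ} (hD : D ≠ 0)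
    (h1 : G * H = (D : ℤ) • 1) (h2 : H * G = (D : ℤ) • 1)
    (hE : ∀ a b, E (G.map (Int.cast : ℤ → ℝ) *ᵥ a) (G.map (Int.cast : ℤ → ℝ) *ᵥ b) =
      (N : ℝ) ^ 2 * (a ⬝ᵥ (d8 Ω).map (Int.cast : ℤ → ℝ) *ᵥ b)) {C : Matrix m m ℝ}
    (hT : cst τ * G.map (Int.cast : ℤ → ℝ) = G.map (Int.cast : ℤ → ℝ) * d8 C)
    {ψ : Matrix m m ℤ}
    (hψ : Commute (ψ.map Int.cast) C) : (lam G H (single 0 1 1) ψ).map Int.cast ∈ Sp τ := by
  have D0 : (D : ℚ) ≠ 0 := Nat.cast_ne_zero.2 hD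
  have hT' : H.map (Int.cast : ℤ → ℝ) * cst τ = d8 C * H.map (Int.cast : ℤ → ℝ) := by
    have k := congrArg (fun x : Matrix ν (Fin 8 × m) ℝ =>
      H.map (Int.cast : ℤ → ℝ) * x * H.map (Int.cast : ℤ → ℝ)) hT
    simp only [← Matrix.mul_assoc, zm_cast h2, Matrix.smul_mul, Matrix.one_mul] at k
    rw [Matrix.mul_assoc, zm_cast h1, Matrix.mul_smul, Matrix.mul_one] at k
    exact smul_right_injective _ (Nat.cast_ne_zero.2 hD) k
  have k1 : ∀ B (A : Matrix m m ℚ), Commute (A.map (algebraMap ℚ ℝ)) C →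
      Commute (toR (lam G H B A)) (cst τ) := fun B A hA => by
    change (lam G H B A).map (algebraMap ℚ ℝ) * _ = _ * (lam G H B A).map (algebraMap ℚ ℝ)
    rw [lam_map, lam_left hT, lam_right hT', hA.eq]
  have k2 := k1 (single 0 1 1) (ψ.map Int.cast) (by convert hψ using 1; ext; simp)
  set B : Matrix (Fin 8) (Fin 8) ℤ := diagonal fun i => if i = 0 then -1 else 1
  have k3 : (G.map (Int.cast : ℤ → ℚ))ᵀ * J ι ℚ * G.map (Int.cast : ℤ → ℚ) =
      -(N : ℚ) ^ 2 • (1 ⊗ₖ Ω.map Int.cast) := by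
    ext a b
    have k := hE (Pi.single a 1) (Pi.single b 1)
    rw [zl_E, mulVec_mulVec, ← vecMul_transpose, ← dotProduct_mulVec, mulVec_mulVec,
      single_one_dotProduct, single_one_dotProduct, mulVec_single_one, mulVec_single_one] at k
    refine Rat.cast_injective (α := ℝ) (neg_injective ?_)
    rw [← d8_eq, Matrix.mul_assoc, ← map_J ι (Int.castRingHom ℚ)]
    simpa [mul_apply, d8, apply_ite (Int.cast : ℤ → ℝ), apply_ite (Rat.cast : ℚ → ℝ),
      apply_ite (Neg.neg : ℝ → ℝ), -Fintype.sum_sum_type] using k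
  have k4 : (B.map (Int.cast : ℤ → ℚ) ⊗ₖ (1 : Matrix m m ℚ))ᵀ * (1 ⊗ₖ Ω.map Int.cast) *
      (B.map Int.cast ⊗ₖ 1) = 1 ⊗ₖ Ω.map Int.cast := by
    rw [← kroneckerMap_transpose, ← mul_kronecker_mul, ← mul_kronecker_mul, transpose_one,
      Matrix.one_mul, Matrix.mul_one, Matrix.mul_one]
    congr 1
    ext i j
    simp only [B, diagonal_map Int.cast_zero, diagonal_transpose, diagonal_mul_diagonal, one_apply,
      diagonal_apply]
    split_ifs <;> simp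
  have k5 : (lam G H B (1 : Matrix m m ℚ))ᵀ * J ι ℚ * lam G H B 1 = ((D : ℚ) * D) • J ι ℚ := by
    have k6 := congrArg (fun x => (H.map (Int.cast : ℤ → ℚ))ᵀ * x * H.map (Int.cast : ℤ → ℚ)) k3
    simp only [← Matrix.mul_assoc, ← transpose_mul, zm_cast h1] at k6
    rw [Matrix.mul_assoc, zm_cast h1, transpose_smul, transpose_one, smul_mul_assoc, one_mul,
      mul_smul_comm, mul_one, smul_smul, ← k4] at k6
    rw [k6, lam, transpose_mul, transpose_mul, ← Matrix.smul_mul, ← Matrix.mul_smul, ← k3]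
    simp only [Matrix.mul_assoc]
  have k0 : ∀ x, J ι ℚ * (J ι ℚ * x) = -x := fun x => by rw [← mul_assoc, J_squared, neg_one_mul]
  rw [show (lam G H (single 0 1 1) ψ).map (Int.cast : ℤ → ℚ) = _ from
    lam_map (Int.castRingHom ℚ) _ _]
  refine cay toR (cst τ) adj ?_ (fun a b => ?_) (fun a => ?_) (D := (D : ℚ)⁻¹ • lam G H B 1) k2
    (adj_comm hτ k2) ?_ ?_ ?_ ?_
  · simp [adj, J_squared]
  · simp [adj, mul_assoc, k0]
  · simp [adj, mul_assoc, k0, J_squared]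
  · rw [map_smul]
    exact (k1 B 1 (by simp)).smul_left _
  · rw [map_smul, smul_mul_smul_comm]
    change _ • (-(_ * _ * _) * _) = _
    rw [neg_mul, mul_assoc (J ι ℚ), mul_assoc (J ι ℚ), k5, mul_smul_comm, J_squared,
      ← smul_neg, neg_neg, smul_smul, mul_mul_mul_comm, inv_mul_cancel₀ D0, one_mul, one_smul]
  · rw [smul_mul_assoc, lam_mul h2, inv_smul_smul₀ D0, one_mul,
      show B * single 0 1 1 = -single 0 1 1 by decide, lam, lam,
      ← Matrix.neg_mul, ← Matrix.mul_neg]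
    congr 2
    ext
    simp
  · rw [mul_smul_comm, lam_mul h2, inv_smul_smul₀ D0, mul_one,
      show single 0 1 1 * B = single 0 1 1 by decide]

omit [Dim] in
/-- The model, with its endomorphisms. -/
def Mod2 {K : IntermediateField ℚ ℂ} {g : ℕ} (r : Fam (GK K) (κ g)) (C : Matrix (κ g) (κ g) ℝ) :
    Prop :=
  ∃ (_ : Dim) (τ : Mat) (R : Fam (GK K) ν) (G : Matrix ν (Fin 8 × κ g) ℤ)
    (H : Matrix (Fin 8 × κ g) ν ℤ) (D : ℕ), InH τ ∧
    (∀ σ : GK K, Fw τ σ.toRingEquiv fun q => R q σ) ∧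
    (∀ (q : ℕ) [Fact q.Prime] σ (c : ℤ_[q][X]), aeval (R q σ).1 c = 0 ↔ aeval (r q σ).1 c = 0) ∧
    (∀ (q : ℕ) [Fact q.Prime] σ, (R q σ).1 * G.map (Int.cast : ℤ → ℤ_[q]) =
      G.map (Int.cast : ℤ → ℤ_[q]) * d8 (r q σ).1) ∧ D ≠ 0 ∧ H * G = (D : ℤ) • 1 ∧
    ∀ ψ : Matrix (κ g) (κ g) ℤ, Commute (ψ.map Int.cast) C →
      (lam G H (single 0 1 1) ψ).map Int.cast ∈ Sp τ

omit [Dim] in
theorem mod2 {K : IntermediateField ℚ ℂ} {g n : ℕ} {J : Set (MvPolynomial (Fin n) K)}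
    {p : (κ g → ℝ) ≃ₗ[ℝ] (Fin g → ℂ)} {u : (Fin g → ℂ) → Fin n → ℂ} (hg : 1 ≤ g) (h : Unif J p u)
    {r : Fam (GK K) (κ g)} (hr : ∀ σ, Tate (RA p u σ) fun l => r l σ) {C : Matrix (κ g) (κ g) ℝ}
    (hC : ∀ x, p (C *ᵥ x) = Complex.I • p x) : Mod2 r C := by
  obtain ⟨_, τ, R, G, H, Ω, N, D, h1, h2, h3, h4, h5, h6, h7, h8, h9⟩ := z_main2 hg h hr
  refine ⟨_, τ, R, G, H, D, h1, h2, h3, h4, h5, h7, fun ψ => lam_Sp h1 h5 h6 h7 h8
    (Matrix.ext_iff_mulVec.2 fun x => ?_)⟩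
  rw [← mulVec_mulVec, ← mulVec_mulVec]
  refine h9 _ _ (funext fun a => ?_)
  change p (blk (d8 C *ᵥ x) a.1) a.2 = _
  rw [d8_mulVec, hC]
  rfl

theorem lam_rat {P : Nat.Primes} (hτ : InH τ) {e : ℂ ≃+* PadicAlgCl P} (hP : P.1 ≠ 2)
    (hG : Good τ e) (q : ℕ) (t : GQ P) (ht : ∀ x, ‖x‖ ≤ 1 → res (t x) = res x ^ q)
    (R : ∀ l : Nat.Primes, GL ν ℤ_[l]) (h1 : Fw τ (cj e t) R) {l : Nat.Primes} (hl : l ≠ P)
    {m : Type} [Fintype m] [DecidableEq m] {G : Matrix ν (Fin 8 × m) ℤ}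
    {H : Matrix (Fin 8 × m) ν ℤ} {D : ℕ} (hD : D ≠ 0) (h2 : H * G = (D : ℤ) • 1)
    {π : Matrix m m ℤ_[l]}
    (h3 : (R l).1 * G.map (Int.cast : ℤ → ℤ_[l]) = G.map (Int.cast : ℤ → ℤ_[l]) * d8 π)
    {I : Type} [Fintype I] [DecidableEq I] (k : I → ℕ) (ψ : I → Matrix m m ℤ)
    (hψ : ∀ s, (lam G H (single 0 1 1) (ψ s)).map Int.cast ∈ Sp τ) (ε : ℚ_[l] →+* ℂ) :
    ∃ μ : ℂ →ₗ[ℚ] ℚ, μ 1 = 1 ∧ ∀ c : I → ℂ,
      ∑ s, c s • (π.map (fun x : ℤ_[l] => ε x) ^ k s * (ψ s).map Int.cast) = 0 →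
        ∑ s, (μ (c s) : ℂ) • (π.map (fun x : ℤ_[l] => ε x) ^ k s * (ψ s).map Int.cast) = 0 := by
  obtain ⟨μ, m1, m2⟩ := inj_main hτ hP hG q t ht R h1 k _ hψ hl ε
  have a1 : ∀ (j : ℕ) (A : Matrix m m ℤ_[l]),
      (R l).1 ^ j * lam G H (single 0 1 1) A = lam G H (single 0 1 1) (π ^ j * A) := fun j A => by
    induction j with
    | zero => simp
    | succ j ih => rw [pow_succ', mul_assoc, ih, lam_left h3, pow_succ', mul_assoc]
  have a2 : ∀ s, ((R l).1 ^ k s * (lam G H (single 0 1 1) (ψ s)).map Int.cast).map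
      (fun x : ℤ_[l] => ε x) =
      lam G H (single 0 1 1) (π.map (fun x : ℤ_[l] => ε x) ^ k s * (ψ s).map Int.cast) := fun s => by
    rw [show (lam G H (single 0 1 1) (ψ s)).map (Int.cast : ℤ → ℤ_[l]) = _ from
      lam_map (Int.castRingHom ℤ_[l]) _ _, a1]
    refine (lam_map (ε.comp PadicInt.Coe.ringHom) _ _).trans (congrArg _ ?_)
    rw [Matrix.map_mul, ← RingHom.mapMatrix_apply, map_pow]
    congr 1
    ext
    simp
  simp only [a2, lam_sum] at m2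
  exact ⟨μ, m1, fun c hc => lam_inj h2 hD (m2 c (by simp [hc, lam]))⟩

end

end Pool.Agent.RT
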