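import Pool.Agent.Lib.MP_e97e2b_nt.RT.Stmt

/-! Real multiplication. -/

set_option autoImplicit false

namespace Pool.Agent.RT

/-- The linear map `L` of the tangent space induces an endomorphism of `A` that is defined over
`K`, and `L` has `g` distinct real eigenvalues. -/
structure RealMult (K : IntermediateField ℚ ℂ) {g n : ℕ}
    (p : (Fin g ⊕ Fin g → ℝ) ≃ₗ[ℝ] (Fin g → ℂ)) (u : (Fin g → ℂ) → Fin n → ℂ)
    (L : (Fin g → ℂ) →ₗ[ℂ] (Fin g → ℂ)) : Prop where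
  lat : ∀ m : Fin g ⊕ Fin g → ℤ, ∃ m' : Fin g ⊕ Fin g → ℤ,
    L (p fun i => (m i : ℝ)) = p fun i => (m' i : ℝ)
  gal : ∀ (σ : ℂ ≃ₐ[K] ℂ) (z w : Fin g → ℂ), (∃ c : ℂ, ∀ a, σ (u z a) = c * u w a) →
    ∃ c : ℂ, ∀ a, σ (u (L z) a) = c * u (L w) a
  eig : ∃ t : Fin g → ℝ, Function.Injective t ∧ ∀ j, Module.End.HasEigenvalue L (t j : ℂ)

end Pool.Agent.RT
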