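import Pool.Agent.Lib.MP_e97e2b_nt.RT.Main
import Pool.Agent.Lib.MP_e97e2b_nt.RM.Stmt
import Pool.Agent.Lib.MP_e97e2b_nt.RM.Md
import Pool.Agent.Lib.MP_e97e2b_nt.RM.Lin

/-! Frobenius elements of an abelian variety with real multiplication. -/

set_option autoImplicit false

namespace Pool.Agent.RT

open Matrix Polynomial RG RG.B2 Module
open _root_.M4 (InH)
open _root_.M4.B2 (kk res cj IsFrob exists_frob e_cj)

noncomputable section

variable {K : IntermediateField ℚ ℂ} {g n : ℕ} {J : Set (MvPolynomial (Fin n) K)}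
  {p : (κ g → ℝ) ≃ₗ[ℝ] (Fin g → ℂ)} {u : (Fin g → ℂ) → Fin n → ℂ}
  {L : (Fin g → ℂ) →ₗ[ℂ] (Fin g → ℂ)}

theorem rm_data (h : Unif J p u) (hL : RealMult K p u L) {r : Fam (GK K) (κ g)}
    (hr : ∀ σ, Tate (RA p u σ) fun l => r l σ) : ∃ (φ : Matrix (κ g) (κ g) ℤ)
    (C : Matrix (κ g) (κ g) ℝ) (t : Fin g → ℝ) (Φ : _), (∀ x, p (C *ᵥ x) = Complex.I • p x) ∧
      Commute (φ.map Int.cast) C ∧ Dec φ t Φ ∧
      ∀ (l : Nat.Primes) σ, Commute (r l σ).1 (φ.map Int.cast) := by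
  choose m hm using fun j => hL.lat (Pi.single j 1)
  obtain ⟨φ, hφ⟩ : ∃ φ : Matrix (κ g) (κ g) ℤ, ∀ x, p (φ.map Int.cast *ᵥ x) = L (p x) := by
    refine ⟨(Matrix.of m)ᵀ, fun x => LinearMap.congr_fun (show p.toLinearMap ∘ₗ mulVecLin _ =
      L.restrictScalars ℝ ∘ₗ p.toLinearMap from (Pi.basisFun ℝ _).ext fun j => ?_) x⟩
    have e : (fun i => (Pi.single (M := fun _ => ℤ) j 1 i : ℝ)) = Pi.single j 1 := by
      funext i
      simp [Pi.single_apply]
    have k := hm j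
    rw [e] at k
    simp only [Pi.basisFun_apply, LinearMap.comp_apply, mulVecLin_apply, mulVec_single_one]
    exact k.symm
  obtain ⟨C, hC⟩ : ∃ A : Matrix (κ g) (κ g) ℝ, ∀ w, p (A *ᵥ w) = Complex.I • p w :=
    ⟨LinearMap.toMatrix' (p.symm.toLinearMap ∘ₗ
      ((LinearMap.lsmul ℂ (Fin g → ℂ) Complex.I).restrictScalars ℝ) ∘ₗ p.toLinearMap), fun w => by
        rw [LinearMap.toMatrix'_mulVec]; exact p.apply_symm_apply _⟩
  obtain ⟨t, ht, hv⟩ := hL.eig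
  choose v hv using fun j => (hv j).exists_hasEigenvector
  let b := basisOfLinearIndependentOfCardEqFinrank' v (Module.End.eigenvectors_linearIndependent' L
    _ (Complex.ofReal_injective.comp ht) v hv) (by simp)
  obtain ⟨Φ, hΦ⟩ := dec_ex (φ := φ) ht ((Complex.basisOneI.smulTower b).map p.symm) fun i =>
    p.injective (by
      rw [hφ, map_smul, Basis.map_apply, p.apply_symm_apply, Basis.smulTower_apply, map_smul,
        show b i.2 = v i.2 by simp [b], (hv i.2).apply_eq_smul, smul_comm, Complex.coe_smul])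
  refine ⟨φ, C, t, Φ, hC, Matrix.ext_iff_mulVec.2 fun x => p.injective ?_, hΦ, fun l σ =>
    _root_.M4.Un.Ta.inter (rep_gr h σ).un (fun x y k => ?_) (rp_ta (hr σ) l) (rp_ta (hr σ) l)⟩
  · rw [← mulVec_mulVec, ← mulVec_mulVec, hφ, hC, hC, hφ, map_smul]
  · rw [RA, hφ, hφ]
    exact hL.gal σ _ _ k

theorem geo2 [FiniteDimensional ℚ K] (hg : 1 ≤ g) (h : Unif J p u) (l : ℕ) [Fact l.Prime]
    (hH : Heavenly K p u l) : ∃ (r : Fam (GK K) (κ g)) (ex : Fin (2 * g) → ℕ),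
      (∀ σ, Tate (RA p u σ) fun l => r l σ) ∧
      (∀ σ, (bar (r l σ).1).charpoly = ∏ s, (X - C ((kchi K l σ : ZMod l) ^ ex s))) ∧
      (∀ σ : GK K, (∀ x ∈ tower K l, σ x = x) → r l σ = 1) ∧
      (∃ s v, v ≠ 0 ∧ ∀ σ, bar (r l σ).1 *ᵥ v = (kchi K l σ : ZMod l) ^ ex s • v) ∧
      ∀ s, Mod r l fun σ => (kchi K l σ : ZMod l) ^ ex s := by
  obtain ⟨r, hr⟩ := rep_ex h
  obtain ⟨d, hd, B, ex, h1, h2⟩ := gal_flag_GL (kchi K l)
    ((GeneralLinearGroup.map (PadicInt.toZMod (p := l))).comp (r l)) fun s hs =>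
      (repF_pro h hr hH s hs).imp fun k hk => (map_pow _ _ _).symm.trans (Units.ext hk)
  obtain rfl : d = 2 * g := by simp [hd, two_mul]
  refine ⟨r, ex, hr, h2, fun σ hσ => Units.ext (Matrix.ext fun i j => sub_eq_zero.1 ?_),
    ⟨⟨0, by omega⟩, B ⟨0, by omega⟩, B.ne_zero _, fun σ => sub_eq_zero.1 ?_⟩, fun s => ?_⟩
  · refine PadicInt.ext_of_toZModPow.1 fun k => ?_
    rw [map_zero, ← RingHom.mem_ker, PadicInt.ker_toZModPow, Ideal.mem_span_singleton]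
    exact rep_one h hr l k σ (fun m a b => hσ _ (hH k m a b)) i j
  · have h3 := h1 σ ⟨0, by omega⟩
    rwa [show Set.Iio (⟨0, by omega⟩ : Fin (2 * g)) = ∅ from
      Set.eq_empty_of_forall_notMem fun x hx => Nat.not_lt_zero _ hx, Set.image_empty,
      Submodule.span_empty, Submodule.mem_bot] at h3
  · obtain ⟨D, τ, R, y, k1, k2, k3, k4, k5, k6⟩ := z_main hg h hr l
      (Submodule.span (ZMod l) (B '' Set.Iio s)) (x := B s)
      (B.linearIndependent.notMem_span_image (lt_irrefl s)) fun σ w hw => by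
        induction hw using Submodule.span_induction with
        | mem _ hw =>
          obtain ⟨t, ht, rfl⟩ := hw
          have h3 := Submodule.span_mono (Set.image_mono (Set.Iio_subset_Iio ht.le)) (h1 σ t)
          exact (Submodule.sub_mem_iff_left _ (Submodule.smul_mem _ _
            (Submodule.subset_span (Set.mem_image_of_mem B ht)))).1 h3
        | zero => rw [mulVec_zero]; exact zero_mem _
        | add a b _ _ ha hb => rw [mulVec_add]; exact add_mem ha hb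
        | smul c a _ ha => rw [mulVec_smul]; exact Submodule.smul_mem _ _ ha
    exact ⟨D, τ, R, y, k1, k2, k3, k4, k5, fun σ => k6 σ _ (h1 σ s)⟩

theorem no_real {ι : Type} [Fintype ι] {l q : ℕ} [Fact l.Prime] (hq : q.Prime) (ex : ι → ℕ)
    {Q : ℤ[X]} (h : Q.map (Int.castRingHom (ZMod l)) ∣ ∏ s, (X - C ((q : ZMod l) ^ ex s)))
    (h1 : ¬ IsSquare (-(q : ZMod l))) {z : ℂ} (hz : aeval z Q = 0) : z ^ 2 ≠ q := fun e => by
  have a1 : Irreducible (X ^ 2 - C (q : ℚ)) := X_pow_sub_C_irreducible_of_prime Nat.prime_two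
    fun b hb => hq.prime.irreducible.not_isSquare
      (Rat.isSquare_natCast_iff.1 ⟨b, by rw [← hb, sq]⟩)
  have a2 := minpoly.dvd ℚ z (p := Q.map (algebraMap ℤ ℚ)) (by rwa [aeval_map_algebraMap])
  rw [← minpoly.eq_of_irreducible_of_monic a1 (by simp [e]) (monic_X_pow_sub_C _ two_ne_zero)] at a2
  have a3 : X ^ 2 - C (q : ℤ) ∣ Q := (Polynomial.map_dvd_map (algebraMap ℤ ℚ)
    (algebraMap ℤ ℚ).injective_int (monic_X_pow_sub_C _ two_ne_zero)).1 (by simpa using a2)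
  obtain ⟨S, -, hS⟩ := ty_part _ _ ((monic_X_pow_sub_C _ two_ne_zero).map _)
    ((Polynomial.map_dvd _ a3).trans h)
  have a4 : ∀ x : ZMod l, x ^ 2 = q ↔ ∃ s ∈ S, x = (q : ZMod l) ^ ex s := fun x => by
    have := congrArg (eval x) hS
    simp only [Polynomial.map_sub, Polynomial.map_pow, map_X, eval_sub, eval_pow, eval_X,
      eval_C, eval_prod, map_natCast, Polynomial.map_natCast, eval_natCast] at this
    rw [← sub_eq_zero, this, Finset.prod_eq_zero_iff]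
    simp only [sub_eq_zero]
  obtain ⟨s, hs⟩ : S.Nonempty := Finset.nonempty_iff_ne_empty.2 fun e => by
    have := congrArg natDegree hS
    rw [(monic_X_pow_sub_C _ two_ne_zero).natDegree_map, natDegree_X_pow_sub_C, e] at this
    simp at this
  have a5 := (a4 _).2 ⟨s, hs, rfl⟩
  obtain ⟨s', -, a6⟩ := (a4 (-(q : ZMod l) ^ ex s)).1 ((neg_sq _).trans a5)
  have a7 : IsSquare (q : ZMod l) := ⟨_, a5.symm.trans (sq _)⟩
  refine h1 (Eq.mp (congrArg IsSquare ?_) ((a7.pow (ex s)).mul (a7.pow (ex s'))))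
  rw [← a6, mul_neg, ← sq, a5]

/-- `σ` is a Frobenius element at `q`, and `σ + q σ⁻¹` has the eigenvalues `β`. -/
def Fr (r : Fam (GK K) (κ g)) (L : Nat.Primes) (ε : ℚ_[L] →+* ℂ)
    (Φ : (Fin g → Matrix (Fin 2) (Fin 2) ℂ) →ₐ[ℂ] Matrix (κ g) (κ g) ℂ) (q : ℕ) (σ : GK K)
    (β : Fin g → ℝ) : Prop :=
  (kchi K L σ : ZMod L) = q ∧
    ((r L σ).1 + (q : ℤ_[L]) • (r L σ⁻¹).1).map (fun x : ℤ_[L] => ε x) =
      Φ (fun j => (β j : ℂ) • 1) ∧
    (∃ B : Matrix (κ g) (κ g) ℚ, B.map Rat.cast = Φ fun j => (β j : ℂ) • 1) ∧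
    ∀ j, β j ^ 2 ≤ 4 * q ∧ IsIntegral ℤ (β j : ℂ)

theorem frob2 [NumberField K] (hg : 1 ≤ g) {P L : Nat.Primes} {e : ℂ ≃+* PadicAlgCl P}
    {d : GQ P →* GK K} (hd : ∀ t, (d t).toRingEquiv = cj e t) (hne : P.1 ≠ L.1) (h2' : P.1 ≠ 2)
    {r : Fam (GK K) (κ g)} {ex : Fin (2 * g) → ℕ}
    (h1 : ∀ σ, (bar (r L σ).1).charpoly = ∏ s, (X - C ((kchi K L σ : ZMod L) ^ ex s)))
    (h2 : ∀ σ : GK K, (∀ x ∈ tower K L, σ x = x) → r L σ = 1) {φ : Matrix (κ g) (κ g) ℤ}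
    {c : Matrix (κ g) (κ g) ℝ} (h3 : Mod2 r c) (h4 : Commute (φ.map Int.cast) c) {t : Fin g → ℝ}
    {Φ : _} (h5 : Dec φ t Φ) (h6 : ∀ σ, Commute (r L σ).1 (φ.map Int.cast)) (ε : ℚ_[L] →+* ℂ)
    (h7 : ¬ IsSquare (-(P.1 : ZMod L))) : ∃ σ β, Fr r L ε Φ P σ β := by
  obtain ⟨_, τ, R, G, H, D, hτ, hF, hA, hR, hD, hHG, hψ⟩ := h3
  have hne' : L ≠ P := fun h => hne (congrArg Subtype.val h).symm
  have hF' : ∀ t, Fw τ (cj e t) fun q => R q (d t) := fun t => hd t ▸ hF (d t)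
  have hG : Good τ e := nos hτ h2' (fun q _ => ((R q).comp d).comp (Inr P).subtype)
    (fun t => hF' t) L hne fun t => by
      have h4 : r L (d t) = 1 := h2 _ (tower_inertia L.2 hne e _ fun x hx => by
        rw [show d t x = cj e t x from congrArg (· x) (hd t), e_cj]
        exact t.2 _ (norm_le_of_int (hx.map e.toRingHom.toIntAlgHom)))
      have h5 := (hA L (d t) (X - 1)).2 (by simp [h4])
      rw [map_sub, aeval_X, map_one, sub_eq_zero] at h5
      exact Units.ext h5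
  obtain ⟨s, hs⟩ := exists_frob (p := P)
  obtain ⟨Q, hQ, hQ1, hQ2⟩ := weil hτ h2' hG P s (fun x hx => hs.res hx) _ (hF' s) (by
    have h4 := hF' s⁻¹
    simp only [map_inv] at h4
    exact h4)
  have := (m_card hg).1
  have k0 : Ann (r L (d s)).1 Q := fun c => (hA L _ c).symm.trans (hQ1 L hne' c)
  have k1 := (a_ann hQ k0).2.2.1
  have k2 := m_chi (hd s) (chi_frob hs L.2 hne)
  rw [h1, k2] at k1
  let f : Matrix (κ g) (κ g) ℤ_[L] →+* Matrix (κ g) (κ g) ℂ :=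
    (ε.comp PadicInt.Coe.ringHom).mapMatrix
  have k3 : ∀ A : Matrix (κ g) (κ g) ℤ, f (A.map Int.cast) = A.map Int.cast := fun A => by
    ext
    simp [f]
  obtain ⟨μ, m1, m2⟩ := lam_rat hτ h2' hG P s (fun x hx => hs.res hx) _ (hF' s) hne' hD hHG
    (hR L (d s)) (I := Option (Fin g ⊕ Fin g)) (fun i => i.elim 2 (Sum.elim 1 0))
    (fun i => φ ^ i.elim 0 (Sum.elim (↑) (↑))) (fun i => hψ _ (by
      rw [show (φ ^ _).map Int.cast = _ from map_pow (Int.castRingHom ℝ).mapMatrix φ _]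
      exact h4.pow_left _)) ε
  have k4 : ∀ j : ℕ, (φ ^ j).map (Int.cast : ℤ → ℂ) = φ.map Int.cast ^ j := fun j =>
    map_pow (Int.castRingHom ℂ).mapMatrix φ j
  have hf : ∀ A, f A = A.map (fun x : ℤ_[L] => ε x) := fun _ => rfl
  obtain ⟨B, β, b1, b2, b3⟩ := lin_main h5 (A := f (r L (d s)).1) (A' := f (r L (d s)⁻¹).1)
    (k3 φ ▸ (h6 _).map f) (by rw [← map_mul, map_inv, Units.inv_mul, map_one])
    (fun a b hab => ⟨fun i => μ (a i), fun i => μ (b i), by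
      simpa [Rel2, k4, add_assoc, m1, hf] using m2 (fun i => i.elim 1 (Sum.elim a b))
        (by simpa [Rel2, k4, add_assoc, hf] using hab)⟩) hQ
    (fun z hz => ⟨hQ2 z hz, no_real P.2 ex k1 h7 hz⟩) (by
      exact (aeval_algHom_apply f.toIntAlgHom _ Q).trans ((congrArg f
        ((RG.B2.wq_aeval _ Q).trans ((k0 _).2 dvd_rfl))).trans (map_zero f)))
  refine ⟨d s, β, k2, Eq.trans ?_ b1, ⟨B, b2⟩, b3⟩
  ext
  simp [f]

end

end Pool.Agent.RT
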