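import Pool.Agent.Lib.MP_33b3f9_ag.M4.DetB

/-! Matrices that commute with a diagonalisable matrix whose eigenvalues are double. -/

set_option autoImplicit false

namespace Pool.Agent.RT

open Matrix Polynomial Module

variable {m : Type} [Fintype m] [DecidableEq m] {g : ℕ} {φ : Matrix m m ℤ} {t : Fin g → ℂ}
  {Φ : (Fin g → Matrix (Fin 2) (Fin 2) ℂ) →ₐ[ℂ] Matrix m m ℂ}

/-- The centraliser of `φ` is a product of matrix algebras of size two. -/
structure Dc (φ : Matrix m m ℤ) (t : Fin g → ℂ)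
    (Φ : (Fin g → Matrix (Fin 2) (Fin 2) ℂ) →ₐ[ℂ] Matrix m m ℂ) : Prop where
  inj : Function.Injective Φ
  tinj : Function.Injective t
  phi : Φ (fun j => t j • 1) = φ.map Int.cast
  sur : ∀ A, Commute A (φ.map Int.cast) → ∃ M, Φ M = A
  root : ∀ z, aeval z φ.charpoly = 0 ↔ ∃ j, t j = z

theorem dc_of (ht : Function.Injective t) (P : Matrix m (Fin 2 × Fin g) ℂ)
    (P' : Matrix (Fin 2 × Fin g) m ℂ) (h1 : P * P' = 1) (h2 : P' * P = 1)
    (h3 : φ.map (Int.cast : ℤ → ℂ) * P = P * diagonal fun i : Fin 2 × Fin g => t i.2)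
    (h6 : ∀ z, aeval z φ.charpoly = 0 ↔ ∃ j, t j = z) :
    ∃ Φ, Dc φ t Φ := by
  have h4 : blockDiagonal (fun j => t j • (1 : Matrix (Fin 2) (Fin 2) ℂ)) =
      diagonal fun i : Fin 2 × Fin g => t i.2 := by
    simp only [smul_one_eq_diagonal, blockDiagonal_diagonal]
  have h5 : ∀ A : Matrix (Fin 2 × Fin g) (Fin 2 × Fin g) ℂ, P' * (P * A * P') * P = A := fun A => by
    simp only [← Matrix.mul_assoc, h2, Matrix.one_mul]
    rw [Matrix.mul_assoc, h2, Matrix.mul_one]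
  obtain ⟨F, hF⟩ : ∃ F : (Fin g → Matrix (Fin 2) (Fin 2) ℂ) → Matrix m m ℂ,
    ∀ M, F M = P * blockDiagonal M * P' := ⟨_, fun _ => rfl⟩
  refine ⟨AlgHom.ofLinearMap ⟨⟨F, fun M N => ?_⟩, fun c M => ?_⟩ (show F 1 = 1 from ?_)
    fun M N => show F (fun k => M k * N k) = F M * F N from ?_,
    fun M N (h : F M = F N) => blockDiagonal_injective ?_, ht, show F _ = _ from ?_,
    fun A hA => ⟨blockDiag (P' * A * P), show F _ = _ from ?_⟩, h6⟩
  · rw [hF, hF, hF, blockDiagonal_add, Matrix.mul_add, Matrix.add_mul]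
  · simp only [hF, blockDiagonal_smul, Matrix.mul_smul, Matrix.smul_mul, RingHom.id_apply]
  · rw [hF, blockDiagonal_one, Matrix.mul_one, h1]
  · rw [hF, hF, hF, blockDiagonal_mul, Matrix.mul_assoc _ P', ← Matrix.mul_assoc P',
      ← Matrix.mul_assoc P', h2, Matrix.one_mul]
    simp only [Matrix.mul_assoc]
  · rw [← h5 (blockDiagonal M), ← hF, h, hF, h5]
  · rw [hF, h4, ← h3, Matrix.mul_assoc, h1, Matrix.mul_one]
  · have k1 : P' * φ.map (Int.cast : ℤ → ℂ) =
        (diagonal fun i : Fin 2 × Fin g => t i.2) * P' := by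
      rw [← h5 (diagonal _), ← h3, Matrix.mul_assoc _ P P', h1, Matrix.mul_one, Matrix.mul_assoc,
        h1, Matrix.mul_one]
    have k2 : (P' * A * P * diagonal fun i : Fin 2 × Fin g => t i.2) =
        (diagonal fun i : Fin 2 × Fin g => t i.2) * (P' * A * P) := by
      rw [Matrix.mul_assoc, ← h3, ← Matrix.mul_assoc, Matrix.mul_assoc P', hA.eq,
        ← Matrix.mul_assoc, k1, Matrix.mul_assoc, Matrix.mul_assoc, Matrix.mul_assoc]
    have k3 : blockDiagonal (blockDiag (P' * A * P)) = P' * A * P := by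
      ext ⟨a, i⟩ ⟨c, j⟩
      rw [blockDiagonal_apply']
      split_ifs with h
      · subst h
        rfl
      · have k4 := congrFun (congrFun k2 (a, i)) (c, j)
        rw [mul_diagonal, diagonal_mul, mul_comm, mul_eq_mul_right_iff] at k4
        exact (k4.resolve_left fun e => h (ht e).symm).symm
    rw [hF, k3, Matrix.mul_assoc P', ← Matrix.mul_assoc P, h1, Matrix.one_mul, Matrix.mul_assoc, h1,
      Matrix.mul_one]

theorem dc_ex {P : ℂ[X]} (h1 : P.Separable) (h2 : aeval (φ.map (Int.cast : ℤ → ℂ)) P = 0)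
    (h3 : (φ.map (Int.cast : ℤ → ℂ)).charpoly = P ^ 2) (hm : Fintype.card m = 2 * g) :
    ∃ (t : Fin g → ℂ) (Φ : _), Dc φ t Φ := by
  have a0 : P * P ≠ 0 := by rw [← sq, ← h3]; exact (charpoly_monic _).ne_zero
  have a1 : P ≠ 0 := left_ne_zero_of_mul a0
  have a2 : Fintype.card (P.rootSet ℂ) = g := by
    have := congrArg natDegree h3
    rw [charpoly_natDegree_eq_dim, natDegree_pow, hm] at this
    rw [card_rootSet_eq_natDegree h1 (IsAlgClosed.splits _)]
    omega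
  obtain ⟨t, t1, t2⟩ : ∃ t : Fin g → ℂ, Function.Injective t ∧ ∀ z, P.IsRoot z ↔ ∃ j, t j = z :=
    ⟨fun j => (Fintype.equivFinOfCardEq a2).symm j, Subtype.val_injective.comp (Equiv.injective _),
      fun z => ⟨fun h => ⟨Fintype.equivFinOfCardEq a2 ⟨z, mem_rootSet.2 ⟨a1, h⟩⟩, by simp⟩,
        fun ⟨j, h⟩ => h ▸ (mem_rootSet.1 (Subtype.prop _)).2⟩⟩
  let f : End ℂ (m → ℂ) := toLinAlgEquiv' (φ.map (Int.cast : ℤ → ℂ))
  have a3 : f.IsSemisimple := End.isSemisimple_of_squarefree_aeval_eq_zero h1.squarefree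
    ((aeval_algHom_apply toLinAlgEquiv'.toAlgHom _ P).trans (by rw [h2, map_zero]))
  have a4 : ∀ z, finrank ℂ (f.eigenspace z) = 2 * P.rootMultiplicity z := fun z => by
    rw [← (End.isFinitelySemisimple_iff_isSemisimple.2 a3).maxGenEigenspace_eq_eigenspace,
      LinearMap.finrank_maxGenEigenspace_eq, show f.charpoly = _ from charpoly_toLin' _, h3, sq,
      rootMultiplicity_mul a0, two_mul]
  have a5 := DirectSum.isInternal_submodule_of_iSupIndep_of_iSup_eq_top
    (f.eigenspaces_iSupIndep.comp t1) (top_unique (a3.iSup_eigenspace_eq_top.ge.trans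
      (iSup_le fun z => by
        by_cases h : P.IsRoot z
        · obtain ⟨j, rfl⟩ := (t2 z).1 h
          exact le_iSup (f.eigenspace ∘ t) j
        · exact (Submodule.finrank_eq_zero.1 (by rw [a4, rootMultiplicity_eq_zero h])).le.trans
            bot_le)))
  let b := (a5.collectedBasis fun j => finBasisOfFinrankEq ℂ _ (n := 2) (by
    have := (rootMultiplicity_pos a1).2 ((t2 _).2 ⟨j, rfl⟩)
    have := rootMultiplicity_le_one_of_separable h1 (t j)
    rw [Function.comp_apply, a4]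
    omega)).reindex ((Equiv.sigmaEquivProd _ _).trans (Equiv.prodComm _ _))
  have hb : ∀ i, φ.map (Int.cast : ℤ → ℂ) *ᵥ b i = t i.2 • b i := fun i => by
    rw [Basis.reindex_apply]
    exact End.mem_eigenspace_iff.1 (a5.collectedBasis_mem _ _)
  refine ⟨t, dc_of t1 ((Pi.basisFun ℂ m).toMatrix b) (b.toMatrix (Pi.basisFun ℂ m))
    (Basis.toMatrix_mul_toMatrix_flip _ _) (Basis.toMatrix_mul_toMatrix_flip _ _)
    (Matrix.ext fun a i => ?_) fun z => ?_⟩
  · rw [mul_diagonal, mul_apply]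
    simpa [Basis.toMatrix_apply, mulVec, dotProduct, mul_comm] using congrFun (hb i) a
  · rw [← t2, aeval_def, eval₂_eq_eval_map, ← charpoly_map, algebraMap_int_eq, Int.coe_castRingHom,
      h3, eval_pow, sq_eq_zero_iff, IsRoot.def]

theorem Dc.perm (h : Dc φ t Φ) (θ : ℂ →+* ℂ) :
    ∃ s : Fin g → Fin g, Function.Bijective s ∧ ∀ j, θ (t j) = t (s j) := by
  choose s hs using fun j => (h.root (θ (t j))).1
    ((aeval_algHom_apply θ.toIntAlgHom _ _).trans (by rw [(h.root _).2 ⟨j, rfl⟩, map_zero]))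
  exact ⟨s, Finite.injective_iff_bijective.1 fun i j e =>
    h.tinj (θ.injective (by rw [← hs, ← hs, e])), fun j => (hs j).symm⟩

omit [DecidableEq m] in
theorem rel_any {I : Type} [Fintype I] [DecidableEq I] (x : I → Matrix m m ℂ) {μ : ℂ →ₗ[ℚ] ℚ}
    (h1 : μ 1 = 1) (h2 : ∀ c : I → ℂ, ∑ s, c s • x s = 0 → ∑ s, (μ (c s) : ℂ) • x s = 0)
    (θ : ℂ →+* ℂ) (c : I → ℂ) (hc : ∑ s, c s • x s = 0) : ∑ s, θ (c s) • x s = 0 := by
  let ρ := Fintype.linearCombination ℚ x
  obtain ⟨γ, hγ⟩ := ρ.rangeRestrict.exists_rightInverse_of_surjective ρ.range_rangeRestrict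
  let π := γ ∘ₗ ρ.rangeRestrict
  have a1 : ∀ s, x s = ∑ i, (π (Pi.single s 1) i : ℂ) • x i := fun s => by
    have := congrArg Subtype.val (LinearMap.congr_fun hγ (ρ.rangeRestrict (Pi.single s 1)))
    simpa [ρ, π, Fintype.linearCombination_apply, Rat.cast_smul_eq_qsmul, Pi.single_apply]
      using this.symm
  have a2 : ∀ i, ∑ s, c s * π (Pi.single s 1) i = 0 := fun i => by
    by_contra H
    have b1 := h2 (fun s => (∑ s, c s * π (Pi.single s 1) i)⁻¹ * c s) (by
      simp only [mul_smul, ← Finset.smul_sum, hc, smul_zero])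
    have b2 : π (fun s => μ ((∑ s, c s * π (Pi.single s 1) i)⁻¹ * c s)) = 0 := by
      rw [LinearMap.comp_apply, show ρ.rangeRestrict _ = 0 from Subtype.ext (by
        simpa [ρ, Fintype.linearCombination_apply, Rat.cast_smul_eq_qsmul] using b1), map_zero]
    rw [LinearMap.pi_apply_eq_sum_univ] at b2
    have b3 := congrFun b2 i
    have b4 := congrArg μ (inv_mul_cancel₀ H)
    rw [h1, Finset.mul_sum, map_sum] at b4
    refine one_ne_zero (b4.symm.trans (Eq.trans ?_ b3))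
    rw [Finset.sum_apply]
    refine Finset.sum_congr rfl fun s _ => ?_
    rw [← mul_assoc, mul_comm, ← Rat.smul_def, map_smul, Pi.smul_apply, smul_eq_mul, smul_eq_mul,
      mul_comm, show Pi.single s 1 = fun j => if s = j then (1 : ℚ) else 0 from
        funext fun j => by simp [Pi.single_apply, eq_comm]]
  calc ∑ s, θ (c s) • x s = ∑ s, ∑ i, θ (c s * π (Pi.single s 1) i) • x i :=
        Finset.sum_congr rfl fun s _ => by
          rw [a1 s, Finset.smul_sum]
          simp only [smul_smul, map_mul, map_ratCast]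
    _ = 0 := by
      rw [Finset.sum_comm]
      simp only [← Finset.sum_smul, ← map_sum, a2, map_zero, zero_smul, Finset.sum_const_zero]

/-- The relations between `A` and `φ` are defined over the rational numbers. -/
def Stab (φ : Matrix m m ℤ) (g : ℕ) (A : Matrix m m ℂ) : Prop :=
  ∀ (θ : ℂ →+* ℂ) (c : Fin 3 × Fin g → ℂ),
    ∑ s, c s • (A ^ (s.1 : ℕ) * φ.map (Int.cast : ℤ → ℂ) ^ (s.2 : ℕ)) = 0 →
      ∑ s, θ (c s) • (A ^ (s.1 : ℕ) * φ.map (Int.cast : ℤ → ℂ) ^ (s.2 : ℕ)) = 0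

theorem Dc.step (h : Dc φ t Φ) {M : Fin g → Matrix (Fin 2) (Fin 2) ℂ} (hs : Stab φ g (Φ M))
    (θ : ℂ →+* ℂ) {j j' : Fin g} (e : θ (t j) = t j') (x : Fin 3 → ℂ)
    (hx : ∑ k, x k • M j ^ (k : ℕ) = 0) : ∑ k, θ (x k) • M j' ^ (k : ℕ) = 0 := by
  have a1 : ∀ (θ : ℂ →+* ℂ) (a : Fin g → ℂ), ∑ s : Fin 3 × Fin g, θ (x s.1 * a s.2) •
      (Φ M ^ (s.1 : ℕ) * φ.map (Int.cast : ℤ → ℂ) ^ (s.2 : ℕ)) = 0 ↔
      ∀ i, (∑ k, θ (a k) * t i ^ (k : ℕ)) • ∑ k, θ (x k) • M i ^ (k : ℕ) = 0 := fun θ a => by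
    simp only [← h.phi, ← map_pow, ← map_mul Φ, ← map_smul, ← map_sum, map_eq_zero_iff Φ h.inj,
      funext_iff (f := (_ : Fin g → Matrix (Fin 2) (Fin 2) ℂ))]
    refine forall_congr' fun i => Eq.congr_left ?_
    simp only [Finset.sum_apply, Pi.smul_apply, Pi.mul_apply, Pi.pow_apply, _root_.smul_pow, one_pow,
      mul_smul_comm, mul_one, smul_smul, Finset.smul_sum, Finset.sum_smul, Fintype.sum_prod_type,
      map_mul, Finset.sum_mul]
    refine Finset.sum_congr rfl fun k _ => Finset.sum_congr rfl fun k' _ => ?_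
    congr 1
    ring
  obtain ⟨a, ha⟩ := mulVec_surjective_iff_isUnit.2 ((isUnit_iff_isUnit_det _).2
    (det_vandermonde_ne_zero_iff.2 h.tinj).isUnit) (Pi.single j 1)
  have a2 : ∀ i, ∑ k, a k * t i ^ (k : ℕ) = Pi.single (M := fun _ => ℂ) j 1 i := fun i => by
    simpa [mulVec, dotProduct, mul_comm] using congrFun ha i
  have a3 := (a1 θ a).1 (hs θ _ ((a1 (RingHom.id ℂ) a).2 fun i => by
    simp only [RingHom.id_apply, a2]
    by_cases k : i = j
    · rw [k, hx, smul_zero]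
    · rw [Pi.single_eq_of_ne k, zero_smul])) j'
  have a4 := congrArg θ (a2 j)
  simp only [map_sum, map_mul, map_pow, e, Pi.single_eq_same, map_one] at a4
  rwa [a4, one_smul] at a3

theorem two_ch (M : Matrix (Fin 2) (Fin 2) ℂ) : M * M = trace M • M - det M • 1 := by
  ext i j
  fin_cases i <;> fin_cases j <;> simp [mul_apply, trace_fin_two, det_fin_two] <;> ring

theorem two_eqv {M M' : Matrix (Fin 2) (Fin 2) ℂ} (θ : ℂ ≃+* ℂ)
    (h : ∀ x : Fin 3 → ℂ, ∑ k, x k • M ^ (k : ℕ) = 0 → ∑ k, θ (x k) • M' ^ (k : ℕ) = 0)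
    (h' : ∀ x : Fin 3 → ℂ, ∑ k, x k • M' ^ (k : ℕ) = 0 → ∑ k, θ.symm (x k) • M ^ (k : ℕ) = 0) :
    θ (trace M) = trace M' ∧ θ (det M) = det M' := by
  have a1 := h ![det M, -trace M, 1] (by simp [Fin.sum_univ_three, sq, two_ch]; abel)
  simp only [Fin.sum_univ_three, cons_val_zero, cons_val_one, cons_val_two, Fin.val_zero, pow_zero,
    Fin.val_one, pow_one, Fin.val_two, sq, two_ch, map_neg, tail_cons, head_cons, map_one,
    one_smul] at a1
  have a2 : (trace M' - θ (trace M)) • M' = (det M' - θ (det M)) • 1 := by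
    linear_combination (norm := module) a1
  have a3 : θ (trace M) = trace M' := by
    by_contra H
    obtain ⟨c, rfl⟩ : ∃ c : ℂ, M' = c • 1 :=
      ⟨_, by rw [← inv_smul_smul₀ (sub_ne_zero.2 (Ne.symm H)) M', a2, smul_smul]⟩
    have a4 := h' ![-c, 1, 0] (by simp [Fin.sum_univ_three])
    obtain rfl : M = θ.symm c • 1 := by
      symm
      simpa [Fin.sum_univ_three, neg_add_eq_zero] using a4
    exact H (by simp [map_ofNat])
  rw [a3, sub_self, zero_smul, eq_comm, smul_eq_zero, sub_eq_zero] at a2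
  exact ⟨a3, (a2.resolve_right one_ne_zero).symm⟩

theorem two_root (M : Matrix (Fin 2) (Fin 2) ℂ) : ∃ a b : ℂ, det M = a * b ∧
    (∀ k, trace (M ^ k) = a ^ k + b ^ k) ∧
      ∀ Q : ℂ[X], aeval M Q = 0 → Q.IsRoot a ∧ Q.IsRoot b := by
  obtain ⟨s, hs⟩ := IsAlgClosed.exists_pow_nat_eq (trace M ^ 2 - 4 * det M) two_pos
  have a1 : ∀ z : ℂ, z ^ 2 - trace M * z + det M = 0 → ∀ Q : ℂ[X], aeval M Q = 0 → Q.IsRoot z :=
    fun z hz Q hQ => by
      have := spectrum.subset_polynomial_aeval M Q ⟨z, mem_spectrum_iff_isRoot_charpoly.2 (by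
        simpa [charpoly_fin_two] using hz), rfl⟩
      rwa [hQ, spectrum.zero_eq] at this
  refine ⟨(trace M + s) / 2, (trace M - s) / 2, by linear_combination hs / 4, fun k => ?_,
    fun Q hQ => ⟨a1 _ (by linear_combination hs / 4) Q hQ, a1 _ (by linear_combination hs / 4) Q hQ⟩⟩
  induction k using Nat.twoStepInduction with
  | zero => simp [one_add_one_eq_two]
  | one => simp only [pow_one]; ring
  | more k h1 h2 =>
    rw [pow_add, sq, two_ch, mul_sub, mul_smul_comm, mul_smul_comm, mul_one, ← pow_succ, trace_sub,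
      trace_smul, trace_smul, h1, h2, smul_eq_mul, smul_eq_mul]
    linear_combination (((trace M + s) / 2) ^ k + ((trace M - s) / 2) ^ k) * -hs / 4

/-- A vector on which the automorphisms act as on `t`. -/
def Eqv (t u : Fin g → ℂ) : Prop := ∀ (θ : ℂ ≃+* ℂ) j j', θ (t j) = t j' → θ (u j) = u j'

theorem lin_frob (h : Dc φ t Φ) {M M' : Fin g → Matrix (Fin 2) (Fin 2) ℂ} (hs : Stab φ g (Φ M))
    (hM : M' * M = 1) {Q : ℤ[X]} (hQ : Q.Monic) {p : ℕ}
    (h1 : ∀ z : ℂ, aeval z Q = 0 → ‖z‖ ^ 2 = p) (h2 : aeval (Φ M) Q = 0) :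
    Eqv t (fun j => trace (M j)) ∧ Eqv t (fun j => star (trace (M j))) ∧
      ∀ j, ‖trace (M j)‖ ^ 2 ≤ 4 * p ∧ IsIntegral ℤ (trace (M j)) ∧
        star (trace (M j)) = p * trace (M' j) := by
  have a1 := fun (θ : ℂ ≃+* ℂ) j j' (e : θ (t j) = t j') => two_eqv θ (h.step hs θ e)
    (h.step hs θ.symm (θ.symm_apply_eq.2 e.symm))
  have a2 : aeval M Q = 0 :=
    h.inj ((aeval_algHom_apply Φ.toRingHom.toIntAlgHom M Q).symm.trans (h2.trans (map_zero _).symm))
  have a3 : ∀ j, det (M j) ≠ 0 := fun j => det_ne_zero_of_left_inverse (congrFun hM j)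
  have a4 : ∀ j, ‖trace (M j)‖ ^ 2 ≤ 4 * p ∧ IsIntegral ℤ (trace (M j)) ∧
      star (trace (M j)) * det (M j) = p * trace (M j) := fun j => by
    obtain ⟨a, b, k1, k2, k3⟩ := two_root (M j)
    have k4 := k3 (Q.map (algebraMap ℤ ℂ)) ((aeval_map_algebraMap _ _ _).trans ((aeval_algHom_apply
      (Pi.evalRingHom (fun _ => Matrix (Fin 2) (Fin 2) ℂ) j).toIntAlgHom M Q).trans
        (congrFun a2 j)))
    simp only [IsRoot.def, eval_map_algebraMap] at k4
    have k5 : ∀ z : ℂ, aeval z Q = 0 → z * star z = p := fun z hz => by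
      rw [Complex.star_def, Complex.mul_conj', ← Complex.ofReal_pow, h1 z hz, Complex.ofReal_natCast]
    rw [← pow_one (M j), k2, pow_one, pow_one, pow_one, k1]
    refine ⟨?_, IsIntegral.add ⟨Q, hQ, k4.1⟩ ⟨Q, hQ, k4.2⟩, ?_⟩
    · nlinarith [pow_le_pow_left₀ (norm_nonneg _) (norm_add_le a b) 2, h1 a k4.1, h1 b k4.2,
        sq_nonneg (‖a‖ - ‖b‖)]
    · rw [star_add]
      linear_combination b * k5 a k4.1 + a * k5 b k4.2
  refine ⟨fun θ j j' e => (a1 θ j j' e).1, fun θ j j' e => mul_right_cancel₀ (a3 j') ?_,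
    fun j => ⟨(a4 j).1, (a4 j).2.1, mul_right_cancel₀ (a3 j) ?_⟩⟩
  · have := congrArg θ (a4 j).2.2
    rwa [map_mul, map_mul, map_natCast, (a1 θ j j' e).1, (a1 θ j j' e).2, ← (a4 j').2.2] at this
  · have k : M' j * M j = 1 := congrFun hM j
    have := congrArg (fun A => trace (M' j * A)) (two_ch (M j))
    simp only [← mul_assoc, k, one_mul, mul_sub, mul_smul_comm, mul_one, trace_sub, trace_smul,
      trace_one, smul_eq_mul, Fintype.card_fin, Nat.cast_ofNat] at this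
    linear_combination (a4 j).2.2 - p * this

theorem lin_int (h : Dc φ t Φ) {u v : Fin g → ℂ} (hu : Eqv t u) (hv : Eqv t v)
    (h1 : ∀ j, IsIntegral ℤ (u j)) (h2 : ∀ j, IsIntegral ℤ (v j)) :
    ∃ n : ℤ, (n : ℂ) = ∑ j, u j * v j := by
  have a1 : IsIntegral ℤ (∑ j, u j * v j) := IsIntegral.sum _ fun j _ => (h1 j).mul (h2 j)
  obtain ⟨x, hx⟩ := IntermediateField.mem_bot.1 (M4.Det.mem_of_fixed ⊥
    (a1.tower_top (A := ℚ)).isAlgebraic fun σ => by
      obtain ⟨s, s1, s2⟩ := h.perm σ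
      rw [map_sum]
      exact Fintype.sum_bijective s s1 _ _ fun j => (map_mul σ _ _).trans
        (congrArg₂ _ (hu σ.toRingEquiv _ _ (s2 j)) (hv σ.toRingEquiv _ _ (s2 j))))
  obtain ⟨n, hn⟩ := (IsIntegrallyClosed.isIntegral_iff (R := ℤ) (K := ℚ)).1
    ((isIntegral_algebraMap_iff (algebraMap ℚ ℂ).injective).1 (hx ▸ a1))
  exact ⟨n, by rw [← hx, ← hn]; simp⟩

/-- A real vector of the same length. -/
noncomputable def rv (u : Fin g → ℂ) (j : Fin g) : ℝ := ((u j).re + (u j).im) / √2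

theorem rv_sq (u : Fin g → ℂ) (j : Fin g) : rv u j ^ 2 ≤ ‖u j‖ ^ 2 := by
  rw [rv, div_pow, Real.sq_sqrt two_pos.le, Complex.sq_norm, Complex.normSq_apply]
  nlinarith [sq_nonneg ((u j).re - (u j).im)]

theorem rv_mul (h : Dc φ t Φ) {u v : Fin g → ℂ} (hu : Eqv t u) (hv : Eqv t v) :
    (∑ j, u j * star (v j)).re = 2 * ∑ j, rv u j * rv v j := by
  obtain ⟨s, s1, s2⟩ := h.perm (starRingEnd ℂ)
  have a1 : ∑ j, -((u j).re * (v j).im + (u j).im * (v j).re) =
      ∑ j, ((u j).re * (v j).im + (u j).im * (v j).re) := Fintype.sum_bijective s s1 _ _ fun j => by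
    rw [← hu starRingAut _ _ (s2 j), ← hv starRingAut _ _ (s2 j)]
    simp [add_comm]
  have a2 : ∀ j, 2 * (rv u j * rv v j) =
      (u j * star (v j)).re + ((u j).re * (v j).im + (u j).im * (v j).re) := fun j => by
    rw [rv, rv, div_mul_div_comm, Real.mul_self_sqrt two_pos.le]
    simp
    ring
  rw [Finset.sum_neg_distrib] at a1
  simp only [Finset.mul_sum, a2, Finset.sum_add_distrib, Complex.re_sum] at a1 ⊢
  linarith

theorem rv_inj (h : Dc φ t Φ) {u v : Fin g → ℂ} (hu : Eqv t u) (hv : Eqv t v)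
    (e : rv u = rv v) : u = v := funext fun j => by
  obtain ⟨s, -, s2⟩ := h.perm (starRingEnd ℂ)
  have a1 := congrFun e j
  have a2 := congrFun e (s j)
  rw [rv, rv, ← hu starRingAut _ _ (s2 j), ← hv starRingAut _ _ (s2 j)] at a2
  rw [rv, rv] at a1
  simp only [div_left_inj' (Real.sqrt_pos.2 two_pos).ne', starRingAut_apply, Complex.star_def,
    Complex.conj_re, Complex.conj_im] at a1 a2
  exact Complex.ext (by linarith) (by linarith)

end Pool.Agent.RT
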