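import Pool.Agent.Lib.MP_e97e2b_nt.RT.Stmt

/-! Abelian varieties of type `GL(2)`. -/

set_option autoImplicit false

namespace Pool.Agent.RT

open Polynomial

/-- The linear map `L` of the tangent space induces an endomorphism of `A` that is defined over
`K`; it is annihilated by a separable polynomial `P`, and its characteristic polynomial on the
real homology is `P ^ 2`. -/
structure GL2Type (K : IntermediateField ℚ ℂ) {g n : ℕ}
    (p : (Fin g ⊕ Fin g → ℝ) ≃ₗ[ℝ] (Fin g → ℂ)) (u : (Fin g → ℂ) → Fin n → ℂ)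
    (L : (Fin g → ℂ) →ₗ[ℂ] (Fin g → ℂ)) : Prop where
  lat : ∀ m : Fin g ⊕ Fin g → ℤ, ∃ m' : Fin g ⊕ Fin g → ℤ,
    L (p fun i => (m i : ℝ)) = p fun i => (m' i : ℝ)
  gal : ∀ (σ : ℂ ≃ₐ[K] ℂ) (z w : Fin g → ℂ), (∃ c : ℂ, ∀ a, σ (u z a) = c * u w a) →
    ∃ c : ℂ, ∀ a, σ (u (L z) a) = c * u (L w) a
  pol : ∃ P : ℝ[X], P.Separable ∧ aeval (L.restrictScalars ℝ : Module.End ℝ (Fin g → ℂ)) P = 0 ∧
    (L.restrictScalars ℝ).charpoly = P ^ 2

end Pool.Agent.RT
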