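import Pool.Agent.Lib.MP_e97e2b_nt.RT.Main
import Pool.Agent.Lib.MP_e97e2b_nt.RM.St2
import Pool.Agent.Lib.MP_e97e2b_nt.RM.Md
import Pool.Agent.Lib.MP_e97e2b_nt.RM.Ln2

/-! Frobenius elements of an abelian variety of type `GL(2)`. -/

set_option autoImplicit false

namespace Pool.Agent.RT

open Matrix Polynomial RG RG.B2 Module
open _root_.M4 (InH)
open _root_.M4.B2 (kk res cj IsFrob exists_frob e_cj)

noncomputable section

variable {K : IntermediateField ℚ ℂ} {g n : ℕ} {J : Set (MvPolynomial (Fin n) K)}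
  {p : (κ g → ℝ) ≃ₗ[ℝ] (Fin g → ℂ)} {u : (Fin g → ℂ) → Fin n → ℂ}
  {L : (Fin g → ℂ) →ₗ[ℂ] (Fin g → ℂ)}

theorem g2_data (h : Unif J p u) (hL : GL2Type K p u L) {r : Fam (GK K) (κ g)}
    (hr : ∀ σ, Tate (RA p u σ) fun l => r l σ) : ∃ (φ : Matrix (κ g) (κ g) ℤ)
    (C : Matrix (κ g) (κ g) ℝ) (t : Fin g → ℂ) (Φ : _), (∀ x, p (C *ᵥ x) = Complex.I • p x) ∧
      Commute (φ.map Int.cast) C ∧ Dc φ t Φ ∧
      ∀ (l : Nat.Primes) σ, Commute (r l σ).1 (φ.map Int.cast) := by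
  choose m hm using fun j => hL.lat (Pi.single j 1)
  obtain ⟨φ, hφ⟩ : ∃ φ : Matrix (κ g) (κ g) ℤ, ∀ x, p (φ.map Int.cast *ᵥ x) = L (p x) := by
    refine ⟨(Matrix.of m)ᵀ, fun x => LinearMap.congr_fun (show p.toLinearMap ∘ₗ mulVecLin _ =
      L.restrictScalars ℝ ∘ₗ p.toLinearMap from (Pi.basisFun ℝ _).ext fun j => ?_) x⟩
    have e : (fun i => (Pi.single (M := fun _ => ℤ) j 1 i : ℝ)) = Pi.single j 1 := by
      funext i
      simp [Pi.single_apply]
    have k := hm j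
    rw [e] at k
    simp only [Pi.basisFun_apply, LinearMap.comp_apply, mulVecLin_apply, mulVec_single_one]
    exact k.symm
  obtain ⟨C, hC⟩ : ∃ A : Matrix (κ g) (κ g) ℝ, ∀ w, p (A *ᵥ w) = Complex.I • p w :=
    ⟨LinearMap.toMatrix' (p.symm.toLinearMap ∘ₗ
      ((LinearMap.lsmul ℂ (Fin g → ℂ) Complex.I).restrictScalars ℝ) ∘ₗ p.toLinearMap), fun w => by
        rw [LinearMap.toMatrix'_mulVec]; exact p.apply_symm_apply _⟩
  obtain ⟨P, p1, p2, p3⟩ := hL.pol
  have e : L.restrictScalars ℝ = p.conjAlgEquiv ℝ (toLinAlgEquiv' (φ.map Int.cast)) :=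
    LinearMap.ext fun x => (congrArg L (p.apply_symm_apply x).symm).trans (hφ _).symm
  have e' : φ.map (Int.cast : ℤ → ℂ) = (Algebra.ofId ℝ ℂ).mapMatrix (φ.map Int.cast) := by
    ext
    simp
  rw [e, aeval_algHom_apply, aeval_algHom_apply, map_eq_zero_iff _ (AlgEquiv.injective _),
    map_eq_zero_iff _ (AlgEquiv.injective _)] at p2
  rw [e] at p3
  obtain ⟨t, Φ, hΦ⟩ := dc_ex (φ := φ) (g := g) (p1.map (f := algebraMap ℝ ℂ))
    (by rw [aeval_map_algebraMap, e', aeval_algHom_apply, p2, map_zero])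
    (by
      rw [e', ← Polynomial.map_pow, ← ((p.charpoly_conj _).trans (charpoly_toLin' _)).symm.trans p3]
      exact charpoly_map _ _) (by simp [two_mul])
  refine ⟨φ, C, t, Φ, hC, Matrix.ext_iff_mulVec.2 fun x => p.injective ?_, hΦ, fun l σ =>
    _root_.M4.Un.Ta.inter (rep_gr h σ).un (fun x y k => ?_) (rp_ta (hr σ) l) (rp_ta (hr σ) l)⟩
  · rw [← mulVec_mulVec, ← mulVec_mulVec, hφ, hC, hC, hφ, map_smul]
  · rw [RA, hφ, hφ]
    exact hL.gal σ _ _ k

theorem tri_cp {F ν : Type} [Field F] [Fintype ν] [DecidableEq ν] {d : ℕ}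
    (B : Basis (Fin d) F (ν → F)) (A : Matrix ν ν F) (c : Fin d → F)
    (h : ∀ r, A *ᵥ B r - c r • B r ∈ Submodule.span F (B '' Set.Iio r)) :
    A.charpoly = ∏ r, (X - C (c r)) := by
  have hco : ∀ r t, r ≤ t → B.repr (A *ᵥ B r) t = if r = t then c r else 0 := by
    intro r t hrt
    have k := B.mem_span_image.1 (h r)
    have k2 : B.repr (A *ᵥ B r - c r • B r) t = 0 := by
      by_contra k3
      exact not_lt.2 hrt (k (Finsupp.mem_support_iff.2 k3))
    rw [map_sub, map_smul, Finsupp.sub_apply, sub_eq_zero, Finsupp.smul_apply, B.repr_self,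
      Finsupp.single_apply] at k2
    rw [k2]
    split_ifs <;> simp
  rw [← charpoly_toLin', ← LinearMap.charpoly_toMatrix _ B, Matrix.charpoly_of_isUpperTriangular]
  · refine Finset.prod_congr rfl fun r _ => ?_
    rw [LinearMap.toMatrix_apply, toLin'_apply, hco r r le_rfl, if_pos rfl]
  · intro t r hrt
    have hrt' : r < t := hrt
    rw [LinearMap.toMatrix_apply, toLin'_apply, hco r t hrt'.le, if_neg hrt'.ne]

theorem geo3 [FiniteDimensional ℚ K] (hg : 1 ≤ g) (h : Unif J p u) (l : ℕ) [Fact l.Prime]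
    (hH : Heavenly K p u l) : ∃ (r : Fam (GK K) (κ g)) (ex : Fin (2 * g) → ℕ),
      (∀ σ, Tate (RA p u σ) fun l => r l σ) ∧
      (∀ σ σ' c, (bar (r l σ).1 - c • bar (r l σ').1).charpoly =
        ∏ s, (X - C ((kchi K l σ : ZMod l) ^ ex s - c * (kchi K l σ' : ZMod l) ^ ex s))) ∧
      (∀ σ : GK K, (∀ x ∈ tower K l, σ x = x) → r l σ = 1) ∧
      ∀ s, Mod r l fun σ => (kchi K l σ : ZMod l) ^ ex s := by
  obtain ⟨r, hr⟩ := rep_ex h
  obtain ⟨d, hd, B, ex, h1, -⟩ := gal_flag_GL (kchi K l)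
    ((GeneralLinearGroup.map (PadicInt.toZMod (p := l))).comp (r l)) fun s hs =>
      (repF_pro h hr hH s hs).imp fun k hk => (map_pow _ _ _).symm.trans (Units.ext hk)
  obtain rfl : d = 2 * g := by simp [hd, two_mul]
  refine ⟨r, ex, hr, fun σ σ' c => tri_cp B _ _ fun s => ?_,
    fun σ hσ => Units.ext (Matrix.ext fun i j => sub_eq_zero.1 ?_), fun s => ?_⟩
  · rw [sub_mulVec, smul_mulVec, sub_smul, mul_smul, sub_sub_sub_comm, ← smul_sub]
    exact sub_mem (h1 σ s) (Submodule.smul_mem _ _ (h1 σ' s))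
  · refine PadicInt.ext_of_toZModPow.1 fun k => ?_
    rw [map_zero, ← RingHom.mem_ker, PadicInt.ker_toZModPow, Ideal.mem_span_singleton]
    exact rep_one h hr l k σ (fun m a b => hσ _ (hH k m a b)) i j
  · obtain ⟨D, τ, R, y, k1, k2, k3, k4, k5, k6⟩ := z_main hg h hr l
      (Submodule.span (ZMod l) (B '' Set.Iio s)) (x := B s)
      (B.linearIndependent.notMem_span_image (lt_irrefl s)) fun σ w hw => by
        induction hw using Submodule.span_induction with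
        | mem _ hw =>
          obtain ⟨t, ht, rfl⟩ := hw
          have h3 := Submodule.span_mono (Set.image_mono (Set.Iio_subset_Iio ht.le)) (h1 σ t)
          exact (Submodule.sub_mem_iff_left _ (Submodule.smul_mem _ _
            (Submodule.subset_span (Set.mem_image_of_mem B ht)))).1 h3
        | zero => rw [mulVec_zero]; exact zero_mem _
        | add a b _ _ ha hb => rw [mulVec_add]; exact add_mem ha hb
        | smul c a _ ha => rw [mulVec_smul]; exact Submodule.smul_mem _ _ ha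
    exact ⟨D, τ, R, y, k1, k2, k3, k4, k5, fun σ => k6 σ _ (h1 σ s)⟩

/-- `σ` is a Frobenius element at `q`. -/
def Fb (r : Fam (GK K) (κ g)) (L : Nat.Primes) (ε : ℚ_[L] →+* ℂ) (φ : Matrix (κ g) (κ g) ℤ)
    (q : ℕ) (σ : GK K) : Prop :=
  (kchi K L σ : ZMod L) = q ∧ Stab φ g ((r L σ).1.map fun x : ℤ_[L] => ε x) ∧
    ∃ Q : ℤ[X], Q.Monic ∧ (∀ z : ℂ, aeval z Q = 0 → ‖z‖ ^ 2 = q) ∧
      aeval ((r L σ).1.map fun x : ℤ_[L] => ε x) Q = 0

theorem frob3 [NumberField K] {P L : Nat.Primes} {e : ℂ ≃+* PadicAlgCl P}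
    {d : GQ P →* GK K} (hd : ∀ t, (d t).toRingEquiv = cj e t) (hne : P.1 ≠ L.1) (h2' : P.1 ≠ 2)
    {r : Fam (GK K) (κ g)} (h2 : ∀ σ : GK K, (∀ x ∈ tower K L, σ x = x) → r L σ = 1)
    {φ : Matrix (κ g) (κ g) ℤ} {c : Matrix (κ g) (κ g) ℝ} (h3 : Mod2 r c)
    (h4 : Commute (φ.map Int.cast) c) (ε : ℚ_[L] →+* ℂ) : ∃ σ, Fb r L ε φ P σ := by
  obtain ⟨_, τ, R, G, H, D, hτ, hF, hA, hR, hD, hHG, hψ⟩ := h3
  have hne' : L ≠ P := fun h => hne (congrArg Subtype.val h).symm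
  have hF' : ∀ t, Fw τ (cj e t) fun q => R q (d t) := fun t => hd t ▸ hF (d t)
  have hG : Good τ e := nos hτ h2' (fun q _ => ((R q).comp d).comp (Inr P).subtype)
    (fun t => hF' t) L hne fun t => by
      have h4 : r L (d t) = 1 := h2 _ (tower_inertia L.2 hne e _ fun x hx => by
        rw [show d t x = cj e t x from congrArg (· x) (hd t), e_cj]
        exact t.2 _ (norm_le_of_int (hx.map e.toRingHom.toIntAlgHom)))
      have h5 := (hA L (d t) (X - 1)).2 (by simp [h4])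
      rw [map_sub, aeval_X, map_one, sub_eq_zero] at h5
      exact Units.ext h5
  obtain ⟨s, hs⟩ := exists_frob (p := P)
  obtain ⟨Q, hQ, hQ1, hQ2⟩ := weil hτ h2' hG P s (fun x hx => hs.res hx) _ (hF' s) (by
    have h4 := hF' s⁻¹
    simp only [map_inv] at h4
    exact h4)
  let f : Matrix (κ g) (κ g) ℤ_[L] →+* Matrix (κ g) (κ g) ℂ :=
    (ε.comp PadicInt.Coe.ringHom).mapMatrix
  obtain ⟨μ, m1, m2⟩ := lam_rat hτ h2' hG P s (fun x hx => hs.res hx) _ (hF' s) hne' hD hHG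
    (hR L (d s)) (I := Fin 3 × Fin g) (fun i => i.1) (fun i => φ ^ (i.2 : ℕ)) (fun i => hψ _ (by
      rw [show (φ ^ _).map Int.cast = _ from map_pow (Int.castRingHom ℝ).mapMatrix φ _]
      exact h4.pow_left _)) ε
  have k4 : ∀ j : ℕ, (φ ^ j).map (Int.cast : ℤ → ℂ) = φ.map Int.cast ^ j := fun j =>
    map_pow (Int.castRingHom ℂ).mapMatrix φ j
  simp only [k4] at m2
  exact ⟨d s, m_chi (hd s) (chi_frob hs L.2 hne), rel_any _ m1 m2, Q, hQ, hQ2,
    (aeval_algHom_apply f.toIntAlgHom _ Q).trans ((congrArg f ((RG.B2.wq_aeval _ Q).trans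
      ((hA L _ _).1 ((hQ1 L hne' _).2 dvd_rfl)))).trans (map_zero f))⟩

end

end Pool.Agent.RT
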