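import Pool.Agent.Lib.MP_e97e2b_nt.RM.Geo
import Pool.Agent.Lib.MP_e97e2b_nt.RM.Cnt
import Pool.Agent.Lib.MP_e97e2b_nt.RM.An2

/-! The main theorem for abelian varieties with real multiplication. -/

set_option autoImplicit false

namespace Pool.Agent.RT

open Matrix Polynomial RG RG.B2 Module Pool.Agent.Lib.MP_e97e2b_nt
open _root_.M4 (InH)
open _root_.M4.B2 (kk res cj IsFrob exists_frob e_cj)

noncomputable section

/-- The eigenvalues of `σ + q σ⁻¹` modulo `l`. -/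
def uu {F : Type} [Field F] (e : ℕ) (x : F) : F := x ^ e + x * x⁻¹ ^ e

theorem uu_pow {F : Type} [Field F] {γ : F} (h0 : γ ≠ 0) {n e : ℕ}
    (h : γ ^ (2 * n * e) = γ ^ n) (a b : ℕ) :
    uu e (γ ^ (2 * n * a + b)) = γ ^ (n * a) * uu e (γ ^ b) := by
  have k : (γ ^ (2 * n * a + b)) ^ e = γ ^ (n * a) * (γ ^ b) ^ e := by
    rw [pow_add, mul_pow, ← pow_mul, mul_right_comm, pow_mul, h, ← pow_mul]
  rw [uu, uu, inv_pow, inv_pow, k]
  field_simp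
  ring

theorem uu_ne {F : Type} [Field F] {x : F} (h : ¬ IsSquare (-x)) (e : ℕ) : uu e x ≠ 0 :=
  fun k => h (by
    have h0 : x ≠ 0 := by
      rintro rfl
      exact h (by simp)
    refine ⟨x ^ e, ?_⟩
    rw [uu, inv_pow] at k
    field_simp at k
    linear_combination -k)

variable {K : IntermediateField ℚ ℂ} {g : ℕ}

theorem dat_of {L : Nat.Primes} {r : Fam (GK K) (κ g)} {ex : Fin (2 * g) → ℕ}
    (h1 : ∀ σ, (bar (r L σ).1).charpoly = ∏ s, (X - C ((kchi K L σ : ZMod L) ^ ex s)))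
    (h2 : ∃ s v, v ≠ 0 ∧ ∀ σ, bar (r L σ).1 *ᵥ v = (kchi K L σ : ZMod L) ^ ex s • v)
    {φ : Matrix (κ g) (κ g) ℤ} {t : Fin g → ℝ} {Φ : _} (h3 : Dec φ t Φ) (ε : ℚ_[L] →+* ℂ)
    {γ : ZMod L} (h0 : γ ≠ 0) (hγ : ∀ x : ZMod L, x ≠ 0 → ∃ s : ℕ, x = γ ^ s) {n : ℕ} (hn : 0 < n)
    (h4 : ∀ s, γ ^ (2 * n * ex s) = γ ^ n) {P : ℕ → Prop}
    (hP : ∀ q, P q → ¬ IsSquare (-(q : ZMod L)) ∧ ∃ σ β, Fr r L ε Φ q σ β) :
    Dat g L (2 * n) P := by
  choose! σ β hF using fun q h => (hP q h).2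
  choose! a ha using fun q h => hγ (q : ℕ) fun e => (hP q h).1 (by simp [e])
  choose! T T1 T2 using fun p q h h' => lin_pair h3 (hF p h).2.2.1.choose_spec
    (hF q h').2.2.1.choose_spec (fun j => ((hF p h).2.2.2 j).2) fun j => ((hF q h').2.2.2 j).2
  let A : ℕ → Matrix (κ g) (κ g) ℤ_[L] := fun q => (r L (σ q)).1 + (q : ℤ_[L]) • (r L (σ q)⁻¹).1
  let f : ℤ_[L] →+* ℂ := ε.comp PadicInt.Coe.ringHom
  have hf : Function.Injective f := ε.injective.comp Subtype.val_injective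
  have a1 : ∀ q, P q → (A q).map f = Φ fun j => (β q j : ℂ) • 1 := fun q h => (hF q h).2.1
  have a2 : ∀ s, trace (bar (r L s).1) = ∑ i, (kchi K L s : ZMod L) ^ ex i := fun s => by
    rw [trace_eq_neg_charpoly_nextCoeff, h1, prod_X_sub_C_nextCoeff, neg_neg]
  have a3 : ∀ q, bar (A q) = bar (r L (σ q)).1 + (q : ZMod L) • bar (r L (σ q)⁻¹).1 := fun q => by
    ext
    simp [A, bar]
  have a4 : ∀ s s', bar (r L s).1 * bar (r L s').1 = bar (r L (s * s')).1 := fun s s' => by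
    rw [map_mul, Units.val_mul, bar, bar, bar, Matrix.map_mul]
  have a5 : ∀ q, P q → ∀ s, uu (ex s) (q : ZMod L) =
      γ ^ (n * (a q / (2 * n))) * uu (ex s) (γ ^ (a q % (2 * n))) := fun q h s => by
    rw [← uu_pow h0 (h4 s), Nat.div_add_mod, ← ha q h]
  refine ⟨β, T, fun q => γ ^ (n * (a q / (2 * n))), fun q => ⟨_, Nat.mod_lt (a q) (by omega)⟩,
    fun i => ∑ s, uu (ex s) (γ ^ (i : ℕ)) ^ 2, fun q h j => ((hF q h).2.2.2 j).1,
    fun p q h h' => ⟨T1 p q h h', fun e => ?_⟩⟩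
  have e' : a p % (2 * n) = a q % (2 * n) := congrArg Fin.val e
  have a6 : γ ^ (n * (a p / (2 * n))) = γ ^ (n * (a q / (2 * n))) → (p : ZMod L) = q := fun k => by
    rw [ha p h, ha q h', ← Nat.div_add_mod (a p) (2 * n), ← Nat.div_add_mod (a q) (2 * n), pow_add,
      pow_add, e', mul_assoc, mul_assoc, mul_comm 2 (n * _), mul_comm 2 (n * _), pow_mul γ _ 2,
      pow_mul γ _ 2, k]
  refine ⟨?_, a6, fun k => a6 ?_⟩
  · have b1 : trace (A p * A q) = T p q := hf (by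
      rw [map_intCast, ← T2 p q h h', ← a1 p h, ← a1 q h', ← Matrix.map_mul,
        AddMonoidHom.map_trace])
    have b2 : trace (bar (A p) * bar (A q)) = T p q := by
      rw [bar, bar, ← Matrix.map_mul, ← AddMonoidHom.map_trace, b1, map_intCast]
    rw [← b2, a3, a3]
    simp only [add_mul, mul_add, smul_mul_assoc, mul_smul_comm, a4, trace_add, trace_smul, a2]
    simp only [map_mul, map_inv, Units.val_mul, Units.val_inv_eq_inv_val, (hF p h).1, (hF q h').1,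
      smul_eq_mul, Finset.mul_sum, ← Finset.sum_add_distrib]
    refine Finset.sum_congr rfl fun s _ => Eq.trans (b := uu (ex s) (p : ZMod L) * uu (ex s) (q : ZMod L))
      (by simp only [uu, mul_pow]; ring) ?_
    rw [a5 p h, a5 q h', ← e']
    ring
  · obtain ⟨s, v, v0, hv⟩ := h2
    have b1 : ∀ q, P q → bar (A q) *ᵥ v = uu (ex s) (q : ZMod L) • v := fun q h => by
      rw [a3, add_mulVec, smul_mulVec, hv, hv, map_inv, Units.val_inv_eq_inv_val, (hF q h).1,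
        smul_smul, ← add_smul, uu]
    have b2 : A p = A q := Matrix.map_injective hf (by simp only [a1 p h, a1 q h', k])
    have b3 := smul_left_injective _ v0 ((b1 p h).symm.trans (b2 ▸ b1 q h'))
    have b4 := uu_ne (hP p h).1 (ex s)
    rw [a5 p h] at b3 b4
    rw [a5 q h', ← e'] at b3
    exact mul_right_cancel₀ (right_ne_zero_of_mul b4) b3

theorem wt2 [NumberField K] (p0 M : ℕ) : ∃ l0 : ℕ, ∀ l : ℕ, l.Prime → l0 < l →
    ∀ i : Fin (2 * g) → ℕ, FrobH K l p0 i → ∀ γ : ZMod l,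
      (∀ x : ZMod l, x ≠ 0 → ∃ s : ℕ, x = γ ^ s) → ∀ r, ∀ n ≤ M,
        γ ^ (M * i r) = γ ^ n → 2 * n = M := by
  obtain ⟨p, hp, h0, h2, h1⟩ := deg1_ex K p0
  obtain ⟨l0, hl0⟩ := weil_pow p (2 * g) M hp.two_le
  refine ⟨l0 + p, fun l hl hlt i hF γ hγ r n hn e => ?_⟩
  have : Fact l.Prime := ⟨hl⟩
  obtain ⟨Q, q1, q2, q3, q4⟩ := hF p hp h0 (fun h => ((hp.dvd_mul.1 h).elim
    (fun h => h2 ((Nat.prime_dvd_prime_iff_eq hp Nat.prime_two).1 h)) fun h =>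
    absurd ((Nat.prime_dvd_prime_iff_eq hp hl).1 h) (by omega))) h1
  obtain ⟨s, hs⟩ := hγ p fun h =>
    absurd (Nat.le_of_dvd hp.pos ((ZMod.natCast_eq_zero_iff _ _).1 h)) (by omega)
  refine hl0 l (by omega) Q q1 (Fintype.card_fin (2 * g) ▸ (ty_trace _ q1 q2 q3).1) q2 _ (q4 r) n
    hn ?_
  rw [hs, ← pow_mul, ← pow_mul, ← pow_mul, show s * (i r * M) = M * i r * s by ring, pow_mul, e,
    ← pow_mul, mul_comm]

theorem rm_main (K : IntermediateField ℚ ℂ) [FiniteDimensional ℚ K] (g : ℕ) (hg : 1 ≤ g)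
    (hd : Module.finrank ℚ K * g < 4 * (g + 1)) :
    ∃ l₀ : ℕ, ∀ l : ℕ, l.Prime → l₀ < l →
      ∀ (n : ℕ) (J : Set (MvPolynomial (Fin n) K)) (p : (Fin g ⊕ Fin g → ℝ) ≃ₗ[ℝ] (Fin g → ℂ))
        (u : (Fin g → ℂ) → Fin n → ℂ) (L : (Fin g → ℂ) →ₗ[ℂ] (Fin g → ℂ)),
        Unif J p u → RealMult K p u L → ¬ Heavenly K p u l := by
  have : NumberField K := ⟨⟩
  obtain ⟨p₁, h₁⟩ := place_inr K
  obtain ⟨p₂, h₂⟩ := place_one K
  obtain ⟨M, l₁, hM, hL⟩ := l_main (8 * g)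
  obtain ⟨l₂, hwt⟩ := wt2 (K := K) (g := g) p₂ M
  have g1 : (1 : ℝ) ≤ g := by exact_mod_cast hg
  have g2 : (Module.finrank ℚ K : ℝ) * g + 1 ≤ 4 * (g + 1) := by exact_mod_cast hd
  obtain ⟨σ₀, C₀, s1, s2, hc⟩ := cnt_sum M hg (T := 1 / (16 * g) + (1 + 13 / (16 * g)))
    (by
      have : (0 : ℝ) ≤ 1 / (16 * g) + 13 / (16 * g) := by positivity
      linarith) (by
      field_simp
      linarith)
  obtain ⟨l₃, han⟩ := an_both K (τ := 1 + 13 / (16 * g)) (η := 1 / (16 * g)) (by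
      field_simp
      linarith) (by positivity) (one_div_le_one_div_of_le two_pos (by linarith)) p₂ σ₀ C₀ s1 s2
  refine ⟨p₁ + l₁ + l₂ + l₃ + 2, fun l hl hlt n J p u Λ h hΛ hH => ?_⟩
  have b₁ : p₁ < l := by omega
  have b₂ : l₁ < l := by omega
  have b₃ : l₂ < l := by omega
  have b₄ : l₃ < l := by omega
  have b₅ : l ≠ 2 := by omega
  obtain ⟨L, rfl⟩ : ∃ P : Nat.Primes, P.1 = l := ⟨⟨l, hl⟩, rfl⟩
  obtain ⟨r, ex, hr, hcp, hun, hv, hB⟩ := geo2 hg h L hH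
  have hW := hwt L hl b₃ ex (m_frob hg h₂ hcp hun (hB ⟨0, by omega⟩))
  obtain ⟨γ, hγ, hγ'⟩ := m_gen L
  obtain ⟨e⟩ := place_ex L
  obtain ⟨d, hde⟩ := h₁ L b₁ e
  obtain ⟨t', ht, hχ⟩ := chi_sur γ hγ
  obtain ⟨t, rfl⟩ : ∃ t : Inr L, t.1 = t' := ⟨⟨t', ht⟩, rfl⟩
  have hk := m_chi (hde t) hχ
  have hu := m_unit hcp (σ := d t) (M := M) (by
    rw [hk]
    exact fun s k => hM.ne (hW γ hγ' s 0 M.zero_le (k.trans (pow_zero _).symm)))
  have key : ∀ s, ∃ j, 2 * j = M ∧ γ ^ (M * ex s) = γ ^ j := fun s => by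
    obtain ⟨_, τ, R, y, hc, hτ, hFw, hA, hy, he⟩ := hB s
    have h7 : IsUnit ((R L (d (t ^ M))).1 - 1) := by
      rw [map_pow]
      exact a_unit ((hA L _ _).2 (aeval_self_charpoly _)) hu
    obtain ⟨j, -, hjM, hj⟩ := hL hc L b₂ τ hτ e (fun q _ => (R q).comp d)
      (fun t => by rw [← hde t]; exact hFw (d t)) ⟨t, h7⟩ y _ hy fun t => he (d t)
    obtain ⟨θ, Q, h0, h1, -, -, -, h5, h6⟩ := hj t γ hχ
    simp only [hk] at h6
    have h2 := aeval_eq_zero_of_dvd_aeval_eq_zero h5 h6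
    rw [map_sub, map_pow, aeval_X, map_one, sub_eq_zero, div_pow, h1, div_eq_one_iff_eq
      (h1 ▸ pow_ne_zero _ h0), ← map_pow, ← map_pow, ← pow_mul, mul_comm] at h2
    have h3 := (ZMod.castHom (dvd_refl L.1) (kk L)).injective h2
    exact ⟨j, hW γ hγ' s j hjM h3, h3⟩
  obtain ⟨m, rfl, -⟩ := key ⟨0, by omega⟩
  obtain ⟨φ, c, tt, Φ, k1, k2, k3, k4⟩ := rm_data h hΛ hr
  have k5 : jacobiSym (-1) L = 1 ∨ jacobiSym (-1) L = -1 :=
    jacobiSym.eq_one_or_neg_one (by simp)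
  refine han L hl b₄ (-chi L (-1)) (by rcases k5 with k | k <;> simp [chi, k])
    (hc L hl _ (dat_of hcp hv k3 (e.symm.toRingHom.comp (algebraMap _ _)) hγ hγ' (by omega)
      (fun s => ?_) fun q hq => ?_))
  · obtain ⟨j, j1, j2⟩ := key s
    rw [j2, show j = m by omega]
  · obtain ⟨q1, q2, q3, q4, q5⟩ := hq
    have k6 : ¬ IsSquare (-(q : ZMod L)) := by
      have k7 : jacobiSym q L = -jacobiSym (-1) L := by
        rw [chi, chi] at q5
        exact_mod_cast q5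
      have k8 := ZMod.nonsquare_of_jacobiSym_eq_neg_one (a := -1 * q) (b := L) (by
        rw [jacobiSym.mul_left, k7]
        rcases k5 with k | k <;> simp [k])
      simpa using k8
    obtain ⟨P, rfl⟩ : ∃ P : Nat.Primes, P.1 = q := ⟨⟨q, q1⟩, rfl⟩
    obtain ⟨e', d', hd'⟩ := h₂ P q2 q4
    have hne : P.1 ≠ L.1 := fun h => q3 (h ▸ dvd_mul_left _ _)
    have h2' : P.1 ≠ 2 := fun h => q3 (h ▸ dvd_mul_right _ _)
    exact ⟨k6, frob2 hg hd' hne h2' hcp hun (mod2 hg h hr k1) k2 k3 (k4 L) _ k6⟩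

end

end Pool.Agent.RT
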