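import Pool.Agent.Lib.MP_e97e2b_nt.RM.Geo2
import Pool.Agent.Lib.MP_e97e2b_nt.RM.Cnt
import Pool.Agent.Lib.MP_e97e2b_nt.RM.An2

/-! The main theorem for abelian varieties of type `GL(2)`. -/

set_option autoImplicit false

namespace Pool.Agent.RT

open Matrix Polynomial RG RG.B2 Module Pool.Agent.Lib.MP_e97e2b_nt
open _root_.M4 (InH)
open _root_.M4.B2 (kk res cj IsFrob exists_frob e_cj OO resZ res_resZ)
open IsLocalRing (residue)

noncomputable section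

theorem bal_pow {F : Type} [Field F] {γ : F} {n e : ℕ} (h : γ ^ (2 * n * e) = γ ^ n) (a b : ℕ) :
    (γ ^ (2 * n * a + b)) ^ e = γ ^ (n * a) * (γ ^ b) ^ e := by
  rw [pow_add, mul_pow, ← pow_mul, mul_right_comm, pow_mul, h, ← pow_mul]

theorem par_ex {F : Type} [Field F] (h2 : (2 : F) ≠ 0) (x : F) {y : F} (hy : y ≠ 0) :
    ∃ ε : ℝ, (ε = 1 ∨ ε = -1) ∧ ∀ k : ℕ, (-1) ^ k = ε → x ^ k + y ^ k ≠ 0 := by
  by_contra H
  push Not at H
  obtain ⟨k, k1, k2⟩ := H 1 (.inl rfl)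
  obtain ⟨j, j1, j2⟩ := H (-1) (.inr rfl)
  have a1 := congrArg (· ^ j) (eq_neg_of_add_eq_zero_left k2)
  have a2 := congrArg (· ^ k) (eq_neg_of_add_eq_zero_left j2)
  simp only [((neg_one_pow_eq_neg_one_iff_odd (by norm_num)).1 j1).neg_pow,
    ((neg_one_pow_eq_one_iff_even (by norm_num)).1 k1).neg_pow, ← pow_mul, mul_comm j] at a1 a2
  exact mul_ne_zero h2 (pow_ne_zero (k * j) hy) (by linear_combination a1 - a2)

theorem chi_par {l : ℕ} [Fact l.Prime] (hl : l ≠ 2) {γ : ZMod l}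
    (hγ : ∀ x : ZMod l, x ≠ 0 → ∃ s : ℕ, x = γ ^ s) {q a : ℕ} (h : (q : ZMod l) = γ ^ a) :
    chi l q = (-1) ^ a := by
  obtain ⟨x, hx⟩ := FiniteField.exists_nonsquare (F := ZMod l) (by rwa [ZMod.ringChar_zmod_n])
  obtain ⟨s, rfl⟩ := hγ x fun e => hx (by simp [e])
  rw [chi, ← jacobiSym.legendreSym.to_jacobiSym, legendreSym, Int.cast_natCast, h, map_pow,
    quadraticChar_neg_one_iff_not_isSquare.2 fun k => hx (k.pow s)]
  simp

/-- The valuation ring at a place above `l`, inside the complex numbers. -/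
def ww {l : ℕ} [Fact l.Prime] (e : ℂ ≃+* PadicAlgCl l) : OO l →+* ℂ :=
  e.symm.toRingHom.comp (OO l).subtype

/-- The embedding of the `l`-adic numbers given by a place above `l`. -/
def eps {l : ℕ} [Fact l.Prime] (e : ℂ ≃+* PadicAlgCl l) : ℚ_[l] →+* ℂ :=
  e.symm.toRingHom.comp (algebraMap _ _)

theorem root_int {l : ℕ} [Fact l.Prime] (e : ℂ ≃+* PadicAlgCl l) {Q : (OO l)[X]} (hQ : Q.Monic)
    {z : ℂ} (hz : (Q.map (ww e)).IsRoot z) : ∃ a : OO l, ww e a = z ∧ Q.IsRoot a := by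
  have a1 := congrArg e.toRingHom hz
  rw [eval_map, hom_eval₂, map_zero, show e.toRingHom.comp (ww e) = algebraMap _ _ from
    RingHom.ext fun x => e.apply_symm_apply _] at a1
  obtain ⟨a, ha⟩ := (IsIntegrallyClosed.isIntegral_iff (R := OO l)).1 ⟨Q, hQ, a1⟩
  have a2 : ww e a = z := e.symm_apply_eq.2 ha
  exact ⟨a, a2, (isRoot_map_iff (e.symm.injective.comp Subtype.val_injective)).1 (a2 ▸ hz)⟩

variable {K : IntermediateField ℚ ℂ} {g : ℕ} {φ : Matrix (κ g) (κ g) ℤ} {t : Fin g → ℂ}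
  {Φ : (Fin g → Matrix (Fin 2) (Fin 2) ℂ) →ₐ[ℂ] Matrix (κ g) (κ g) ℂ}

theorem cmp_root {l : ℕ} [Fact l.Prime] (e : ℂ ≃+* PadicAlgCl l) (h : Dc φ t Φ)
    {A : Matrix (κ g) (κ g) ℤ_[l]} {N : _} (hN : Φ N = A.map fun x : ℤ_[l] => eps e x)
    {c : Fin (2 * g) → ZMod l} (hc : (bar A).charpoly = ∏ s, (X - C (c s))) (j : Fin g) :
    ∃ a b : OO l, (∀ k, trace (N j ^ k) = ww e (a ^ k + b ^ k)) ∧
      (∃ s, residue _ a = ZMod.castHom (dvd_refl l) (kk l) (c s)) ∧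
        ∃ s, residue _ b = ZMod.castHom (dvd_refl l) (kk l) (c s) := by
  obtain ⟨a, b, -, k1, k2⟩ := two_root (N j)
  have a1 : aeval N ((A.charpoly.map (resZ l)).map (ww e)) = 0 := h.inj (by
    rw [← aeval_algHom_apply, map_zero, hN, Polynomial.map_map, ← charpoly_map]
    exact aeval_self_charpoly _)
  obtain ⟨k3, k4⟩ := k2 _ ((aeval_algHom_apply
    (Pi.evalAlgHom ℂ (fun _ => Matrix (Fin 2) (Fin 2) ℂ) j) N _).trans (congrFun a1 j))
  obtain ⟨a, rfl, k5⟩ := root_int e (A.charpoly_monic.map _) k3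
  obtain ⟨b, rfl, k6⟩ := root_int e (A.charpoly_monic.map _) k4
  have a2 : ∀ a, (A.charpoly.map (resZ l)).IsRoot a →
      ∃ s, residue _ a = ZMod.castHom (dvd_refl l) (kk l) (c s) := fun a k => by
    have k' := k.map (f := residue (OO l))
    rw [Polynomial.map_map, ← res_resZ, ← Polynomial.map_map, ← charpoly_map,
      show (A.map _).charpoly = _ from hc, Polynomial.map_prod, IsRoot.def, eval_prod,
      Finset.prod_eq_zero_iff] at k'
    simpa [sub_eq_zero] using k'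
  exact ⟨a, b, fun k => by rw [k1, map_add, map_pow, map_pow], a2 a k5, a2 b k6⟩

theorem dat2 {L : Nat.Primes} (hL : L.1 ≠ 2) (hg : 1 ≤ g) {r : Fam (GK K) (κ g)}
    {ex : Fin (2 * g) → ℕ} (h1 : ∀ σ σ' c, (bar (r L σ).1 - c • bar (r L σ').1).charpoly =
      ∏ s, (X - C ((kchi K L σ : ZMod L) ^ ex s - c * (kchi K L σ' : ZMod L) ^ ex s)))
    (h3 : Dc φ t Φ) (h5 : ∀ σ, Commute (r L σ).1 (φ.map Int.cast)) (e : ℂ ≃+* PadicAlgCl L)
    {s₀ : GK K} {γ : ZMod L} (hs : (kchi K L s₀ : ZMod L) = γ)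
    (hγ : ∀ x : ZMod L, x ≠ 0 → ∃ s : ℕ, x = γ ^ s) {n : ℕ} (hn : 0 < n)
    (h4 : ∀ s, γ ^ (2 * n * ex s) = γ ^ n) : ∃ ε : ℝ, (ε = 1 ∨ ε = -1) ∧ ∀ P : ℕ → Prop,
      (∀ q, P q → chi L q = ε ∧ ∃ σ, Fb r L (eps e) φ q σ) → Dat g L (2 * n) P := by
  have h0 : γ ≠ 0 := hs ▸ Units.ne_zero _
  let f : Matrix (κ g) (κ g) ℤ_[L] →+* Matrix (κ g) (κ g) ℂ :=
    ((eps e).comp PadicInt.Coe.ringHom).mapMatrix
  have k3 : f (φ.map Int.cast) = φ.map Int.cast := by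
    ext
    simp [f]
  choose M hM using fun σ => h3.sur (f (r L σ).1) (k3 ▸ (h5 σ).map f)
  set ca := ZMod.castHom (dvd_refl L.1) (kk L)
  have h1' := fun σ => h1 σ σ 0
  simp only [zero_smul, zero_mul, sub_zero] at h1'
  choose a b hab ha hb using fun σ => cmp_root e h3 (hM σ) (h1' σ)
  have w0 : Function.Injective (ww e) := e.symm.injective.comp Subtype.val_injective
  obtain ⟨τ, hτ⟩ : ∃ τ : GK K → Fin g → OO L, ∀ σ j, trace (M σ j) = ww e (τ σ j) :=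
    ⟨_, fun σ j => pow_one (M σ j) ▸ hab σ j 1⟩
  have a1 : ∀ σ σ' (c : ZMod L), (∀ s, (kchi K L σ : ZMod L) ^ ex s =
      c * (kchi K L σ' : ZMod L) ^ ex s) → ∀ j, residue _ (τ σ j) = ca c * residue _ (τ σ' j) :=
    fun σ σ' c hc j => by
      obtain ⟨x, y, k1, ⟨s, k2⟩, s', k3⟩ := cmp_root e h3 (A := (r L σ).1 - c.val • (r L σ').1)
        (N := M σ - c.val • M σ') (by
          rw [map_sub, map_nsmul, hM, hM, ← map_nsmul, ← map_sub]
          rfl) (Eq.trans (congrArg charpoly (by ext; simp [bar, -nsmul_eq_mul, ← Nat.cast_smul_eq_nsmul ℤ_[L]])) (h1 σ σ' c)) j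
      have k4 := k1 1
      simp only [pow_one, Pi.sub_apply, Pi.smul_apply, trace_sub, trace_smul, hτ, ← map_nsmul,
        ← map_sub] at k4
      have k5 := congrArg (residue _) (w0 k4)
      rw [map_add, k2, k3, hc, hc, sub_self, sub_self, map_zero, add_zero, map_sub, map_nsmul,
        sub_eq_zero, nsmul_eq_mul] at k5
      rw [k5, ← map_natCast ca, ZMod.natCast_zmod_val]
  have a2 : ∀ k, M (s₀ ^ k) = M s₀ ^ k := fun k => h3.inj (by
    rw [map_pow, hM, hM, map_pow, Units.val_pow_eq_pow_val, map_pow])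
  obtain ⟨ε, e1, e2⟩ := par_ex (F := kk L) (fun k => hL ((Nat.prime_dvd_prime_iff_eq L.2
    Nat.prime_two).1 ((CharP.cast_eq_zero_iff (kk L) L 2).1 k))) (residue _ (a s₀ ⟨0, hg⟩))
    (y := residue _ (b s₀ ⟨0, hg⟩)) (by
      obtain ⟨s, k⟩ := hb s₀ ⟨0, hg⟩
      rw [k, _root_.map_ne_zero]
      exact pow_ne_zero _ (Units.ne_zero _))
  refine ⟨ε, e1, fun P hP => ?_⟩
  choose! σ hF using fun q h => (hP q h).2
  choose! α hα using fun q h => hγ (q : ℕ) ((hF q h).1 ▸ Units.ne_zero _)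
  have a3 := fun q h => (hF q h).2.2.elim fun Q hQ => lin_frob h3 (M := M (σ q)) (M' := M (σ q)⁻¹)
    (hM _ ▸ (hF q h).2.1) (h3.inj (by
      rw [map_mul, hM, hM, ← map_mul, map_inv, Units.inv_mul, map_one, map_one])) hQ.1 hQ.2.1
        (hM _ ▸ hQ.2.2)
  choose! T hT using fun p q h h' => lin_int h3 (a3 p h).1 (a3 q h').2.1
    (fun j => ((a3 p h).2.2 j).2.1) fun j =>
      map_isIntegral_int (starRingEnd ℂ) ((a3 q h').2.2 j).2.1
  have a4 : ∀ k, (kchi K L (s₀ ^ k) : ZMod L) = γ ^ k := fun k => by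
    rw [map_pow, Units.val_pow_eq_pow_val, hs]
  have a5 : ∀ q, P q → (q : ZMod L) = γ ^ (2 * n * (α q / (2 * n)) + α q % (2 * n)) := fun q h => by
    rw [Nat.div_add_mod, ← hα q h]
  have a6 : ∀ q, P q → ∀ j, residue _ (τ (σ q) j) =
      ca (γ ^ (n * (α q / (2 * n)))) * residue _ (τ (s₀ ^ (α q % (2 * n))) j) := fun q h =>
    a1 _ _ _ fun s => by rw [(hF q h).1, a4, a5 q h, bal_pow (h4 s)]
  have a7 : ∀ q, P q → ∀ j, residue _ (τ (σ q)⁻¹ j) =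
      ca (γ ^ (n * (α q / (2 * n))))⁻¹ * residue _ (τ (s₀ ^ (α q % (2 * n)))⁻¹ j) := fun q h =>
    a1 _ _ _ fun s => by
      rw [map_inv, map_inv, Units.val_inv_eq_inv_val, Units.val_inv_eq_inv_val, (hF q h).1, a4,
        a5 q h, inv_pow, inv_pow, bal_pow (h4 s), mul_inv]
  refine ⟨fun q => rv fun j => trace (M (σ q) j), T, fun q => γ ^ (n * (α q / (2 * n))),
    fun q => ⟨_, Nat.mod_lt (α q) (by omega)⟩, fun i => Function.invFun ca
      (∑ j, residue _ (τ (s₀ ^ i.1) j) * (ca (γ ^ i.1) * residue _ (τ (s₀ ^ i.1)⁻¹ j))),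
    fun q h j => (rv_sq _ j).trans ((a3 q h).2.2 j).1, fun p q h h' => ⟨?_, fun k => ?_⟩⟩
  · rw [← rv_mul h3 (a3 p h).1 (a3 q h').1, ← hT p q h h', Complex.intCast_re]
  have e' : α p % (2 * n) = α q % (2 * n) := congrArg Fin.val k
  have a8 : γ ^ (n * (α p / (2 * n))) = γ ^ (n * (α q / (2 * n))) → (p : ZMod L) = q := fun k => by
    rw [a5 p h, a5 q h', pow_add, pow_add, e', mul_assoc, mul_assoc, mul_comm 2 (n * _),
      mul_comm 2 (n * _), pow_mul γ _ 2, pow_mul γ _ 2, k]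
  refine ⟨?_, a8, fun k => a8 ?_⟩
  · have b1 : (T p q : OO L) = ∑ j, τ (σ p) j * (q * τ (σ q)⁻¹ j) := w0 (by
      simp only [map_intCast, hT p q h h', fun j => ((a3 q h').2.2 j).2.2]
      simp only [hτ, map_sum, map_mul, map_natCast])
    have b2 : ca (T p q) = ca (γ ^ (n * (α p / (2 * n))) * γ ^ (n * (α q / (2 * n)))) *
        ∑ j, residue _ (τ (s₀ ^ (α p % (2 * n))) j) * (ca (γ ^ (α p % (2 * n))) *
          residue _ (τ (s₀ ^ (α p % (2 * n)))⁻¹ j)) := by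
      rw [map_intCast, ← map_intCast (residue (OO L)), b1, map_sum, Finset.mul_sum]
      refine Finset.sum_congr rfl fun j _ => ?_
      have b3 := (_root_.map_ne_zero ca).2 (pow_ne_zero (n * (α q / (2 * n))) h0)
      rw [map_mul, map_mul, map_natCast, ← map_natCast ca, a6 p h, a7 q h', a5 q h', ← e', pow_add,
        mul_assoc 2, mul_comm 2 (n * _), pow_mul γ _ 2, map_mul, map_mul, map_inv₀, map_pow ca _ 2]
      field_simp
    have b3 := mul_ne_zero (pow_ne_zero (n * (α p / (2 * n))) h0)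
      (pow_ne_zero (n * (α q / (2 * n))) h0)
    refine ca.injective ?_
    rw [map_mul, Function.invFun_eq (f := ca) ⟨_, (map_div₀ ca _ _).trans
      ((div_eq_iff ((_root_.map_ne_zero ca).2 b3)).2 (b2.trans (mul_comm _ _)))⟩, b2]
  · have b1 := congrFun (rv_inj h3 (a3 p h).1 (a3 q h').1 k) ⟨0, hg⟩
    simp only [hτ] at b1
    have b2 := congrArg (residue _) (w0 b1)
    have b3 := e2 (α p) ((chi_par hL hγ (hα p h)).symm.trans (hP p h).1)
    have b4 := hτ (s₀ ^ α p) ⟨0, hg⟩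
    rw [a2, Pi.pow_apply, hab] at b4
    rw [← map_pow, ← map_pow, ← map_add, w0 b4,
      a1 _ (σ p) 1 (fun s => by rw [a4, (hF p h).1, hα p h, one_mul]), map_one, one_mul,
      a6 p h] at b3
    rw [a6 p h, a6 q h', ← e'] at b2
    exact ca.injective (mul_right_cancel₀ (right_ne_zero_of_mul b3) b2)

theorem wt3 [NumberField K] (p0 M : ℕ) : ∃ l0 : ℕ, ∀ l : ℕ, l.Prime → l0 < l →
    ∀ i : Fin (2 * g) → ℕ, FrobH K l p0 i → ∀ γ : ZMod l,
      (∀ x : ZMod l, x ≠ 0 → ∃ s : ℕ, x = γ ^ s) → ∀ r, ∀ n ≤ M,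
        γ ^ (M * i r) = γ ^ n → 2 * n = M := by
  obtain ⟨p, hp, h0, h2, h1⟩ := deg1_ex K p0
  obtain ⟨l0, hl0⟩ := weil_pow p (2 * g) M hp.two_le
  refine ⟨l0 + p, fun l hl hlt i hF γ hγ r n hn e => ?_⟩
  have : Fact l.Prime := ⟨hl⟩
  obtain ⟨Q, q1, q2, q3, q4⟩ := hF p hp h0 (fun h => ((hp.dvd_mul.1 h).elim
    (fun h => h2 ((Nat.prime_dvd_prime_iff_eq hp Nat.prime_two).1 h)) fun h =>
    absurd ((Nat.prime_dvd_prime_iff_eq hp hl).1 h) (by omega))) h1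
  obtain ⟨s, hs⟩ := hγ p fun h =>
    absurd (Nat.le_of_dvd hp.pos ((ZMod.natCast_eq_zero_iff _ _).1 h)) (by omega)
  refine hl0 l (by omega) Q q1 (Fintype.card_fin (2 * g) ▸ (ty_trace _ q1 q2 q3).1) q2 _ (q4 r) n
    hn ?_
  rw [hs, ← pow_mul, ← pow_mul, ← pow_mul, show s * (i r * M) = M * i r * s by ring, pow_mul, e,
    ← pow_mul, mul_comm]

theorem g2_main (K : IntermediateField ℚ ℂ) [FiniteDimensional ℚ K] (g : ℕ) (hg : 1 ≤ g)
    (hd : Module.finrank ℚ K * g < 4 * (g + 1)) :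
    ∃ l₀ : ℕ, ∀ l : ℕ, l.Prime → l₀ < l →
      ∀ (n : ℕ) (J : Set (MvPolynomial (Fin n) K)) (p : (Fin g ⊕ Fin g → ℝ) ≃ₗ[ℝ] (Fin g → ℂ))
        (u : (Fin g → ℂ) → Fin n → ℂ) (L : (Fin g → ℂ) →ₗ[ℂ] (Fin g → ℂ)),
        Unif J p u → GL2Type K p u L → ¬ Heavenly K p u l := by
  have : NumberField K := ⟨⟩
  obtain ⟨p₁, h₁⟩ := place_inr K
  obtain ⟨p₂, h₂⟩ := place_one K
  obtain ⟨M, l₁, hM, hL⟩ := l_main (8 * g)
  obtain ⟨l₂, hwt⟩ := wt3 (K := K) (g := g) p₂ M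
  have g1 : (1 : ℝ) ≤ g := by exact_mod_cast hg
  have g2 : (Module.finrank ℚ K : ℝ) * g + 1 ≤ 4 * (g + 1) := by exact_mod_cast hd
  obtain ⟨σ₀, C₀, s1, s2, hc⟩ := cnt_sum M hg (T := 1 / (16 * g) + (1 + 13 / (16 * g)))
    (by
      have : (0 : ℝ) ≤ 1 / (16 * g) + 13 / (16 * g) := by positivity
      linarith) (by
      field_simp
      linarith)
  obtain ⟨l₃, han⟩ := an_both K (τ := 1 + 13 / (16 * g)) (η := 1 / (16 * g)) (by
      field_simp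
      linarith) (by positivity) (one_div_le_one_div_of_le two_pos (by linarith)) p₂ σ₀ C₀ s1 s2
  refine ⟨p₁ + l₁ + l₂ + l₃ + 2, fun l hl hlt n J p u Λ h hΛ hH => ?_⟩
  have b₁ : p₁ < l := by omega
  have b₂ : l₁ < l := by omega
  have b₃ : l₂ < l := by omega
  have b₄ : l₃ < l := by omega
  have b₅ : l ≠ 2 := by omega
  obtain ⟨L, rfl⟩ : ∃ P : Nat.Primes, P.1 = l := ⟨⟨l, hl⟩, rfl⟩
  obtain ⟨r, ex, hr, hc2, hun, hB⟩ := geo3 hg h L hH
  have hcp := fun σ => hc2 σ σ 0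
  simp only [zero_smul, zero_mul, sub_zero] at hcp
  have hW := hwt L hl b₃ ex (m_frob hg h₂ hcp hun (hB ⟨0, by omega⟩))
  obtain ⟨γ, hγ, hγ'⟩ := m_gen L
  obtain ⟨e⟩ := place_ex L
  obtain ⟨d, hde⟩ := h₁ L b₁ e
  obtain ⟨t', ht, hχ⟩ := chi_sur γ hγ
  obtain ⟨t, rfl⟩ : ∃ t : Inr L, t.1 = t' := ⟨⟨t', ht⟩, rfl⟩
  have hk := m_chi (hde t) hχ
  have hu := m_unit hcp (σ := d t) (M := M) (by
    rw [hk]
    exact fun s k => hM.ne (hW γ hγ' s 0 M.zero_le (k.trans (pow_zero _).symm)))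
  have key : ∀ s, ∃ j, 2 * j = M ∧ γ ^ (M * ex s) = γ ^ j := fun s => by
    obtain ⟨_, τ, R, y, hc, hτ, hFw, hA, hy, he⟩ := hB s
    have h7 : IsUnit ((R L (d (t ^ M))).1 - 1) := by
      rw [map_pow]
      exact a_unit ((hA L _ _).2 (aeval_self_charpoly _)) hu
    obtain ⟨j, -, hjM, hj⟩ := hL hc L b₂ τ hτ e (fun q _ => (R q).comp d)
      (fun t => by rw [← hde t]; exact hFw (d t)) ⟨t, h7⟩ y _ hy fun t => he (d t)
    obtain ⟨θ, Q, h0, h1, -, -, -, h5, h6⟩ := hj t γ hχ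
    simp only [hk] at h6
    have h2 := aeval_eq_zero_of_dvd_aeval_eq_zero h5 h6
    rw [map_sub, map_pow, aeval_X, map_one, sub_eq_zero, div_pow, h1, div_eq_one_iff_eq
      (h1 ▸ pow_ne_zero _ h0), ← map_pow, ← map_pow, ← pow_mul, mul_comm] at h2
    have h3 := (ZMod.castHom (dvd_refl L.1) (kk L)).injective h2
    exact ⟨j, hW γ hγ' s j hjM h3, h3⟩
  obtain ⟨m, rfl, -⟩ := key ⟨0, by omega⟩
  obtain ⟨φ, c, tt, Φ, k1, k2, k3, k4⟩ := g2_data h hΛ hr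
  obtain ⟨ε, e1, e2⟩ := dat2 b₅ hg hc2 k3 (k4 L) e hk hγ' (n := m) (by omega) fun s => by
    obtain ⟨j, j1, j2⟩ := key s
    rw [j2, show j = m by omega]
  refine han L hl b₄ ε e1 (hc L hl _ (e2 _ fun q hq => ?_))
  obtain ⟨q1, q2, q3, q4, q5⟩ := hq
  obtain ⟨P, rfl⟩ : ∃ P : Nat.Primes, P.1 = q := ⟨⟨q, q1⟩, rfl⟩
  obtain ⟨e', d', hd'⟩ := h₂ P q2 q4
  have hne : P.1 ≠ L.1 := fun h => q3 (h ▸ dvd_mul_left _ _)
  have h2' : P.1 ≠ 2 := fun h => q3 (h ▸ dvd_mul_right _ _)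
  exact ⟨q5, frob3 hd' hne h2' hun (mod2 hg h hr k1) k2 _⟩

end

end Pool.Agent.RT
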