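import Pool.Agent.Lib.MP_e97e2b_nt.RM.Stmt
import Pool.Agent.Lib.MP_e97e2b_nt.RM.St2

/-! Real multiplication is a case of type `GL(2)`. -/

set_option autoImplicit false

namespace Pool.Agent.RT

open Polynomial Module

theorem RealMult.gl2Type {K : IntermediateField ℚ ℂ} {g n : ℕ}
    {p : (Fin g ⊕ Fin g → ℝ) ≃ₗ[ℝ] (Fin g → ℂ)} {u : (Fin g → ℂ) → Fin n → ℂ}
    {L : (Fin g → ℂ) →ₗ[ℂ] (Fin g → ℂ)} (h : RealMult K p u L) : GL2Type K p u L := by
  obtain ⟨t, ht, hv⟩ := h.eig
  choose v hv using fun j => (hv j).exists_hasEigenvector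
  let b := basisOfLinearIndependentOfCardEqFinrank' v (Module.End.eigenvectors_linearIndependent' L
    _ (Complex.ofReal_injective.comp ht) v hv) (by simp)
  let B := Complex.basisOneI.smulTower b
  have hB : ∀ i, (L.restrictScalars ℝ : End ℝ (Fin g → ℂ)) (B i) = t i.2 • B i := fun i => by
    rw [LinearMap.restrictScalars_apply, Basis.smulTower_apply, map_smul,
      show b i.2 = v i.2 by simp [b], (hv i.2).apply_eq_smul, smul_comm, Complex.coe_smul]
  refine ⟨h.lat, h.gal, ∏ j, (X - C (t j)), separable_prod_X_sub_C_iff.2 ht, B.ext fun i => ?_, ?_⟩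
  · rw [End.aeval_apply_of_hasEigenvector ⟨End.mem_eigenspace_iff.2 (hB i), B.ne_zero i⟩, eval_prod,
      Finset.prod_eq_zero (Finset.mem_univ i.2) (by simp), zero_smul, LinearMap.zero_apply]
  · rw [← LinearMap.charpoly_toMatrix _ B, show LinearMap.toMatrix B B _ = Matrix.diagonal
      fun i => t i.2 from Matrix.ext fun i j => by
        rw [LinearMap.toMatrix_apply, hB, map_smul, B.repr_self, Matrix.diagonal_apply]
        split_ifs with k <;> simp [k], Matrix.charpoly_diagonal, Fintype.prod_prod_type]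
    simp

end Pool.Agent.RT
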