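import Pool.Agent.Lib.MP_e97e2b_nt.RT.ZMain

/-! The principally polarised model with its complex structure. -/

set_option autoImplicit false

namespace Pool.Agent.RT

open Matrix Polynomial RG RG.B2
open _root_.M4 (InH Hol U rz ee E per cst entire_of_ratio ee_nat_mul)
open _root_.M4.Un (Rv s_hom)

noncomputable section

variable {K : IntermediateField ℚ ℂ} {g n : ℕ} {J : Set (MvPolynomial (Fin n) K)}
  {p : (κ g → ℝ) ≃ₗ[ℝ] (Fin g → ℂ)} {u : (Fin g → ℂ) → Fin n → ℂ}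

theorem z_sym2 (h : Unif J p u) : ∃ (Ω : Matrix (κ g) (κ g) ℤ) (α : Type) (_ : Fintype α)
    (w : (Fin 8 × Fin g → ℂ) → α → ℂ)
    (S : (Fin 8 × Fin g → ℂ) →ₗ[ℝ] (Fin 8 × Fin g → ℂ) →ₗ[ℝ] ℝ), Ωᵀ = -Ω ∧ Ω.det ≠ 0 ∧
    Sy K (p8 p) w S ∧
    (∀ x y, S (Complex.I • p8 p y) (p8 p x) = x ⬝ᵥ (d8 Ω).map (Int.cast : ℤ → ℝ) *ᵥ y) ∧
    ∀ (σ : GK K) x y, (∀ i, RA p u σ (blk x i) (blk y i)) → RA (p8 p) w σ x y := by
  obtain ⟨F, S, Ω, hF, hF0, h1, h2, h3, h4, h5, h6, h7⟩ := zah8 h (p8 p) (blk_p8 p)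
  have hw : ∀ (z : Fin 8 × Fin g → ℂ) (a : (Fin 8 → Fin n) × (Fin 8 → Fin n)),
      (fun z (a : (Fin 8 → Fin n) × (Fin 8 → Fin n)) => F z * u8 u z a.1 * u8 u (-z) a.2) z a =
        F z * u8 u z a.1 * u8 u (-z) a.2 := fun _ _ => rfl
  exact ⟨Ω, (Fin 8 → Fin n) × (Fin 8 → Fin n), inferInstance, _, S, h4, h5,
    ⟨sym_hol h hF hw, sym_nz h hF0 hw, h1, h2, h3, fun m z => funext fun a => h7 m z a.1 a.2,
      fun σ => sym_gr h hF0 hw (zg_gr h σ), sym_rat h hF hF0 hw⟩, h6,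
    fun σ x y => (sym_ra h hF0 hw (zg_gr h σ) x y).2⟩

section

open Complex
open scoped Real

theorem z_da2 [Dim] {m c α : Type} [Fintype m] [DecidableEq m] [Fintype c] [Fintype α]
    {p : (m → ℝ) ≃ₗ[ℝ] (c → ℂ)} {w : (c → ℂ) → α → ℂ} {S : (c → ℂ) →ₗ[ℝ] (c → ℂ) →ₗ[ℝ] ℝ}
    (h : Sy K p w S) {G : Matrix ν m ℤ} {H : Matrix m ν ℤ} {N D : ℕ} (hN : N ≠ 0) (hD : D ≠ 0)
    (h1 : G * H = (D : ℤ) • 1) (h2 : H * G = (D : ℤ) • 1)
    (hE : ∀ a b, E (G.map (Int.cast : ℤ → ℝ) *ᵥ a) (G.map (Int.cast : ℤ → ℝ) *ᵥ b) =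
      (N : ℝ) ^ 2 * S (Complex.I • p b) (p a)) :
    ∃ (τ : Mat) (v : α → (ν → ℝ) → ℂ),
      Da K τ (G.mulVecLin.range).toAddSubgroup D (((N : ℝ) ^ 2)⁻¹) v ∧ (∀ (σ : GK K) x y,
        Rv v σ (G.map (Int.cast : ℤ → ℝ) *ᵥ x) (G.map (Int.cast : ℤ → ℝ) *ᵥ y) ↔ RA p w σ x y) ∧
      ∀ x y, p y = Complex.I • p x →
        cst τ *ᵥ G.map (Int.cast : ℤ → ℝ) *ᵥ x = G.map (Int.cast : ℤ → ℝ) *ᵥ y := by
  obtain ⟨g, hg⟩ := zda_eqv hD h1 h2
  simp only [← hg] at hE ⊢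
  have hN' : (0 : ℝ) < (N : ℝ) ^ 2 := by positivity
  set q := g.symm.trans p with hq
  have g5 (x) : q (g x) = p x := congrArg p (g.symm_apply_apply x)
  have hE' (x y) : E x y = (N : ℝ) ^ 2 * S (I • q y) (q x) := by
    obtain ⟨x, rfl⟩ := g.surjective x
    obtain ⟨y, rfl⟩ := g.surjective y
    rw [hE, g5, g5]
  obtain ⟨τ, hτ, ht⟩ := zda_tau h.sym h.cx h.pos hN' hE'
  set μ : ℝ := ((N : ℝ) ^ 2)⁻¹ with hμ
  have g4 (x y) : μ * E x y = S (I • q y) (q x) := by rw [hE', inv_mul_cancel_left₀ hN'.ne']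
  have g6 (x) : μ * E (cst τ *ᵥ x) x = S (q x) (q x) := by rw [g4, ht, h.cx]
  have gz (n : m → ℤ) : g (rz n) = rz (G *ᵥ n) := by
    rw [hg]
    funext i
    simp [rz, mulVec, dotProduct]
  obtain ⟨γ, hγ⟩ : ∃ γ : (c → ℂ) → ℂ, ∀ z, γ z = cexp (-(π / 2 * S z z : ℝ)) := ⟨_, fun _ => rfl⟩
  have γ0 (z) : γ z ≠ 0 := by rw [hγ]; exact exp_ne_zero _
  obtain ⟨v, hvu⟩ : ∃ v : α → (ν → ℝ) → ℂ, ∀ a x, v a x = γ (q x) * w (q x) a :=
    ⟨fun a x => _, fun _ _ => rfl⟩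
  have hv (a) : v a ∈ Hol τ μ := by
    have := zda_hol hτ μ (r := q.toLinearMap) ht (h.hol a)
    rwa [show v a = _ from funext fun x => by rw [hvu, hγ, ← g6]]
  have nz (x) : ∃ a, v a x ≠ 0 := by
    obtain ⟨a, ha⟩ := Function.ne_iff.1 (h.nz (q x))
    exact ⟨a, by rw [hvu]; exact mul_ne_zero (γ0 _) ha⟩
  have hR (σ : GK K) (x y) : Rv v σ (g x) (g y) ↔ RA p w σ x y := by
    have k1 := (map_ne_zero σ).2 (γ0 (p x))
    have k2 := γ0 (p y)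
    refine ⟨fun ⟨d, hd⟩ => ⟨d * γ (p y) / σ (γ (p x)), fun a => ?_⟩,
      fun ⟨d, hd⟩ => ⟨σ (γ (p x)) * d / γ (p y), fun a => ?_⟩⟩
    · have k3 := hd a
      rw [hvu, hvu, g5, g5, map_mul] at k3
      field_simp
      linear_combination k3
    · rw [hvu, hvu, g5, g5, map_mul, hd]
      field_simp
  refine ⟨τ, v, ⟨hτ, hD, fun n => ⟨H *ᵥ n, ?_⟩, hv, nz, ?_, fun σ x => ?_,
    fun σ a a' b b' k1 k2 => ?_, fun σ x a b k1 k2 => ?_, fun k f hf hft x₀ => ?_⟩, hR,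
    fun x y e => q.injective (by rw [ht, g5, g5, e])⟩
  · rw [mulVecLin_apply, mulVec_mulVec, h1, smul_mulVec, one_mulVec]
  · rintro _ ⟨n, rfl⟩ a
    funext x
    have k1 := congrFun (h.law n (q x)) a
    have k2 : cexp (2 * π * I * (S (I • q x) (p (rz n)) / 2)) * cexp (-(π / 2 * S (q x + p (rz n))
        (q x + p (rz n)) : ℝ)) * cexp (π * (S (p (rz n)) (p (rz n)) / 2 + S (q x) (p (rz n)) -
          I * S (I • q x) (p (rz n)))) = cexp (-(π / 2 * S (q x) (q x) : ℝ)) := by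
      simp only [← Complex.exp_add, map_add, LinearMap.add_apply, h.sym (p (rz n)) (q x)]
      congr 1
      push_cast
      ring
    rw [mulVecLin_apply, ← gz, U, ← ofReal_mul, g4, hvu, hvu, map_add, g5, k1, hγ, hγ, ee,
      Pi.smul_apply, smul_eq_mul]
    linear_combination w (q x) a * k2
  · obtain ⟨x, rfl⟩ := g.surjective x
    obtain ⟨x', hx⟩ := (h.gr σ).ex x
    exact ⟨_, (hR σ x x').2 hx⟩
  · obtain ⟨a, rfl⟩ := g.surjective a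
    obtain ⟨a', rfl⟩ := g.surjective a'
    obtain ⟨b, rfl⟩ := g.surjective b
    obtain ⟨b', rfl⟩ := g.surjective b'
    rw [← map_sub, ← map_sub]
    exact (hR σ _ _).2 ((h.gr σ).sub _ _ _ _ ((hR σ _ _).1 k1) ((hR σ _ _).1 k2))
  · obtain ⟨x, rfl⟩ := g.surjective x
    obtain ⟨a, rfl⟩ := g.surjective a
    obtain ⟨b, rfl⟩ := g.surjective b
    obtain ⟨n, hn⟩ := (h.gr σ).un _ _ _ ((hR σ _ _).1 k1) ((hR σ _ _).1 k2)
    exact ⟨_, ⟨n, rfl⟩, by rw [← map_sub, hn, gz, mulVecLin_apply]⟩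
  · obtain ⟨T, hT, eT⟩ := hf
    choose A hA eA using hv
    have hL := zda_lin hτ ht
    have hs : Differentiable ℂ fun z => f (q.symm z) / γ z ^ k := by
      refine entire_of_ratio (F := fun a z => T (per τ (q.symm z)) * w z a ^ k)
        (G := fun a z => A a (per τ (q.symm z)) ^ k)
        (fun a => (hT.comp hL).mul ((h.hol a).pow k)) (fun a => ((hA a).comp hL).pow k)
        (fun z => ?_) fun a z => ?_
      · obtain ⟨a, ha⟩ := nz (q.symm z)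
        rw [eA] at ha
        exact ⟨a, pow_ne_zero k (right_ne_zero_of_mul ha)⟩
      · have k1 := congrArg (· ^ k) ((hvu a (q.symm z)).symm.trans (eA a _))
        have k2 := γ0 z
        simp only [mul_pow, q.apply_symm_apply, ← ee_nat_mul] at k1
        rw [← mul_div_assoc, ← mul_assoc, ← ofReal_natCast, ← ofReal_mul] at k1
        rw [eT]
        field_simp
        linear_combination T (per τ (q.symm z)) * k1
    obtain ⟨e, P, Q, hP, hQ, k1, k2⟩ := h.rat k _ hs (fun z z' d hd => by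
      have k3 := γ0 z
      have k4 := γ0 z'
      rw [hft (q.symm z) (q.symm z') (γ z * d / γ z') fun a => by
          rw [hvu, hvu, q.apply_symm_apply, q.apply_symm_apply, hd, Pi.smul_apply, smul_eq_mul]
          field_simp, div_pow, mul_pow]
      field_simp) (q x₀)
    refine ⟨e, P, Q, hP, hQ, ?_, fun x => ?_⟩
    · simp only [hvu]
      rw [s_hom hQ]
      exact mul_ne_zero (pow_ne_zero e (γ0 _)) k1
    · have k3 := k2 (q x)
      simp only [hvu]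
      rw [s_hom hQ, s_hom hP]
      rw [q.symm_apply_apply, div_mul_eq_mul_div, div_eq_iff (pow_ne_zero k (γ0 _))] at k3
      linear_combination γ (q x) ^ e * k3

end

theorem z_main2 (hg : 1 ≤ g) (h : Unif J p u) {r : Fam (GK K) (κ g)}
    (hr : ∀ σ, Tate (RA p u σ) fun l => r l σ) :
    ∃ (_ : Dim) (τ : Mat) (R : Fam (GK K) ν) (G : Matrix ν (Fin 8 × κ g) ℤ)
      (H : Matrix (Fin 8 × κ g) ν ℤ) (Ω : Matrix (κ g) (κ g) ℤ) (N D : ℕ), InH τ ∧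
      (∀ σ : GK K, Fw τ σ.toRingEquiv fun q => R q σ) ∧
      (∀ (q : ℕ) [Fact q.Prime] σ (c : ℤ_[q][X]), aeval (R q σ).1 c = 0 ↔ aeval (r q σ).1 c = 0) ∧
      (∀ (q : ℕ) [Fact q.Prime] σ, (R q σ).1 * G.map (Int.cast : ℤ → ℤ_[q]) =
        G.map (Int.cast : ℤ → ℤ_[q]) * d8 (r q σ).1) ∧
      D ≠ 0 ∧ G * H = (D : ℤ) • 1 ∧ H * G = (D : ℤ) • 1 ∧
      (∀ a b, E (G.map (Int.cast : ℤ → ℝ) *ᵥ a) (G.map (Int.cast : ℤ → ℝ) *ᵥ b) =
        (N : ℝ) ^ 2 * (a ⬝ᵥ (d8 Ω).map (Int.cast : ℤ → ℝ) *ᵥ b)) ∧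
      ∀ x y, p8 p y = Complex.I • p8 p x →
        cst τ *ᵥ G.map (Int.cast : ℤ → ℝ) *ᵥ x = G.map (Int.cast : ℤ → ℝ) *ᵥ y := by
  obtain ⟨Ω, α, _, w, S, hΩ, hΩ', hS, hSΩ, hRA⟩ := z_sym2 h
  obtain ⟨_, G, H, N, D, y, -, hN, hD, hGH, hHG, hE, -, hq, hl⟩ := z_lat hg hΩ hΩ' 2 ⊥ (x := 1)
    fun e => one_ne_zero (congrFun e (.inl ⟨0, hg⟩))
  obtain ⟨τ, v, hDa, hRv, hT⟩ := z_da2 hS hN hD hGH hHG fun a b => by rw [hE, hSΩ]
  have hN' : (N : ℝ) ^ 2 ≠ 0 := pow_ne_zero _ (Nat.cast_ne_zero.2 hN)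
  have hd8 : (d8 Ω).map (Int.cast : ℤ → ℝ) = d8 (Ω.map (Int.cast : ℤ → ℝ)) := by
    ext a b
    simp only [d8, map_apply]
    split_ifs <;> simp
  have hz : ∀ {a b : Type} [Fintype b] (A : Matrix a b ℤ) (m : b → ℤ),
      A.map (Int.cast : ℤ → ℝ) *ᵥ rz m = rz (A *ᵥ m) := fun A m => by
    funext i
    simp [rz, mulVec, dotProduct]
  have hE0 : ∀ (k : ℕ) (a : κ g → ℤ) b, k ≠ 0 → k * ((N : ℝ) ^ 2)⁻¹ *
      E (G.map (Int.cast : ℤ → ℝ) *ᵥ in0 ((k : ℝ)⁻¹ • rz a)) (G.map (Int.cast : ℤ → ℝ) *ᵥ b) =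
      rz a ⬝ᵥ Ω.map (Int.cast : ℤ → ℝ) *ᵥ blk b 0 := fun k a b hk => by
    have : (k : ℝ) ≠ 0 := Nat.cast_ne_zero.2 hk
    rw [hE, in0_dot, hd8, d8_mulVec, smul_dotProduct, smul_eq_mul]
    field_simp
  have sim : ∀ (q : ℕ) [Fact q.Prime] (σ : GK K),
      (r q σ).1ᵀ * Ω.map (Int.cast : ℤ → ℤ_[q]) * (r q σ).1 =
      (cyclotomicCharacter ℂ q σ.toRingEquiv).val • Ω.map (Int.cast : ℤ → ℤ_[q]) := fun q hq σ => by
    refine zm_sim (hr σ) σ.toRingEquiv (fun k a a' b b' hk ha hb => ?_) ⟨q, hq.out⟩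
    have h0 : ∀ {a a' : κ g → ℝ}, RA p u σ a a' →
        Rv v σ (G.map (Int.cast : ℤ → ℝ) *ᵥ in0 a) (G.map (Int.cast : ℤ → ℝ) *ᵥ in0 a') :=
      fun {a a'} ha => (hRv σ _ _).2 (hRA σ _ _ fun i => by
        by_cases hi : i = 0
        · exact hi ▸ ha
        · have e : ∀ a : κ g → ℝ, blk (in0 a) i = fun j => ((0 : κ g → ℚ) j : ℝ) := fun a => by
            funext j
            simp [blk, in0, hi]
          rw [e, e]
          exact hr σ 0 0 fun l i => by simp [mulVec, dotProduct])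
    have h1 : ∀ a : κ g → ℤ, ∀ n ∈ (G.mulVecLin.range).toAddSubgroup, ∃ j : ℤ,
        k * ((N : ℝ) ^ 2)⁻¹ * E (G.map (Int.cast : ℤ → ℝ) *ᵥ in0 ((k : ℝ)⁻¹ • rz a)) (rz n) = j := by
      rintro a _ ⟨m, rfl⟩
      refine ⟨a ⬝ᵥ Ω *ᵥ blk m 0, ?_⟩
      rw [mulVecLin_apply, ← hz, hE0 k a _ hk]
      simp [rz, blk, mulVec, dotProduct]
    have h2 : ∀ a b : κ g → ℤ, ((k * ((N : ℝ) ^ 2)⁻¹ *
        E (G.map (Int.cast : ℤ → ℝ) *ᵥ in0 ((k : ℝ)⁻¹ • rz a))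
          (G.map (Int.cast : ℤ → ℝ) *ᵥ in0 ((k : ℝ)⁻¹ • rz b)) : ℝ) : ℂ) =
        (a ⬝ᵥ Ω *ᵥ b : ℤ) / k := fun a b => by
      rw [hE0 k a _ hk, show blk (in0 ((k : ℝ)⁻¹ • rz b)) 0 = (k : ℝ)⁻¹ • rz b from rfl,
        mulVec_smul, hz, dotProduct_smul]
      simp [rz, dotProduct, div_eq_inv_mul]
    have h3 := z_pair hDa σ k (h0 ha) (h0 hb) (by
      rintro _ (rfl | rfl | rfl | rfl) <;> exact h1 _)
    rwa [h2, h2] at h3
  have can : ∀ (q : ℕ) [Fact q.Prime] {A : Matrix ν ν ℤ_[q]},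
      A * G.map (Int.cast : ℤ → ℤ_[q]) = 0 → A = 0 := fun q _ A hA => by
    have h1 := congrArg (· * H.map (Int.cast : ℤ → ℤ_[q])) hA
    simp only [Matrix.mul_assoc, zm_cast hGH, Matrix.mul_smul, Matrix.mul_one,
      Matrix.zero_mul] at h1
    exact (smul_eq_zero.1 h1).resolve_left (Nat.cast_ne_zero.2 hD)
  have ex : ∀ (q : ℕ) [Fact q.Prime] (σ : GK K), ∃ R : GL ν ℤ_[q],
      R.1 * G.map (Int.cast : ℤ → ℤ_[q]) = G.map (Int.cast : ℤ → ℤ_[q]) * d8h (r q σ).1 :=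
    fun q _ σ => by
      by_cases e : q = 2
      · subst e
        exact (hl _ _ (sim 2 σ) fun w hw => by rw [hw, mulVec_zero]; rfl).imp fun _ h => h.1
      · exact hq q e _ _ (sim q σ)
  choose R hR using ex
  refine ⟨_, τ, fun q _ => MonoidHom.mk' (R q) fun σ σ' => Units.ext (sub_eq_zero.1 (can q ?_)),
    G, H, Ω, N, D, hDa.inH, fun σ => z_fw hDa (k := 4 * N ^ 2) (by push_cast; field_simp) σ _ ?_,
    fun q _ σ c => ?_, hR, hD, hGH, hHG, hE, hT⟩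
  · rw [Matrix.sub_mul, Units.val_mul, Matrix.mul_assoc, hR, hR, ← Matrix.mul_assoc, hR, map_mul,
      Units.val_mul, map_mul, Matrix.mul_assoc, sub_self]
  · rintro a a' ⟨t, ht, h1⟩
    have hD' : (D : ℚ) ≠ 0 := Nat.cast_ne_zero.2 hD
    have h2 : ∀ a : ν → ℚ, G.map (Int.cast : ℤ → ℚ) *ᵥ ((D : ℚ)⁻¹ • H.map (Int.cast : ℤ → ℚ) *ᵥ a) =
        a := fun a => by
      rw [mulVec_smul, mulVec_mulVec, zm_cast hGH, smul_mulVec, one_mulVec, inv_smul_smul₀ hD']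
    have h3 : ∀ (F : Type) [Field F] [CharZero F] (b : Fin 8 × κ g → ℚ),
        (fun i => ((G.map (Int.cast : ℤ → ℚ) *ᵥ b) i : F)) =
          G.map (Int.cast : ℤ → F) *ᵥ fun i => (b i : F) := fun F _ _ b => by
      funext i
      simp [mulVec, dotProduct]
    generalize (D : ℚ)⁻¹ • H.map (Int.cast : ℤ → ℚ) *ᵥ a = b, (D : ℚ)⁻¹ •
      H.map (Int.cast : ℤ → ℚ) *ᵥ a' = b', h2 a = hb, h2 a' = hb'
    subst hb hb'
    unfold rQ
    rw [h3, h3]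
    refine (hRv σ _ _).2 (hRA σ _ _ fun i => hr σ (blk b i) (blk b' i) fun q j => ?_)
    have h4 := congrArg (cV q) h1
    have h5 : mQ (R q σ).1 * G.map (Int.cast : ℤ → ℚ_[q]) =
        G.map (Int.cast : ℤ → ℚ_[q]) * d8 ((r q σ).1.map fun x => (x : ℚ_[q])) := by
      have h6 := congrArg (·.map (PadicInt.Coe.ringHom (p := q))) (hR q σ)
      simp only [Matrix.map_mul] at h6
      refine h6.trans (congrArg _ ?_)
      ext a b
      exact apply_ite ((↑) : ℤ_[q] → ℚ_[q]) _ _ _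
    rw [cV_sub, cV_rho, cV_qV, cV_qV, h3, h3, cV_nsmul, mulVec_mulVec] at h4
    erw [h5] at h4
    rw [← mulVec_mulVec, ← mulVec_sub] at h4
    have h6 := congrArg (H.map (Int.cast : ℤ → ℚ_[q]) *ᵥ ·) h4
    simp only [mulVec_mulVec, zm_cast hHG, smul_mulVec, one_mulVec, mulVec_smul] at h6
    have h7 := congrFun (smul_right_injective _ (Nat.cast_ne_zero.2 hD) h6) (i, j)
    have h8 := congrFun (d8_mulVec ((r q σ).1.map fun x => (x : ℚ_[q])) (fun i => (b i : ℚ_[q])) i) j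
    rw [Pi.sub_apply] at h7
    refine (congrArg norm ((congrArg (· - _) h8.symm).trans h7)).trans_le ?_
    refine IsUltrametricDist.norm_sum_le_of_forall_le_of_nonneg zero_le_one fun k _ => ?_
    rw [norm_mul]
    exact mul_le_one₀ (Padic.norm_int_le_one _) (norm_nonneg _) (mem_TA_iff.1 ht q k)
  · have h1 := zm_inter (hR q σ) c
    rw [aeval_algHom_apply] at h1
    refine ⟨fun h2 => d8_inj ?_, fun h2 => can q (h1.trans (by rw [h2, map_zero, Matrix.mul_zero]))⟩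
    have h3 := congrArg (H.map (Int.cast : ℤ → ℤ_[q]) * ·) h1
    simp only [show aeval (R q σ).1 c = 0 from h2, Matrix.zero_mul, Matrix.mul_zero,
      ← Matrix.mul_assoc, zm_cast hHG, Matrix.smul_mul, Matrix.one_mul] at h3
    exact (smul_eq_zero.1 h3.symm).resolve_left (Nat.cast_ne_zero.2 hD)

end

end Pool.Agent.RT
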